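import Pool.Agent.helper62.TS.Star

/-!
# The algebraic part of the T-strong open set condition: main theorem
-/

set_option autoImplicit false

namespace Pool.Agent.helper62.TS

variable {L : Type*} [AddCommGroup L] {R : Module.End ℤ L}

/-- A multiplier which kills the torsion of `L / p`. -/
theorem exists_mult [Module.Finite ℤ L] (p : Submodule ℤ L) :
    ∃ s : ℕ, s ≠ 0 ∧ ∀ (j : ℕ) (x : L), j ≠ 0 → j • x ∈ p → s • x ∈ p := by
  have hnoeth : IsNoetherian ℤ L := isNoetherian_of_isNoetherianRing_of_finite ℤ L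
  let f : ℕ →o Submodule ℤ L :=
    { toFun := fun n => AddSubgroup.toIntSubmodule
        { carrier := {x | n.factorial • x ∈ p}
          zero_mem' := by
            change n.factorial • (0 : L) ∈ p
            rw [smul_zero]; exact p.zero_mem
          add_mem' := fun {a b} ha hb => by
            change n.factorial • (a + b) ∈ p
            rw [smul_add]; exact p.add_mem ha hb
          neg_mem' := fun {a} ha => by
            change n.factorial • (-a) ∈ p
            rw [smul_neg]; exact p.neg_mem ha }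
      monotone' := by
        intro m n hmn x hx
        have hx' : m.factorial • x ∈ p := hx
        change n.factorial • x ∈ p
        obtain ⟨c, hc⟩ := Nat.factorial_dvd_factorial hmn
        rw [hc, mul_comm, mul_smul]
        exact p.smul_of_tower_mem c hx' }
  obtain ⟨n, hn⟩ := monotone_stabilizes_iff_noetherian.2 hnoeth f
  refine ⟨n.factorial, Nat.factorial_ne_zero n, fun j x hj hx => ?_⟩
  have h1 : x ∈ f (max n j) := by
    change (max n j).factorial • x ∈ p
    obtain ⟨c, hc⟩ : j ∣ (max n j).factorial :=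
      Nat.dvd_factorial (Nat.pos_of_ne_zero hj) (le_max_right _ _)
    rw [hc, mul_comm, mul_smul]
    exact p.smul_of_tower_mem c hx
  rw [← hn _ (le_max_left _ _)] at h1
  exact h1

/-- The submodule of elements which are moved into `W` by a power of `R`. -/
def eventually (R : Module.End ℤ L) (W : Submodule ℤ L) (hW : ∀ x, x ∈ W → R x ∈ W) :
    Submodule ℤ L :=
  AddSubgroup.toIntSubmodule
  { carrier := {x | ∃ k, (R ^ k) x ∈ W}
    zero_mem' := ⟨0, by rw [map_zero]; exact W.zero_mem⟩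
    add_mem' := by
      rintro x y ⟨k, hk⟩ ⟨l, hl⟩
      refine ⟨k + l, ?_⟩
      rw [map_add]
      refine W.add_mem ?_ ?_
      · rw [add_comm, pow_add_apply]
        exact pow_mem_of hW l hk
      · rw [pow_add_apply]
        exact pow_mem_of hW k hl
    neg_mem' := by
      rintro x ⟨k, hk⟩
      exact ⟨k, by rw [map_neg]; exact W.neg_mem hk⟩ }

theorem mem_eventually {W : Submodule ℤ L} {hW : ∀ x, x ∈ W → R x ∈ W} (x : L) :
    x ∈ eventually R W hW ↔ ∃ k, (R ^ k) x ∈ W := Iff.rfl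

theorem eventually_R {W : Submodule ℤ L} {hW : ∀ x, x ∈ W → R x ∈ W} (x : L) :
    R x ∈ eventually R W hW ↔ x ∈ eventually R W hW := by
  rw [mem_eventually, mem_eventually]
  constructor
  · rintro ⟨k, hk⟩
    exact ⟨k + 1, by rw [pow_succ_apply]; exact hk⟩
  · rintro ⟨k, hk⟩
    exact ⟨k, by rw [← pow_succ_apply, pow_succ_apply']; exact hW _ hk⟩

/-- **The algebraic part.** -/
theorem star [Module.Finite ℤ L] (htf : ∀ (j : ℕ) (x : L), j ≠ 0 → j • x = 0 → x = 0)
    (R : Module.End ℤ L) (hR : Function.Injective R) [Finite (L ⧸ LinearMap.range R)]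
    (hfin : ∀ E : Set L, E.Finite → ∃ K, Absorb R E K) {B : Set L} (hBf : B.Finite)
    (hB0 : (0 : L) ∈ B) (hBi : Inj R B) (hB2 : ∃ b ∈ B, b ≠ 0) : Star R B := by
  classical
  by_cases hc : ∃ x, Miss R B x
  swap
  · refine star_complete R hBf hBi fun x => ?_
    by_contra hno
    apply hc
    refine ⟨x, fun d hd y hy => hno ⟨d, hd, y, hy⟩⟩
  set N := NEsub R hR hBf hBi with hN
  have hNR := NEsub_R hR hBf hBi hB0
  have hNd : ∀ b ∈ B, ∀ δ ∈ N, ∃ b' ∈ B, ∃ y, b + δ = b' + R y ∧ b' - b ∈ N :=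
    fun b hb δ hδ => NEsub_digit hR hBf hBi b hb δ hδ hB0
  have hNex : ∀ x, x ∉ N → ∃ n s, Mv R (dig B B) n x s ∧ ∃ b ∈ B, Miss R B (s + b) := by
    intro x hx
    rw [hN, mem_NEsub] at hx
    unfold NE at hx
    push Not at hx
    exact hx
  by_cases hBN : ∃ b ∈ B, b ∉ N
  · refine lift_star R hfin hBf hB0 hBi hc N hNR hNd (fun x => ?_) hBN
    by_cases hx : x ∈ N
    · exact Or.inl ⟨0, zero_mem_UU, by rwa [sub_zero]⟩
    · exact Or.inr (hNex x hx)
  push Not at hBN
  obtain ⟨H, hHle, hHR, hHd, hHU, hHB⟩ := exists_H htf hR hfin hBf hB0 hBi hB2 hNR hNd hBN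
  have hsat := relsat hfin hBf hB0 hNR hNd hBN
  set N' := spanR R B with hN'
  have hN'N : N' ≤ N := spanR_le (fun x hx => (hNR x).2 hx) hBN
  obtain ⟨s, hs0, hs⟩ := exists_mult N'
  -- the submodule `W = N' + s L`
  set W : Submodule ℤ L := N' ⊔ LinearMap.range ((s : ℤ) • (LinearMap.id : L →ₗ[ℤ] L)) with hWdef
  have hW : ∀ x, x ∈ W → R x ∈ W := by
    intro x hx
    obtain ⟨a, ha, _, ⟨y, rfl⟩, rfl⟩ := Submodule.mem_sup.1 hx
    rw [map_add]
    refine W.add_mem (Submodule.mem_sup_left (spanR_map B a ha))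
      (Submodule.mem_sup_right ⟨R y, ?_⟩)
    simp
  set p := eventually R W hW with hp
  have hpR : ∀ x, R x ∈ p ↔ x ∈ p := eventually_R
  have hN'p : N' ≤ p := fun x hx => ⟨0, by
    rw [pow_zero]; exact Submodule.mem_sup_left hx⟩
  have hBp : B ⊆ p := fun b hb => hN'p (subset_spanR B hb)
  have hpfin : Finite (L ⧸ p) := by
    refine Module.finite_of_fg_torsion _ ?_
    intro q
    obtain ⟨x, rfl⟩ := Submodule.mkQ_surjective p q
    refine ⟨⟨(s : ℤ), mem_nonZeroDivisors_of_ne_zero (by exact_mod_cast hs0)⟩, ?_⟩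
    change (s : ℤ) • p.mkQ x = 0
    rw [← map_smul, Submodule.mkQ_apply, Submodule.Quotient.mk_eq_zero]
    refine ⟨0, ?_⟩
    rw [pow_zero]
    exact Submodule.mem_sup_right ⟨x, rfl⟩
  have hpst : ∀ x, x ∈ p → R x ∈ p := fun x hx => (hpR x).2 hx
  -- `R` is onto modulo `p`
  have hsurj : ∀ x : L, ∃ l ∈ p, ∃ y, x = l + R y := by
    have h : p ≤ p.comap R := fun x hx => hpst x hx
    have hi : Function.Injective (p.mapQ p R h) := by
      rw [injective_iff_map_eq_zero]
      intro q hq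
      obtain ⟨x, rfl⟩ := Submodule.mkQ_surjective p q
      have h1 : p.mkQ (R x) = 0 := hq
      rw [Submodule.mkQ_apply, Submodule.Quotient.mk_eq_zero] at h1 ⊢
      exact (hpR x).1 h1
    have hsj := Finite.injective_iff_surjective.1 hi
    intro x
    obtain ⟨q, hq⟩ := hsj (p.mkQ x)
    obtain ⟨y, rfl⟩ := Submodule.mkQ_surjective p q
    have h1 : p.mkQ (R y) = p.mkQ x := hq
    refine ⟨x - R y, ?_, y, by abel⟩
    rw [← mk_eq, h1]
  -- `p ∩ N = N'`
  have hpN : ∀ x, x ∈ p → x ∈ N → x ∈ N' := by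
    have hfi : ∃ j : ℕ, j ≠ 0 ∧ ∀ x ∈ N, j • x ∈ N' := by
      -- the quotient `N / N'` is finite
      obtain ⟨K, hK⟩ := hfin B hBf
      have hNst : ∀ x, x ∈ N → R x ∈ N := fun x hx => (hNR x).2 hx
      set p₁ : Submodule ℤ N := N'.comap N.subtype with hp₁
      have hcov : ∀ x : N, ∃ e ∈ (((↑) : N → L) ⁻¹' B), ∃ y, x = e + R.restrict hNst y := by
        intro x
        obtain ⟨b', hb', y, h1, h2⟩ := hNd 0 hB0 x x.2
        rw [zero_add] at h1
        have hy : y ∈ N := by
          rw [← hNR]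
          have : R y = x - b' := by rw [h1]; abel
          rw [this]
          exact N.sub_mem x.2 (hBN b' hb')
        exact ⟨⟨b', hBN b' hb'⟩, hb', ⟨y, hy⟩, Subtype.ext h1⟩
      have hE : (((↑) : N → L) ⁻¹' B) ⊆ p₁ := fun b hb => subset_spanR B hb
      have hfi : Finite (N ⧸ p₁) := finite_index hE
        (fun x hx => spanR_map B (x : L) hx) hcov (Absorb_restrict hNst hK)
      refine ⟨Nat.card (N ⧸ p₁), Nat.card_pos.ne', fun x hx => ?_⟩
      have h1 : Nat.card (N ⧸ p₁) • p₁.mkQ ⟨x, hx⟩ = 0 := card_nsmul_eq_zero'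
      rw [← map_nsmul, Submodule.mkQ_apply, Submodule.Quotient.mk_eq_zero] at h1
      exact h1
    obtain ⟨j, hj0, hj⟩ := hfi
    rintro x ⟨k, hk⟩ hxN
    obtain ⟨a, ha, _, ⟨y, rfl⟩, hay⟩ := Submodule.mem_sup.1 hk
    have hy1 : s • y ∈ N := by
      have h1 : s • y = (R ^ k) x - a := by
        rw [← hay]
        simp
      rw [h1]
      exact N.sub_mem (pow_mem_of (fun x hx => (hNR x).2 hx) k hxN) (hN'N ha)
    have hy2 : s • y ∈ N' := by
      refine hs (j * s) y (Nat.mul_ne_zero hj0 hs0) ?_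
      rw [mul_smul]
      exact hj _ hy1
    have hy3 : (R ^ k) x ∈ N' := by
      rw [← hay]
      refine N'.add_mem ha ?_
      simpa using hy2
    clear hay hk
    induction k with
    | zero => simpa using hy3
    | succ k ih =>
      rw [pow_succ_apply'] at hy3
      exact ih (hsat _ (pow_mem_of (fun x hx => (hNR x).2 hx) k hxN) hy3)
  -- the lift theorem inside `p`
  refine star_of_sub hpst (fun x hx => (hpR x).1 hx) hsurj hBp ?_
  have hfinq : Finite (p ⧸ LinearMap.range (R.restrict hpst)) := by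
    have hle : LinearMap.range (R.restrict hpst) ≤ (LinearMap.range R).comap p.subtype := by
      rintro _ ⟨x, rfl⟩
      exact ⟨x, rfl⟩
    refine Finite.of_injective
      ((LinearMap.range (R.restrict hpst)).mapQ (LinearMap.range R) p.subtype hle) ?_
    rw [injective_iff_map_eq_zero]
    intro q hq
    obtain ⟨x, rfl⟩ := Submodule.mkQ_surjective _ q
    have h1 : (LinearMap.range R).mkQ (x : L) = 0 := hq
    rw [Submodule.mkQ_apply, Submodule.Quotient.mk_eq_zero] at h1 ⊢
    obtain ⟨y, hy⟩ := h1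
    exact ⟨⟨y, (hpR y).1 (by rw [hy]; exact x.2)⟩, Subtype.ext hy⟩
  have hdigres : (((↑) : p → L) ⁻¹' (dig B B)) =
      dig (((↑) : p → L) ⁻¹' B) (((↑) : p → L) ⁻¹' B) := dig_restrict hBp hBp
  have hdigp : dig B B ⊆ p := by
    rintro x ⟨b, hb, b', hb', rfl⟩
    exact p.sub_mem (hBp hb) (hBp hb')
  refine lift_star (R.restrict hpst) (fin_restrict hpst hfin)
    (hBf.preimage (Set.injOn_of_injective Subtype.val_injective)) hB0 ?_ ?_ (H.comap p.subtype)
    (fun x => hHR x) ?_ ?_ ?_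
  · intro b hb b' hb' y h
    exact Subtype.ext (hBi b hb b' hb' y (congrArg Subtype.val h))
  · obtain ⟨x, hx⟩ := hc
    obtain ⟨l, hl, y, rfl⟩ := hsurj x
    refine ⟨⟨l, hl⟩, fun d hd z hz => ?_⟩
    refine hx d hd (z + y) ?_
    have h1 : l = (d : L) + R (z : L) := congrArg Subtype.val hz
    rw [h1, map_add, add_assoc]
  · intro b hb δ hδ
    obtain ⟨b', hb', y, h1, h2⟩ := hHd b hb δ hδ
    have hy : y ∈ p := by
      refine (hpR y).1 ?_
      have : R y = (b : L) + δ - b' := by rw [h1]; abel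
      rw [this]
      exact p.sub_mem (p.add_mem b.2 δ.2) (hBp hb')
    exact ⟨⟨b', hBp hb'⟩, hb', ⟨y, hy⟩, Subtype.ext h1, h2⟩
  · intro x
    by_cases hx : (x : L) ∈ N
    · left
      obtain ⟨u, ⟨n, e, he, e', he', rfl⟩, hu⟩ := hHU x (hpN x x.2 hx)
      obtain ⟨hep, he1⟩ := En_restrict hpst hBp n e he
      obtain ⟨hep', he1'⟩ := En_restrict hpst hBp n e' he'
      exact ⟨⟨e, hep⟩ - ⟨e', hep'⟩, ⟨n, _, he1, _, he1', rfl⟩, hu⟩
    · right
      obtain ⟨n, t, ht, b, hb, hm⟩ := hNex x hx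
      obtain ⟨htp, ht'⟩ := Mv_restrict hpst (fun x hx => (hpR x).1 hx) hdigp x.2 ht
      rw [hdigres] at ht'
      refine ⟨n, ⟨t, htp⟩, ht', ⟨b, hBp hb⟩, hb, fun d hd y hy => ?_⟩
      exact hm d hd y (congrArg Subtype.val hy)
  · obtain ⟨b, hb, hbH⟩ := hHB
    exact ⟨⟨b, hBp hb⟩, hb, hbH⟩

end Pool.Agent.helper62.TS
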