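import Mathlib

/-!
# Digit expansions in an abelian group (T-strong open set condition, algebraic core, part 1)

`L` is an abelian group, `R` an injective endomorphism, `E` a set of digits with `0 ∈ E`.
`En R E n = E + R E + ⋯ + R ^ (n - 1) E`; `Mv R E n x y` means `x = e + R ^ n y` with
`e ∈ En R E n`.
-/

set_option autoImplicit false

namespace Pool.Agent.helper62.TS

variable {L : Type*} [AddCommGroup L] (R : Module.End ℤ L) (E : Set L)

/-- The sums `∑ k < n, R ^ k (e k)` with `e k ∈ E`. -/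
def En : ℕ → Set L
  | 0 => {0}
  | n + 1 => {x | ∃ e ∈ E, ∃ y ∈ En n, x = e + R y}

/-- All finite sums. -/
def EU : Set L := {x | ∃ n, x ∈ En R E n}

/-- `n` moves from `x` to `y`. -/
def Mv (n : ℕ) (x y : L) : Prop := ∃ e ∈ En R E n, x = e + (R ^ n) y

/-- Differences of sums. -/
def UU : Set L := {u | ∃ n, ∃ e ∈ En R E n, ∃ e' ∈ En R E n, u = e - e'}

variable {R E}

theorem pow_succ_apply (n : ℕ) (x : L) : (R ^ (n + 1)) x = (R ^ n) (R x) := by
  rw [pow_succ, Module.End.mul_apply]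

theorem pow_succ_apply' (n : ℕ) (x : L) : (R ^ (n + 1)) x = R ((R ^ n) x) := by
  rw [pow_succ', Module.End.mul_apply]

theorem pow_add_apply (n k : ℕ) (x : L) : (R ^ (n + k)) x = (R ^ n) ((R ^ k) x) := by
  rw [pow_add, Module.End.mul_apply]

theorem pow_inj (hR : Function.Injective R) (n : ℕ) : Function.Injective (R ^ n : Module.End ℤ L) := by
  induction n with
  | zero => intro x y h; simpa using h
  | succ n ih =>
    intro x y h
    rw [pow_succ_apply, pow_succ_apply] at h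
    exact hR (ih h)

theorem mem_En_zero (x : L) : x ∈ En R E 0 ↔ x = 0 := Iff.rfl

theorem mem_En_succ (n : ℕ) (x : L) : x ∈ En R E (n + 1) ↔ ∃ e ∈ E, ∃ y ∈ En R E n, x = e + R y :=
  Iff.rfl

theorem mem_En_one (x : L) : x ∈ En R E 1 ↔ x ∈ E := by
  rw [mem_En_succ]
  constructor
  · rintro ⟨e, he, y, hy, rfl⟩
    rw [mem_En_zero] at hy
    subst hy
    simpa using he
  · intro hx
    exact ⟨x, hx, 0, rfl, by simp⟩

theorem zero_mem_En (h0 : (0 : L) ∈ E) (n : ℕ) : (0 : L) ∈ En R E n := by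
  induction n with
  | zero => rfl
  | succ n ih => exact ⟨0, h0, 0, ih, by simp⟩

theorem En_add (n k : ℕ) {a b : L} (ha : a ∈ En R E n) (hb : b ∈ En R E k) :
    a + (R ^ n) b ∈ En R E (n + k) := by
  induction n generalizing a with
  | zero =>
    rw [mem_En_zero] at ha
    subst ha
    simpa using hb
  | succ n ih =>
    obtain ⟨e, he, y, hy, rfl⟩ := ha
    have h := ih hy
    rw [show n + 1 + k = n + k + 1 by omega]
    refine ⟨e, he, _, h, ?_⟩
    rw [map_add, pow_succ_apply', add_assoc]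

theorem En_split (n k : ℕ) {x : L} (hx : x ∈ En R E (n + k)) :
    ∃ a ∈ En R E n, ∃ b ∈ En R E k, x = a + (R ^ n) b := by
  induction n generalizing x with
  | zero =>
    refine ⟨0, rfl, x, by simpa using hx, by simp⟩
  | succ n ih =>
    rw [show n + 1 + k = n + k + 1 by omega] at hx
    obtain ⟨e, he, y, hy, rfl⟩ := hx
    obtain ⟨a, ha, b, hb, rfl⟩ := ih hy
    refine ⟨e + R a, ⟨e, he, a, ha, rfl⟩, b, hb, ?_⟩
    rw [map_add, pow_succ_apply', add_assoc]

theorem En_mono (h0 : (0 : L) ∈ E) {n m : ℕ} (h : n ≤ m) : En R E n ⊆ En R E m := by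
  intro x hx
  obtain ⟨k, rfl⟩ := Nat.exists_eq_add_of_le h
  simpa using En_add n k hx (zero_mem_En h0 k)

theorem En_subset {E' : Set L} (h : E ⊆ E') (n : ℕ) : En R E n ⊆ En R E' n := by
  induction n with
  | zero => exact subset_rfl
  | succ n ih =>
    rintro x ⟨e, he, y, hy, rfl⟩
    exact ⟨e, h he, y, ih hy, rfl⟩

theorem En_finite (hE : E.Finite) (n : ℕ) : (En R E n).Finite := by
  induction n with
  | zero => exact Set.finite_singleton 0
  | succ n ih =>
    refine (Set.Finite.image2 (fun e y => e + R y) hE ih).subset ?_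
    rintro x ⟨e, he, y, hy, rfl⟩
    exact ⟨e, he, y, hy, rfl⟩

theorem Mv_zero (x : L) : Mv R E 0 x x := ⟨0, rfl, by simp⟩

theorem Mv_trans {n k : ℕ} {x y z : L} (h : Mv R E n x y) (h' : Mv R E k y z) :
    Mv R E (n + k) x z := by
  obtain ⟨a, ha, rfl⟩ := h
  obtain ⟨b, hb, rfl⟩ := h'
  refine ⟨_, En_add n k ha hb, ?_⟩
  rw [map_add, pow_add_apply, add_assoc]

theorem Mv_one {x y e : L} (he : e ∈ E) (h : x = e + R y) : Mv R E 1 x y :=
  ⟨e, (mem_En_one e).2 he, by simpa using h⟩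

theorem Mv_subset {E' : Set L} (h : E ⊆ E') {n : ℕ} {x y : L} (hxy : Mv R E n x y) :
    Mv R E' n x y := by
  obtain ⟨a, ha, rfl⟩ := hxy
  exact ⟨a, En_subset h n ha, rfl⟩

/-- Adding a multiple of `R ^ n`. -/
theorem Mv_add {n : ℕ} {x y : L} (h : Mv R E n x y) (w : L) : Mv R E n (x + (R ^ n) w) (y + w) := by
  obtain ⟨a, ha, rfl⟩ := h
  exact ⟨a, ha, by rw [map_add, add_assoc]⟩

theorem Mv_sub {n : ℕ} {x y : L} (h : Mv R E n x y) (w : L) : Mv R E n (x - (R ^ n) w) (y - w) := by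
  have := Mv_add h (-w)
  rwa [map_neg, ← sub_eq_add_neg, ← sub_eq_add_neg] at this

theorem Mv_zero_iff {n : ℕ} {x : L} : Mv R E n x 0 ↔ x ∈ En R E n := by
  constructor
  · rintro ⟨a, ha, rfl⟩
    simpa using ha
  · intro h
    exact ⟨x, h, by simp⟩

theorem EU_of_Mv {n : ℕ} {x y : L} (h : Mv R E n x y) (hy : y ∈ EU R E) : x ∈ EU R E := by
  obtain ⟨k, hk⟩ := hy
  exact ⟨n + k, Mv_zero_iff.1 (Mv_trans h (Mv_zero_iff.2 hk))⟩

/-- If `E` meets all classes modulo `R` one can make `n` moves from everywhere. -/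
theorem exists_Mv (hcov : ∀ x : L, ∃ e ∈ E, ∃ y, x = e + R y) (n : ℕ) (x : L) :
    ∃ y, Mv R E n x y := by
  induction n generalizing x with
  | zero => exact ⟨x, Mv_zero x⟩
  | succ n ih =>
    obtain ⟨e, he, y, hy⟩ := hcov x
    obtain ⟨z, hz⟩ := ih y
    refine ⟨z, ?_⟩
    rw [add_comm n 1]
    exact Mv_trans (Mv_one he hy) hz

theorem zero_mem_UU : (0 : L) ∈ UU R E := ⟨0, 0, rfl, 0, rfl, by simp⟩

theorem neg_mem_UU {u : L} (h : u ∈ UU R E) : -u ∈ UU R E := by
  obtain ⟨n, e, he, e', he', rfl⟩ := h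
  exact ⟨n, e', he', e, he, by abel⟩

theorem UU_level (h0 : (0 : L) ∈ E) {u : L} (h : u ∈ UU R E) :
    ∃ n₀, ∀ n ≥ n₀, ∃ e ∈ En R E n, ∃ e' ∈ En R E n, u = e - e' := by
  obtain ⟨n₀, e, he, e', he', rfl⟩ := h
  exact ⟨n₀, fun n hn => ⟨e, En_mono h0 hn he, e', En_mono h0 hn he', rfl⟩⟩

/-- `(e - e') + R ^ n u ∈ U`. -/
theorem UU_cons {n : ℕ} {e e' u : L} (he : e ∈ En R E n) (he' : e' ∈ En R E n)
    (hu : u ∈ UU R E) : e - e' + (R ^ n) u ∈ UU R E := by
  obtain ⟨k, a, ha, b, hb, rfl⟩ := hu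
  refine ⟨n + k, _, En_add n k he ha, _, En_add n k he' hb, ?_⟩
  rw [map_sub]
  abel

theorem pow_mem_UU (h0 : (0 : L) ∈ E) (n : ℕ) {u : L} (hu : u ∈ UU R E) : (R ^ n) u ∈ UU R E := by
  have := UU_cons (zero_mem_En h0 n) (zero_mem_En h0 n) hu
  simpa using this

theorem E_subset_UU (h0 : (0 : L) ∈ E) {e : L} (he : e ∈ E) : e ∈ UU R E :=
  ⟨1, e, (mem_En_one e).2 he, 0, zero_mem_En h0 1, by simp⟩

/-- Pull back of a difference in `U` along `n` common moves. -/
theorem pullback {n : ℕ} {x y z x' y' : L} (hx : Mv R E n (x + z) x') (hy : Mv R E n (y + z) y')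
    (h : x' - y' ∈ UU R E) : x - y ∈ UU R E := by
  obtain ⟨a, ha, hxa⟩ := hx
  obtain ⟨b, hb, hyb⟩ := hy
  have := UU_cons ha hb h
  have e : x - y = a - b + (R ^ n) (x' - y') := by
    have : x - y = (x + z) - (y + z) := by abel
    rw [this, hxa, hyb, map_sub]
    abel
  rw [e]
  exact this

/-- Two points with difference in `U` can be merged in `0` by a common translation. -/
theorem merge (h0 : (0 : L) ∈ E) {x y : L} (h : x - y ∈ UU R E) :
    ∃ n₀, ∀ n ≥ n₀, ∃ z, Mv R E n (x + z) 0 ∧ Mv R E n (y + z) 0 := by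
  obtain ⟨n₀, hn⟩ := UU_level h0 h
  refine ⟨n₀, fun n hn' => ?_⟩
  obtain ⟨e, he, e', he', hxy⟩ := hn n hn'
  refine ⟨e - x, Mv_zero_iff.2 ?_, Mv_zero_iff.2 ?_⟩
  · rw [show x + (e - x) = e by abel]; exact he
  · rw [show y + (e - x) = e - (x - y) by abel, hxy, show e - (e - e') = e' by abel]
    exact he'

end Pool.Agent.helper62.TS
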