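import Pool.Agent.helper62.TS.Basic

/-!
# Cliques and the mixing lemma (T-strong open set condition, algebraic core, part 2)
-/

set_option autoImplicit false

namespace Pool.Agent.helper62.TS

variable {L : Type*} [AddCommGroup L] (R : Module.End ℤ L) (E : Set L)

/-- A labelled clique: no difference lies in `U`. -/
def LC {ι : Type*} (f : ι → L) : Prop := ∀ i j, i ≠ j → f i - f j ∉ UU R E

/-- Evolution of a family: common translation by `z`, then `n` individual moves. -/
def Ev {ι : Type*} (n : ℕ) (z : L) (f g : ι → L) : Prop := ∀ i, Mv R E n (f i + z) (g i)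

/-- `K` absorbs all moves. -/
def Absorb (K : Set L) : Prop := K.Finite ∧ ∀ x, ∃ n₀, ∀ n ≥ n₀, ∀ y, Mv R E n x y → y ∈ K

/-- `r` is the maximal size of a clique. -/
def IsRank (r : ℕ) : Prop :=
  (∃ f : Fin r → L, LC R E f) ∧ ∀ k, (∃ f : Fin k → L, LC R E f) → k ≤ r

variable {R E}

theorem Ev_LC {ι : Type*} {n : ℕ} {z : L} {f g : ι → L} (h : Ev R E n z f g) (hf : LC R E f) :
    LC R E g := fun i j hij hu => hf i j hij (pullback (h i) (h j) hu)

theorem Ev_trans {ι : Type*} {n k : ℕ} {z z' : L} {f g h : ι → L} (h1 : Ev R E n z f g)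
    (h2 : Ev R E k z' g h) : Ev R E (n + k) (z + (R ^ n) z') f h := by
  intro i
  have := Mv_trans (Mv_add (h1 i) z') (h2 i)
  rwa [add_assoc] at this

theorem exists_Ev {ι : Type*} (hcov : ∀ x : L, ∃ e ∈ E, ∃ y, x = e + R y) (n : ℕ) (z : L)
    (f : ι → L) : ∃ g, Ev R E n z f g :=
  ⟨fun i => (exists_Mv hcov n (f i + z)).choose, fun i => (exists_Mv hcov n (f i + z)).choose_spec⟩

theorem Ev_update {ι : Type*} [DecidableEq ι] {n : ℕ} {z : L} {f g : ι → L}
    (h : Ev R E n z f g) (i : ι) {y : L} (hy : Mv R E n (f i + z) y) :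
    Ev R E n z f (Function.update g i y) := by
  intro j
  by_cases hj : j = i
  · subst hj
    rw [Function.update_self]
    exact hy
  · rw [Function.update_of_ne hj]
    exact h j

theorem LC_injective {ι : Type*} {f : ι → L} (hf : LC R E f) : Function.Injective f := by
  intro i j hij
  by_contra hne
  apply hf i j hne
  rw [hij, sub_self]
  exact zero_mem_UU

theorem LC_card_le (hcov : ∀ x : L, ∃ e ∈ E, ∃ y, x = e + R y) {K : Set L} (hK : Absorb R E K)
    {k : ℕ} {f : Fin k → L} (hf : LC R E f) : k ≤ K.ncard := by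
  choose n₀ hn₀ using hK.2
  obtain ⟨g, hg⟩ := exists_Ev hcov (Finset.univ.sup fun i => n₀ (f i)) 0 f
  have hgK : ∀ i, g i ∈ K := by
    intro i
    refine hn₀ (f i) _ (Finset.le_sup (f := fun i => n₀ (f i)) (Finset.mem_univ i)) _ ?_
    simpa using hg i
  have hgi := LC_injective (Ev_LC hg hf)
  have h1 : (Set.range g).ncard ≤ K.ncard :=
    Set.ncard_le_ncard (by rintro _ ⟨i, rfl⟩; exact hgK i) hK.1
  have h2 : (Set.range g).ncard = k := by
    rw [← Set.image_univ, Set.ncard_image_of_injective _ hgi, Set.ncard_univ, Nat.card_fin]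
  omega

theorem exists_rank (hcov : ∀ x : L, ∃ e ∈ E, ∃ y, x = e + R y) {K : Set L}
    (hK : Absorb R E K) : ∃ r, IsRank R E r := by
  classical
  have hb : ∀ k, (∃ f : Fin k → L, LC R E f) → k ≤ K.ncard := by
    rintro k ⟨f, hf⟩
    exact LC_card_le hcov hK hf
  have h0 : ∃ f : Fin 0 → L, LC R E f := ⟨Fin.elim0, fun i => i.elim0⟩
  refine ⟨Nat.findGreatest (fun k => ∃ f : Fin k → L, LC R E f) K.ncard, ?_, ?_⟩
  · exact Nat.findGreatest_spec (P := fun k => ∃ f : Fin k → L, LC R E f) (Nat.zero_le _) h0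
  · intro k hk
    exact Nat.le_findGreatest (hb k hk) hk

theorem rank_max {r : ℕ} (hr : IsRank R E r) {f : Fin r → L} (hf : LC R E f) (x : L) :
    ∃ i, x - f i ∈ UU R E := by
  by_contra hno
  push Not at hno
  have h2 : ∀ i, f i - x ∉ UU R E := by
    intro i hi
    apply hno i
    have := neg_mem_UU hi
    rwa [neg_sub] at this
  have h3 : LC R E (Fin.cons x f : Fin (r + 1) → L) := by
    intro i j
    induction i using Fin.cases with
    | zero =>
      induction j using Fin.cases with
      | zero => intro h; exact absurd rfl h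
      | succ j => intro _; simpa using hno j
    | succ i =>
      induction j using Fin.cases with
      | zero => intro _; simpa using h2 i
      | succ j =>
        intro h
        simpa using hf i j (fun e => h (by rw [e]))
  have := hr.2 _ ⟨_, h3⟩
  omega

/-- The difference of the two labels is a sum of two elements of `U`. -/
def Rel {ι : Type*} (R : Module.End ℤ L) (E : Set L) (f : ι → L) (i j : ι) : Prop :=
  ∃ t ∈ UU R E, f i - f j - t ∈ UU R E

theorem Rel_of_Ev (h0 : (0 : L) ∈ E) {ι : Type*} {n : ℕ} {z : L} {f g : ι → L}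
    (h : Ev R E n z f g) {i j : ι} (hg : Rel R E g i j) : Rel R E f i j := by
  obtain ⟨t, ht, hu⟩ := hg
  refine ⟨(R ^ n) t, pow_mem_UU h0 n ht, ?_⟩
  have h1 : Mv R E n (f i - (R ^ n) t + z) (g i - t) := by
    have := Mv_sub (h i) t
    rwa [show f i + z - (R ^ n) t = f i - (R ^ n) t + z by abel] at this
  have h2 := pullback h1 (h j) (by rwa [show g i - t - g j = g i - g j - t by abel])
  rwa [show f i - (R ^ n) t - f j = f i - f j - (R ^ n) t by abel] at h2

theorem Rel_refl {ι : Type*} (f : ι → L) (i : ι) : Rel R E f i i :=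
  ⟨0, zero_mem_UU, by simpa using zero_mem_UU⟩

theorem Rel_symm {ι : Type*} {f : ι → L} {i j : ι} (h : Rel R E f i j) : Rel R E f j i := by
  obtain ⟨t, ht, hu⟩ := h
  refine ⟨-t, neg_mem_UU ht, ?_⟩
  have := neg_mem_UU hu
  rwa [show -(f i - f j - t) = f j - f i - -t by abel] at this

/-- Transitivity for a family whose relation does not grow under evolution. -/
theorem Rel_trans (h0 : (0 : L) ∈ E) (hcov : ∀ x : L, ∃ e ∈ E, ∃ y, x = e + R y)
    {ι : Type*} {g : ι → L}
    (hconst : ∀ n z h, Ev R E n z g h → ∀ i j, Rel R E g i j → Rel R E h i j)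
    {i j k : ι} (hij : Rel R E g i j) (hjk : Rel R E g j k) : Rel R E g i k := by
  classical
  obtain ⟨t, ht, hu⟩ := hij
  obtain ⟨n₁, hn₁⟩ := merge h0 (x := g i - t) (y := g j)
    (by rwa [show g i - t - g j = g i - g j - t by abel])
  obtain ⟨n₂, hn₂⟩ := UU_level h0 ht
  set n := max n₁ n₂ with hn
  obtain ⟨z, hz1, hz2⟩ := hn₁ n (le_max_left _ _)
  obtain ⟨e, he, e', he', hte⟩ := hn₂ n (le_max_right _ _)
  obtain ⟨h', hh'⟩ := exists_Ev hcov n z g
  set h := Function.update h' j 0 with hh
  have hgh : Ev R E n z g h := Ev_update hh' j hz2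
  obtain ⟨t', ht', hu'⟩ := hconst n z h hgh j k hjk
  have hj0 : h j = 0 := Function.update_self j 0 h'
  refine ⟨t + (R ^ n) t', ?_, ?_⟩
  · rw [hte]
    exact UU_cons he he' ht'
  · have h1 : Mv R E n (g i - t - (R ^ n) t' + z) (0 - t') := by
      have := Mv_sub hz1 t'
      rwa [show g i - t + z - (R ^ n) t' = g i - t - (R ^ n) t' + z by abel] at this
    have h2 := pullback h1 (hgh k) (by rwa [← hj0, show h j - t' - h k = h j - h k - t' by abel])
    rwa [show g i - t - (R ^ n) t' - g k = g i - g k - (t + (R ^ n) t') by abel] at h2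

/-- In a maximal clique all differences are sums of two elements of `U`. -/
theorem rel_all (h0 : (0 : L) ∈ E) (hcov : ∀ x : L, ∃ e ∈ E, ∃ y, x = e + R y)
    (hgen : AddSubgroup.closure (UU R E) = ⊤) {r : ℕ} (hr : IsRank R E r)
    {f : Fin r → L} (hf : LC R E f) (i j : Fin r) : Rel R E f i j := by
  classical
  -- a family with the largest relation complement
  obtain ⟨g, ⟨n₁, z₁, hfg⟩, hmin⟩ : ∃ g, (∃ n z, Ev R E n z f g) ∧
      ∀ h, (∃ n z, Ev R E n z f h) →
        {p : Fin r × Fin r | Rel R E g p.1 p.2}.ncard ≤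
          {p : Fin r × Fin r | Rel R E h p.1 p.2}.ncard := by
    have hne : {g : Fin r → L | ∃ n z, Ev R E n z f g}.Nonempty :=
      ⟨f, 0, 0, fun i => by simpa using Mv_zero (R := R) (E := E) (f i)⟩
    obtain ⟨g, hg, hmin⟩ := (measure fun g : Fin r → L =>
      {p : Fin r × Fin r | Rel R E g p.1 p.2}.ncard).wf.has_min _ hne
    exact ⟨g, hg, fun h hh => not_lt.1 (hmin h hh)⟩
  have hgLC : LC R E g := Ev_LC hfg hf
  -- the relation is constant under evolution
  have hconst : ∀ n z h, Ev R E n z g h → ∀ i j, (Rel R E g i j ↔ Rel R E h i j) := by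
    intro n z h hgh i j
    have hsub : {p : Fin r × Fin r | Rel R E h p.1 p.2} ⊆
        {p : Fin r × Fin r | Rel R E g p.1 p.2} := fun p hp => Rel_of_Ev h0 hgh hp
    have heq := Set.eq_of_subset_of_ncard_le hsub (hmin h ⟨_, _, Ev_trans hfg hgh⟩)
      (Set.toFinite _)
    have := Set.ext_iff.1 heq (i, j)
    exact this.symm
  have htrans : ∀ i j k, Rel R E g i j → Rel R E g j k → Rel R E g i k := fun i j k =>
    Rel_trans h0 hcov (fun n z h hgh i j hij => (hconst n z h hgh i j).1 hij)
  have hSt : ∀ y ∈ AddSubgroup.closure (UU R E), ∀ n z h, Ev R E n z g h → ∀ i j,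
      h i - h j - y ∈ UU R E → Rel R E g i j := by
    intro y hy
    induction hy using AddSubgroup.closure_induction with
    | mem u hu =>
      intro n z h hgh i j hij
      exact (hconst n z h hgh i j).2 ⟨u, hu, hij⟩
    | zero =>
      intro n z h hgh i j hij
      exact (hconst n z h hgh i j).2 ⟨0, zero_mem_UU, hij⟩
    | neg y _ ih =>
      intro n z h hgh i j hij
      have := neg_mem_UU hij
      rw [show -(h i - h j - -y) = h j - h i - y by abel] at this
      exact Rel_symm (ih n z h hgh j i this)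
    | add y u _ _ ihy ihu =>
      intro n z h hgh i j hij
      obtain ⟨m, hm⟩ := merge h0 (x := h i - y - u) (y := h j)
        (by rwa [show h i - y - u - h j = h i - h j - (y + u) by abel])
      obtain ⟨z', hz1, hz2⟩ := hm m le_rfl
      have hX : LC R E fun l => h l - y := by
        intro a b hab hu
        apply Ev_LC hgh hgLC a b hab
        rwa [show h a - y - (h b - y) = h a - h b by abel] at hu
      obtain ⟨X', hX'⟩ := exists_Ev hcov m z' fun l => h l - y
      obtain ⟨k, hk⟩ := rank_max hr (Ev_LC hX' hX) 0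
      have h1 := pullback hz2 (hX' k) hk
      have h2 := pullback hz1 (hX' k) hk
      have h3 : Rel R E g k j := by
        apply ihy n z h hgh k j
        have := neg_mem_UU h1
        rwa [show -(h j - (h k - y)) = h k - h j - y by abel] at this
      have h4 : Rel R E g i k := by
        apply ihu n z h hgh i k
        rwa [show h i - y - u - (h k - y) = h i - h k - u by abel] at h2
      exact htrans i k j h4 h3
  have hg : Rel R E g i j := by
    refine hSt (g i - g j) (by rw [hgen]; exact AddSubgroup.mem_top _) 0 0 g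
      (fun i => by simpa using Mv_zero (R := R) (E := E) (g i)) i j ?_
    rw [sub_self]
    exact zero_mem_UU
  exact Rel_of_Ev h0 hfg hg

end Pool.Agent.helper62.TS
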