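import Pool.Agent.helper62.TS.Exit

/-!
# The algebraic core of the T-strong open set condition (part 6)
-/

set_option autoImplicit false

namespace Pool.Agent.helper62.TS

variable {L : Type*} [AddCommGroup L] {R : Module.End ℤ L}

theorem mk_eq_iff (x d : L) : (LinearMap.range R).mkQ x = (LinearMap.range R).mkQ d ↔
    ∃ y, x = d + R y := by
  rw [Submodule.mkQ_apply, Submodule.mkQ_apply, Submodule.Quotient.eq]
  constructor
  · rintro ⟨y, hy⟩
    exact ⟨y, by rw [hy]; abel⟩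
  · rintro ⟨y, rfl⟩
    exact ⟨y, by abel⟩

theorem miss_iff (D : Set L) (x : L) : Miss R D x ↔
    (LinearMap.range R).mkQ x ∉ (LinearMap.range R).mkQ '' D := by
  constructor
  · rintro h ⟨d, hd, hdx⟩
    obtain ⟨y, hy⟩ := (mk_eq_iff x d).1 hdx.symm
    exact h d hd y hy
  · intro h d hd y hy
    exact h ⟨d, hd, ((mk_eq_iff x d).2 ⟨y, hy⟩).symm⟩

/-- One digit in each class at most. -/
def Inj (R : Module.End ℤ L) (D : Set L) : Prop := ∀ d ∈ D, ∀ d' ∈ D, ∀ y, d = d' + R y → d = d'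

theorem Inj_insert {D : Set L} {c j : L} (hD : Inj R D) (hc : ∃ y, c = j + R y)
    (hj : Miss R D j) : Inj R (insert c D) := by
  obtain ⟨y₀, rfl⟩ := hc
  rintro d (rfl | hd) d' (rfl | hd') y h
  · rfl
  · exfalso
    refine hj d' hd' (y - y₀) ?_
    rw [map_sub, show d' + (R y - R y₀) = (d' + R y) - R y₀ by abel, ← h]
    abel
  · exfalso
    refine hj d hd (-y₀ - y) ?_
    rw [map_sub, map_neg, h]
    abel
  · exact hD d hd d' hd' y h

/-- All the missing classes but one can be filled. -/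
theorem fill_classes [Finite (L ⧸ LinearMap.range R)]
    (hfin : ∀ E : Set L, E.Finite → ∃ K, Absorb R E K) {B : Set L} (hBf : B.Finite)
    (hB0 : (0 : L) ∈ B) (hB : ∃ b ∈ B, ∃ b' ∈ B, ∀ y, b ≠ b' + R y) (k : ℕ) :
    ∀ D : Set L, D.Finite → B ⊆ D → Inj R D → PD R D B →
      ((LinearMap.range R).mkQ '' D)ᶜ.ncard = k + 1 →
      ∃ D' : Set L, D'.Finite ∧ D ⊆ D' ∧ Inj R D' ∧ PD R D' B ∧
        ((LinearMap.range R).mkQ '' D')ᶜ.ncard = 1 := by
  induction k with
  | zero =>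
    intro D hDf hBD hDi hP hcard
    exact ⟨D, hDf, subset_rfl, hDi, hP, hcard⟩
  | succ k ih =>
    intro D hDf hBD hDi hP hcard
    obtain ⟨q, hq, q', hq', hqq⟩ := (Set.one_lt_ncard (Set.toFinite _)).1
      (show 1 < ((LinearMap.range R).mkQ '' D)ᶜ.ncard by omega)
    obtain ⟨i, rfl⟩ := Submodule.mkQ_surjective _ q
    obtain ⟨j, rfl⟩ := Submodule.mkQ_surjective _ q'
    have hi : Miss R D i := (miss_iff D i).2 hq
    have hj : Miss R D j := (miss_iff D j).2 hq'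
    have hij : ∀ y, i ≠ j + R y := fun y hy => hqq ((mk_eq_iff i j).2 ⟨y, hy⟩)
    obtain ⟨K, hK⟩ := hfin _ (dig_finite hDf hBf)
    obtain ⟨c, hc, hPc⟩ := fill_class hB0 hB hi hij hK hP
    have hcj : (LinearMap.range R).mkQ c = (LinearMap.range R).mkQ j := (mk_eq_iff c j).2 hc
    have hcard' : ((LinearMap.range R).mkQ '' (insert c D))ᶜ.ncard = k + 1 := by
      rw [Set.image_insert_eq, hcj]
      have : (insert ((LinearMap.range R).mkQ j) ((LinearMap.range R).mkQ '' D))ᶜ =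
          ((LinearMap.range R).mkQ '' D)ᶜ \ {(LinearMap.range R).mkQ j} := by
        ext x
        simp only [Set.mem_compl_iff, Set.mem_insert_iff, Set.mem_sdiff, Set.mem_singleton_iff]
        tauto
      rw [this, Set.ncard_sdiff_singleton_of_mem hq', hcard]
      omega
    obtain ⟨D', h1, h2, h3, h4, h5⟩ := ih (insert c D) (hDf.insert c)
      (hBD.trans (Set.subset_insert _ _)) (Inj_insert hDi hc hj) hPc hcard'
    exact ⟨D', h1, (Set.subset_insert _ _).trans h2, h3, h4, h5⟩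

/-! ### Restriction to a submodule -/

section Sub

variable {p : Submodule ℤ L} (hp : ∀ x, x ∈ p → R x ∈ p)

theorem restrict_pow_coe (n : ℕ) (x : p) :
    (((R.restrict hp) ^ n) x : L) = (R ^ n) (x : L) := by
  induction n generalizing x with
  | zero => simp
  | succ n ih =>
    rw [pow_succ_apply, pow_succ_apply, ih]
    rfl

theorem mem_En_restrict (E : Set L) (n : ℕ) (x : p) :
    x ∈ En (R.restrict hp) (((↑) : p → L) ⁻¹' E) n → (x : L) ∈ En R E n := by
  induction n generalizing x with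
  | zero =>
    intro h
    rw [mem_En_zero] at h ⊢
    rw [h]; rfl
  | succ n ih =>
    rintro ⟨e, he, y, hy, rfl⟩
    exact ⟨e, he, y, ih y hy, rfl⟩

theorem En_restrict {E : Set L} (hE : E ⊆ p) (n : ℕ) (x : L) (hx : x ∈ En R E n) :
    ∃ h : x ∈ p, (⟨x, h⟩ : p) ∈ En (R.restrict hp) (((↑) : p → L) ⁻¹' E) n := by
  induction n generalizing x with
  | zero =>
    rw [mem_En_zero] at hx
    subst hx
    exact ⟨p.zero_mem, rfl⟩
  | succ n ih =>
    obtain ⟨e, he, y, hy, rfl⟩ := hx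
    obtain ⟨h, hy'⟩ := ih y hy
    exact ⟨p.add_mem (hE he) (hp y h), ⟨e, hE he⟩, he, ⟨y, h⟩, hy', rfl⟩

theorem Mv_of_restrict {E : Set L} {n : ℕ} {x y : p}
    (h : Mv (R.restrict hp) (((↑) : p → L) ⁻¹' E) n x y) : Mv R E n (x : L) y := by
  obtain ⟨e, he, rfl⟩ := h
  exact ⟨e, mem_En_restrict hp E n e he, by rw [← restrict_pow_coe hp]; rfl⟩

theorem pow_mem_iff (hp' : ∀ x, R x ∈ p → x ∈ p) (n : ℕ) (x : L) (h : (R ^ n) x ∈ p) : x ∈ p := by
  induction n with
  | zero => simpa using h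
  | succ n ih =>
    rw [pow_succ_apply'] at h
    exact ih (hp' _ h)

theorem Mv_restrict (hp' : ∀ x, R x ∈ p → x ∈ p) {E : Set L} (hE : E ⊆ p) {n : ℕ} {x y : L}
    (hx : x ∈ p) (h : Mv R E n x y) :
    ∃ hy : y ∈ p, Mv (R.restrict hp) (((↑) : p → L) ⁻¹' E) n ⟨x, hx⟩ ⟨y, hy⟩ := by
  obtain ⟨e, he, rfl⟩ := h
  obtain ⟨hep, he'⟩ := En_restrict hp hE n e he
  have hy : y ∈ p := by
    refine pow_mem_iff hp' n y ?_
    have := p.sub_mem hx hep
    rwa [add_sub_cancel_left] at this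
  refine ⟨hy, ⟨e, hep⟩, he', ?_⟩
  apply Subtype.ext
  rw [Submodule.coe_add, restrict_pow_coe]

theorem dig_restrict {D B : Set L} (hD : D ⊆ p) (hB : B ⊆ p) :
    (((↑) : p → L) ⁻¹' (dig D B)) = dig (((↑) : p → L) ⁻¹' D) (((↑) : p → L) ⁻¹' B) := by
  ext x
  constructor
  · rintro ⟨d, hd, b, hb, h⟩
    exact ⟨⟨d, hD hd⟩, hd, ⟨b, hB hb⟩, hb, Subtype.ext h⟩
  · rintro ⟨d, hd, b, hb, rfl⟩
    exact ⟨d, hd, b, hb, rfl⟩

end Sub

end Pool.Agent.helper62.TS
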