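import Pool.Agent.helper62.TS.Last

/-!
# Filling the missing classes but one (algebraic core, part 5)
-/

set_option autoImplicit false

namespace Pool.Agent.helper62.TS

variable {L : Type*} [AddCommGroup L] (R : Module.End ℤ L)

/-- `x` lies in a class modulo `R` which contains no element of `D`. -/
def Miss (D : Set L) (x : L) : Prop := ∀ d ∈ D, ∀ y, x ≠ d + R y

/-- The condition `P(D)`. -/
def PD (D B : Set L) : Prop := ∀ x : L, x ≠ 0 → x ∈ EU R (dig D B) ∨
  ∃ n s, Mv R (dig D B) n x s ∧ ∃ b ∈ B, Miss R D (s + b)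

/-- From `x` one reaches an exit in a class different from the class of `j`. -/
def Exi (D B : Set L) (j x : L) : Prop :=
  ∃ n s, Mv R (dig D B) n x s ∧ ∃ b ∈ B, Miss R D (s + b) ∧ ∀ y, s + b ≠ j + R y

variable {R}

theorem Miss_add {D : Set L} {x : L} (h : Miss R D x) (w : L) : Miss R D (x + R w) := by
  intro d hd y hy
  refine h d hd (y - w) ?_
  rw [map_sub, show d + (R y - R w) = (d + R y) - R w by abel, ← hy]
  abel

theorem Miss_insert {D : Set L} {x j c : L} (hc : ∃ y, c = j + R y) (h : Miss R D x)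
    (hj : ∀ y, x ≠ j + R y) : Miss R (insert c D) x := by
  obtain ⟨y₀, rfl⟩ := hc
  rintro d (rfl | hd) y hy
  · refine hj (y₀ + y) ?_
    rw [hy, map_add]
    abel
  · exact h d hd y hy

theorem Exi_of_Mv {D B : Set L} {j x y : L} {n : ℕ} (h : Mv R (dig D B) n x y)
    (hy : Exi R D B j y) : Exi R D B j x := by
  obtain ⟨k, s, hs, b, hb, hm, hj⟩ := hy
  exact ⟨n + k, s, Mv_trans h hs, b, hb, hm, hj⟩

/-- A direct exit remains after adding `R w`. -/
theorem Exi_add {D B : Set L} {j x b : L} (hb : b ∈ B) (hm : Miss R D (x + b))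
    (hj : ∀ y, x + b ≠ j + R y) (w : L) : Exi R D B j (x + R w) := by
  refine ⟨0, x + R w, Mv_zero _, b, hb, ?_, ?_⟩
  · rw [show x + R w + b = x + b + R w by abel]
    exact Miss_add hm w
  · intro y hy
    refine hj (y - w) ?_
    rw [map_sub, show j + (R y - R w) = (j + R y) - R w by abel, ← hy]
    abel

theorem exi_or_move {D B : Set L} (j : L) (hB : ∃ b ∈ B, ∃ b' ∈ B, ∀ y, b ≠ b' + R y) (x : L) :
    (∃ b ∈ B, Miss R D (x + b) ∧ ∀ y, x + b ≠ j + R y) ∨ ∃ y, ∃ e ∈ dig D B, x = e + R y := by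
  obtain ⟨b, hb, b', hb', hbb⟩ := hB
  obtain ⟨b₁, hb₁, h₁⟩ : ∃ b₁ ∈ B, ∀ y, x + b₁ ≠ j + R y := by
    by_contra hno
    push Not at hno
    obtain ⟨y, hy⟩ := hno b hb
    obtain ⟨y', hy'⟩ := hno b' hb'
    refine hbb (y - y') ?_
    rw [map_sub]
    have e1 : b = j + R y - x := by rw [← hy]; abel
    have e2 : b' = j + R y' - x := by rw [← hy']; abel
    rw [e1, e2]
    abel
  by_cases hm : Miss R D (x + b₁)
  · exact Or.inl ⟨b₁, hb₁, hm, h₁⟩
  · unfold Miss at hm
    push Not at hm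
    obtain ⟨d, hd, y, hy⟩ := hm
    refine Or.inr ⟨y, d - b₁, ⟨d, hd, b₁, hb₁, rfl⟩, ?_⟩
    have : x = x + b₁ - b₁ := by abel
    rw [this, hy]
    abel

/-- The trivial game. -/
theorem exit_game {D B : Set L} {i j : L} (hB0 : (0 : L) ∈ B)
    (hB : ∃ b ∈ B, ∃ b' ∈ B, ∀ y, b ≠ b' + R y) (hi : Miss R D i) (hij : ∀ y, i ≠ j + R y)
    (N : ℕ) : ∀ A : Finset L, A.card ≤ N → ∃ w, ∀ a ∈ A, Exi R D B j (a - w) := by
  classical
  induction N with
  | zero =>
    intro A hA
    rw [Nat.le_zero, Finset.card_eq_zero] at hA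
    exact ⟨0, by simp [hA]⟩
  | succ N ih =>
    intro A hA
    rcases A.eq_empty_or_nonempty with rfl | ⟨a, ha⟩
    · exact ⟨0, by simp⟩
    set z := i - a with hz
    have hg : ∀ x, ∃ y, (¬ ∃ b ∈ B, Miss R D (x + z + b) ∧ ∀ y, x + z + b ≠ j + R y) →
        ∃ e ∈ dig D B, x + z = e + R y := by
      intro x
      rcases exi_or_move (D := D) j hB (x + z) with h | ⟨y, hy⟩
      · exact ⟨0, fun h' => absurd h h'⟩
      · exact ⟨y, fun _ => hy⟩
    choose g hg using hg
    have hcard : ((A.erase a).image g).card ≤ N := by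
      refine le_trans Finset.card_image_le ?_
      rw [Finset.card_erase_of_mem ha]
      omega
    obtain ⟨w', hw'⟩ := ih _ hcard
    refine ⟨-z + R w', fun x hx => ?_⟩
    by_cases hex : ∃ b ∈ B, Miss R D (x + z + b) ∧ ∀ y, x + z + b ≠ j + R y
    · obtain ⟨b, hb, hm, hj⟩ := hex
      have := Exi_add hb hm hj (-w')
      rwa [map_neg, show x + z + -R w' = x - (-z + R w') by abel] at this
    · have hxa : x ≠ a := by
        rintro rfl
        refine hex ⟨0, hB0, ?_, ?_⟩
        · rw [hz, show x + (i - x) + 0 = i by abel]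
          exact hi
        · rw [hz, show x + (i - x) + 0 = i by abel]
          exact hij
      obtain ⟨e, he, hxy⟩ := hg x hex
      have h1 : Mv R (dig D B) 1 (x + z) (g x) := Mv_one he hxy
      have h2 := Mv_sub h1 w'
      rw [pow_one, show x + z - R w' = x - (-z + R w') by abel] at h2
      exact Exi_of_Mv h2 (hw' _ (Finset.mem_image_of_mem g (Finset.mem_erase.2 ⟨hxa, hx⟩)))

/-- Either an exit is met during the next `n` moves, or `n` moves are possible. -/
theorem exi_or_moves {D B : Set L} (j : L) (hB : ∃ b ∈ B, ∃ b' ∈ B, ∀ y, b ≠ b' + R y) (n : ℕ)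
    (x : L) : (∀ w, Exi R D B j (x - (R ^ n) w)) ∨ ∃ y, Mv R (dig D B) n x y := by
  induction n generalizing x with
  | zero => exact Or.inr ⟨x, Mv_zero x⟩
  | succ n ih =>
    rcases exi_or_move (D := D) j hB x with ⟨b, hb, hm, hj⟩ | ⟨y, e, he, hxy⟩
    · left
      intro w
      have := Exi_add hb hm hj (-(R ^ n) w)
      rwa [map_neg, ← sub_eq_add_neg, ← pow_succ_apply'] at this
    · have h1 : Mv R (dig D B) 1 x y := Mv_one he hxy
      rcases ih y with h | ⟨z, hz⟩
      · left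
        intro w
        have h2 := Mv_sub h1 ((R ^ n) w)
        rw [pow_one, ← pow_succ_apply'] at h2
        exact Exi_of_Mv h2 (h w)
      · right
        refine ⟨z, ?_⟩
        rw [add_comm n 1]
        exact Mv_trans h1 hz

theorem Exi_PD {D B : Set L} {j c x : L} (hc : ∃ y, c = j + R y) (h : Exi R D B j x) :
    ∃ n s, Mv R (dig (insert c D) B) n x s ∧ ∃ b ∈ B, Miss R (insert c D) (s + b) := by
  obtain ⟨n, s, hs, b, hb, hm, hj⟩ := h
  exact ⟨n, s, Mv_subset (dig_mono (Set.subset_insert _ _)) hs, b, hb, Miss_insert hc hm hj⟩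

/-- One of at least two missing classes can be filled. -/
theorem fill_class {D B K : Set L} {i j : L} (hB0 : (0 : L) ∈ B)
    (hB : ∃ b ∈ B, ∃ b' ∈ B, ∀ y, b ≠ b' + R y) (hi : Miss R D i) (hij : ∀ y, i ≠ j + R y)
    (hK : Absorb R (dig D B) K) (hP : PD R D B) :
    ∃ c, (∃ y, c = j + R y) ∧ PD R (insert c D) B := by
  classical
  set E := dig D B with hE
  obtain ⟨w, hw⟩ := exit_game hB0 hB hi hij _ hK.1.toFinset le_rfl
  have hwK : ∀ κ ∈ K, Exi R D B j (κ - w) := fun κ h => hw κ (hK.1.mem_toFinset.2 h)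
  have hv : ∀ t ∈ K, t ≠ 0 → t ∉ EU R E → ¬ Exi R D B j t → ∃ v, ∃ k s, Mv R E k t s ∧ ∃ b ∈ B,
      s + b = j + R v := by
    intro t _ ht0 htE htX
    rcases hP t ht0 with h | ⟨k, s, hks, b, hb, hm⟩
    · exact absurd h htE
    · by_cases hj : ∃ v, s + b = j + R v
      · obtain ⟨v, hv⟩ := hj
        exact ⟨v, k, s, hks, b, hb, hv⟩
      · push Not at hj
        exact absurd ⟨k, s, hks, b, hb, hm, hj⟩ htX
  choose! v hv using hv
  choose n₀ hn₀ using hK.2
  set N := hK.1.toFinset.sup fun t => n₀ (v t) with hN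
  set c := j + (R ^ (N + 1)) w with hc
  have hcj : ∃ y, c = j + R y := ⟨(R ^ N) w, by rw [hc, pow_succ_apply']⟩
  have hEE : E ⊆ dig (insert c D) B := dig_mono (Set.subset_insert _ _)
  -- points of `K`
  have hKK : ∀ t ∈ K, t ∈ EU R (dig (insert c D) B) ∨
      ∃ n s, Mv R (dig (insert c D) B) n t s ∧ ∃ b ∈ B, Miss R (insert c D) (s + b) := by
    intro t htK
    by_cases ht0 : t = 0
    · exact Or.inl ⟨0, by rw [mem_En_zero]; exact ht0⟩
    by_cases htE : t ∈ EU R E
    · obtain ⟨k, hk⟩ := htE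
      exact Or.inl ⟨k, En_subset hEE k hk⟩
    by_cases htX : Exi R D B j t
    · exact Or.inr (Exi_PD hcj htX)
    obtain ⟨k, s, hks, b, hb, hsb⟩ := hv t htK ht0 htE htX
    have h1 : Mv R (dig (insert c D) B) 1 s (v t - (R ^ N) w) := by
      refine Mv_one ⟨c, Set.mem_insert _ _, b, hb, rfl⟩ ?_
      rw [map_sub, ← pow_succ_apply', hc]
      have : s = s + b - b := by abel
      rw [this, hsb]
      abel
    have h3 : Exi R D B j (v t - (R ^ N) w) := by
      rcases exi_or_moves (D := D) j hB N (v t) with h | ⟨κ, hκv⟩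
      · exact h w
      · have hκK : κ ∈ K := by
          refine hn₀ (v t) N ?_ κ hκv
          exact Finset.le_sup (f := fun t => n₀ (v t)) (hK.1.mem_toFinset.2 htK)
        exact Exi_of_Mv (Mv_sub hκv w) (hwK κ hκK)
    obtain ⟨n', s', hs', hb'⟩ := Exi_PD hcj h3
    exact Or.inr ⟨_, s', Mv_trans (Mv_subset hEE hks) (Mv_trans h1 hs'), hb'⟩
  refine ⟨c, hcj, fun x _ => ?_⟩
  rcases exi_or_moves (D := D) j hB (n₀ x) x with h | ⟨κ, hκx⟩
  · have := h 0
    rw [map_zero, sub_zero] at this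
    exact Or.inr (Exi_PD hcj this)
  · have hκK : κ ∈ K := hn₀ x _ le_rfl κ hκx
    rcases hKK κ hκK with h | ⟨n', s', hs', hb'⟩
    · exact Or.inl (EU_of_Mv (Mv_subset hEE hκx) h)
    · exact Or.inr ⟨_, s', Mv_trans (Mv_subset hEE hκx) hs', hb'⟩

end Pool.Agent.helper62.TS
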