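import Pool.Agent.helper62.TS.Core

/-!
# The algebraic core of the T-strong open set condition (part 7: final statement)
-/

set_option autoImplicit false

namespace Pool.Agent.helper62.TS

variable {L : Type*} [AddCommGroup L] {R : Module.End ℤ L}

/-- The submodule generated by all `R ^ k d`. -/
def spanR (R : Module.End ℤ L) (D : Set L) : Submodule ℤ L :=
  Submodule.span ℤ {x | ∃ k, ∃ d ∈ D, x = (R ^ k) d}

theorem subset_spanR (D : Set L) : D ⊆ spanR R D := fun d hd =>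
  Submodule.subset_span ⟨0, d, hd, by simp⟩

theorem spanR_map (D : Set L) (x : L) (hx : x ∈ spanR R D) : R x ∈ spanR R D := by
  induction hx using Submodule.span_induction with
  | mem x h =>
    obtain ⟨k, d, hd, rfl⟩ := h
    exact Submodule.subset_span ⟨k + 1, d, hd, by rw [pow_succ_apply']⟩
  | zero => rw [map_zero]; exact Submodule.zero_mem _
  | add x y _ _ hx hy => rw [map_add]; exact Submodule.add_mem _ hx hy
  | smul a x _ hx => rw [map_smul]; exact Submodule.smul_mem _ a hx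

/-- Two elements are enough to reach the last class. -/
theorem spanR_surj {D B : Set L} {m : L} (hBD : B ⊆ D)
    (hB : ∃ b ∈ B, ∀ y, b ≠ R y) (hcov : ∀ x : L, (∃ y, x = m + R y) ∨ ∃ d ∈ D, ∃ y, x = d + R y)
    (x : L) : ∃ l ∈ spanR R D, ∃ y, x = l + R y := by
  have key : ∃ l ∈ spanR R D, ∃ y, m = l + R y := by
    obtain ⟨b, hb, hb0⟩ := hB
    rcases hcov (m + b) with ⟨y, hy⟩ | ⟨d, hd, y, hy⟩
    · exact absurd (by simpa using hy) (hb0 y)
    · refine ⟨d - b, Submodule.sub_mem _ (subset_spanR D hd) (subset_spanR D (hBD hb)), y, ?_⟩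
      have : m = m + b - b := by abel
      rw [this, hy]
      abel
  rcases hcov x with ⟨y, rfl⟩ | ⟨d, hd, y, rfl⟩
  · obtain ⟨l, hl, y', hy'⟩ := key
    exact ⟨l, hl, y' + y, by rw [map_add, ← add_assoc, ← hy']⟩
  · exact ⟨d, subset_spanR D hd, y, rfl⟩

/-- If one can make arbitrarily many moves within `p`, then `p` has finite index. -/
theorem finite_index {E K : Set L} {p : Submodule ℤ L} (hE : E ⊆ p)
    (hRp : ∀ x, x ∈ p → R x ∈ p) (hcov : ∀ x : L, ∃ e ∈ E, ∃ y, x = e + R y)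
    (hK : Absorb R E K) : Finite (L ⧸ p) := by
  classical
  choose n₀ hn₀ using hK.2
  have hEn : ∀ n, En R E n ⊆ p := by
    intro n
    induction n with
    | zero => rintro x hx; rw [mem_En_zero] at hx; subst hx; exact p.zero_mem
    | succ n ih =>
      rintro x ⟨e, he, y, hy, rfl⟩
      exact p.add_mem (hE he) (hRp y (ih hy))
  by_contra hinf
  rw [not_finite_iff_infinite] at hinf
  obtain ⟨s, hs⟩ := Infinite.exists_subset_card_eq (L ⧸ p) (K.ncard + 1)
  choose g hg using fun q : L ⧸ p => Submodule.mkQ_surjective p q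
  have hmv := fun q : L ⧸ p => exists_Mv hcov (s.sup fun q => n₀ (g q)) (g q)
  choose κ hκ using hmv
  have hmaps : ∀ q ∈ s, κ q ∈ hK.1.toFinset := by
    intro q hq
    rw [hK.1.mem_toFinset]
    exact hn₀ (g q) _ (Finset.le_sup (f := fun q => n₀ (g q)) hq) _ (hκ q)
  have hcard : hK.1.toFinset.card < s.card := by
    rw [hs, ← Set.ncard_eq_toFinset_card K hK.1]
    omega
  obtain ⟨q, hq, q', hq', hne, heq⟩ := Finset.exists_ne_map_eq_of_card_lt_of_maps_to hcard hmaps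
  apply hne
  rw [← hg q, ← hg q', Submodule.mkQ_apply, Submodule.mkQ_apply, Submodule.Quotient.eq]
  obtain ⟨e, he, h1⟩ := hκ q
  obtain ⟨e', he', h2⟩ := hκ q'
  have : g q - g q' = e - e' := by rw [h1, h2, heq]; abel
  rw [this]
  exact p.sub_mem (hEn _ he) (hEn _ he')

/-- If `R` is onto modulo a submodule of finite index then it is one to one modulo it. -/
theorem saturated {p : Submodule ℤ L} [Finite (L ⧸ p)] (hRp : ∀ x, x ∈ p → R x ∈ p)
    (hsurj : ∀ x : L, ∃ l ∈ p, ∃ y, x = l + R y) (x : L) (hx : R x ∈ p) : x ∈ p := by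
  have h : p ≤ p.comap R := fun x hx => hRp x hx
  have hs : Function.Surjective (p.mapQ p R h) := by
    intro q
    obtain ⟨x, rfl⟩ := Submodule.mkQ_surjective p q
    obtain ⟨l, hl, y, hy⟩ := hsurj x
    refine ⟨p.mkQ y, ?_⟩
    rw [Submodule.mkQ_apply, Submodule.mapQ_apply, Submodule.mkQ_apply, Submodule.Quotient.eq, hy]
    have : R y - (l + R y) = -l := by abel
    rw [this]
    exact p.neg_mem hl
  have hi := Finite.injective_iff_surjective.2 hs
  have h0 : (p.mapQ p R h) (p.mkQ x) = (p.mapQ p R h) 0 := by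
    rw [Submodule.mkQ_apply, Submodule.mapQ_apply, map_zero]
    exact (Submodule.Quotient.mk_eq_zero p).2 hx
  have := hi h0
  rw [Submodule.mkQ_apply] at this
  exact (Submodule.Quotient.mk_eq_zero p).1 this

/-- The algebraic core: the case of one missing class. -/
theorem one_missing {D B K : Set L} {m : L} (hB0 : (0 : L) ∈ B) (hBD : B ⊆ D)
    (hB : ∃ b ∈ B, ∀ y, b ≠ R y)
    (hcov : ∀ x : L, (∃ y, x = m + R y) ∨ ∃ d ∈ D, ∃ y, x = d + R y)
    (hK : Absorb R (dig D B) K) (hP : PD R D B) :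
    ∃ c, (∃ y, c = m + R y) ∧ c ∈ spanR R D ∧ Finite (L ⧸ spanR R D) ∧
      (∀ x, R x ∈ spanR R D → x ∈ spanR R D) ∧
      ∀ x ∈ spanR R D, x ∈ EU R (dig (insert c D) B) := by
  classical
  set p := spanR R D with hp
  have hRp : ∀ x, x ∈ p → R x ∈ p := spanR_map D
  have hDp : D ⊆ p := subset_spanR D
  have hBp : B ⊆ p := hBD.trans hDp
  have hEp : dig D B ⊆ p := by
    rintro x ⟨d, hd, b, hb, rfl⟩
    exact p.sub_mem (hDp hd) (hBp hb)
  have hsurj := spanR_surj hBD hB hcov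
  -- `E` meets all classes
  have hcovE : ∀ x : L, ∃ e ∈ dig D B, ∃ y, x = e + R y := by
    intro x
    have : ∃ b ∈ B, ∀ y, x + b ≠ m + R y := by
      by_contra hno
      push Not at hno
      obtain ⟨b, hb, hb0⟩ := hB
      obtain ⟨y, hy⟩ := hno 0 hB0
      obtain ⟨y', hy'⟩ := hno b hb
      refine hb0 (y' - y) ?_
      rw [map_sub]
      have e1 : x = m + R y := by rw [← hy]; abel
      have e2 : b = m + R y' - x := by rw [← hy']; abel
      rw [e2, e1]
      abel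
    obtain ⟨b, hb, hbm⟩ := this
    rcases hcov (x + b) with ⟨y, hy⟩ | ⟨d, hd, y, hy⟩
    · exact absurd hy (hbm y)
    · refine ⟨d - b, ⟨d, hd, b, hb, rfl⟩, y, ?_⟩
      have : x = x + b - b := by abel
      rw [this, hy]
      abel
  have hfi : Finite (L ⧸ p) := finite_index hEp hRp hcovE hK
  have hsat : ∀ x, R x ∈ p → x ∈ p := saturated hRp hsurj
  -- the restricted data
  set R' : Module.End ℤ p := R.restrict hRp with hR'
  have hR'c : ∀ y : p, ((R' y : p) : L) = R (y : L) := fun y => rfl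
  set D' : Set p := ((↑) : p → L) ⁻¹' D with hD'
  set B' : Set p := ((↑) : p → L) ⁻¹' B with hB'
  have hdig : (((↑) : p → L) ⁻¹' (dig D B)) = dig D' B' := dig_restrict hDp hBp
  obtain ⟨m', hm', y₁, hy₁⟩ := hsurj m
  have hB0' : (0 : p) ∈ B' := hB0
  have hBD' : B' ⊆ D' := fun x hx => hBD hx
  have hcov' : ∀ x : p, ∃ e ∈ dig D' B', ∃ y, x = e + R' y := by
    intro x
    obtain ⟨e, he, y, hy⟩ := hcovE (x : L)
    have hyp : y ∈ p := by
      refine hsat y ?_
      have := p.sub_mem x.2 (hEp he)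
      rwa [hy, add_sub_cancel_left] at this
    refine ⟨⟨e, hEp he⟩, ?_, ⟨y, hyp⟩, Subtype.ext hy⟩
    rw [← hdig]
    exact he
  have hgen' : AddSubgroup.closure (UU R' (dig D' B')) = ⊤ := by
    rw [eq_top_iff]
    rintro ⟨x, hx⟩ -
    have h0E : (0 : p) ∈ dig D' B' := zero_mem_dig hB0' hBD'
    refine Submodule.span_induction
      (p := fun x hx => (⟨x, hx⟩ : p) ∈ AddSubgroup.closure (UU R' (dig D' B')))
      ?_ ?_ ?_ ?_ hx
    · rintro x ⟨k, d, hd, rfl⟩
      have h1 : (⟨d, hDp hd⟩ : p) ∈ UU R' (dig D' B') :=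
        E_subset_UU h0E ⟨⟨d, hDp hd⟩, hd, 0, hB0', by simp⟩
      have h2 := pow_mem_UU h0E k h1
      refine AddSubgroup.subset_closure ?_
      convert h2 using 1
      exact Subtype.ext (restrict_pow_coe hRp k ⟨d, hDp hd⟩).symm
    · exact AddSubgroup.zero_mem _
    · intro x y hx hy h1 h2
      exact AddSubgroup.add_mem _ h1 h2
    · intro a x hx h1
      exact AddSubgroup.zsmul_mem _ h1 a
  have hK' : Absorb R' (dig D' B') (((↑) : p → L) ⁻¹' K) := by
    refine ⟨hK.1.preimage (Set.injOn_of_injective Subtype.val_injective), fun x => ?_⟩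
    obtain ⟨n₀, hn₀⟩ := hK.2 (x : L)
    refine ⟨n₀, fun n hn y hy => hn₀ n hn y ?_⟩
    rw [← hdig] at hy
    exact Mv_of_restrict hRp hy
  have hP' : ∀ x : p, x ≠ 0 → x ∈ EU R' (dig D' B') ∨
      ∃ n s, Mv R' (dig D' B') n x s ∧ ∃ b ∈ B', ∃ v, s + b = (⟨m', hm'⟩ : p) + R' v := by
    rintro ⟨x, hx⟩ hx0
    have hx0' : x ≠ 0 := fun h => hx0 (Subtype.ext h)
    rcases hP x hx0' with ⟨n, hn⟩ | ⟨n, s, hs, b, hb, hms⟩
    · left
      obtain ⟨h, hn'⟩ := En_restrict hRp hEp n x hn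
      rw [hdig] at hn'
      exact ⟨n, hn'⟩
    · right
      obtain ⟨hsp, hs'⟩ := Mv_restrict hRp hsat hEp hx hs
      rw [hdig] at hs'
      rcases hcov (s + b) with ⟨y, hy⟩ | ⟨d, hd, y, hy⟩
      · refine ⟨n, ⟨s, hsp⟩, hs', ⟨b, hBp hb⟩, hb, ?_⟩
        have hyy : R (y₁ + y) ∈ p := by
          have h1 := p.sub_mem (p.add_mem hsp (hBp hb)) hm'
          have h2 : s + b - m' = R (y₁ + y) := by rw [hy, hy₁, map_add]; abel
          rwa [h2] at h1
        refine ⟨⟨y₁ + y, hsat _ hyy⟩, Subtype.ext ?_⟩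
        change s + b = m' + R (y₁ + y)
        rw [hy, hy₁, map_add]
        abel
      · exact absurd hy (hms d hd y)
  obtain ⟨⟨c, hcp⟩, ⟨⟨y₂, hy₂p⟩, hy₂⟩, hall⟩ := last_class (R := R') (m := ⟨m', hm'⟩) hB0' hBD'
    hcov' hgen' hK' hP'
  have hy₂' : c = m' + R y₂ := congrArg Subtype.val hy₂
  refine ⟨c, ⟨y₂ - y₁, ?_⟩, hcp, hfi, hsat, fun x hx => ?_⟩
  · rw [hy₂', hy₁, map_sub]
    abel
  · obtain ⟨n, hn⟩ := hall ⟨x, hx⟩
    refine ⟨n, ?_⟩
    have hins : insert c D ⊆ p := by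
      rintro d (rfl | hd)
      · exact hcp
      · exact hDp hd
    have hd2 : (((↑) : p → L) ⁻¹' (dig (insert c D) B)) =
        dig (((↑) : p → L) ⁻¹' (insert c D)) (((↑) : p → L) ⁻¹' B) := dig_restrict hins hBp
    have hd3 : (((↑) : p → L) ⁻¹' (insert c D)) = insert (⟨c, hcp⟩ : p) D' := by
      ext ⟨y, hy⟩
      simp only [Set.mem_preimage, Set.mem_insert_iff, hD', Subtype.mk.injEq]
    rw [← hd3, ← hd2] at hn
    exact mem_En_restrict hRp _ n _ hn

/-- **The algebraic core.**  If every nonzero element of `L` is in `⋃ (B_n - B_n)` or can be moved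
to an exit, then `B` can be completed to a system `D` of representatives modulo `R` such that,
for a submodule `p` of finite index containing `D`, all elements of `p` lie in
`⋃ (D_n - B_n)`. -/
theorem core (R : Module.End ℤ L) [Finite (L ⧸ LinearMap.range R)]
    (hfin : ∀ E : Set L, E.Finite → ∃ K, Absorb R E K) {B : Set L} (hBf : B.Finite)
    (hB0 : (0 : L) ∈ B) (hBi : Inj R B) (hB2 : ∃ b ∈ B, b ≠ 0) (hBn : ∃ x, Miss R B x)
    (hP : PD R B B) :
    ∃ D : Set L, D.Finite ∧ B ⊆ D ∧ Inj R D ∧ (∀ x, ∃ d ∈ D, ∃ y, x = d + R y) ∧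
      ∃ p : Submodule ℤ L, D ⊆ p ∧ (∀ x, R x ∈ p ↔ x ∈ p) ∧ Finite (L ⧸ p) ∧
        ∀ x ∈ p, ∃ n, ∃ a ∈ En R D n, ∃ b ∈ En R B n, x = a - b := by
  classical
  obtain ⟨b₁, hb₁, hb₁0⟩ := hB2
  have hb₁R : ∀ y, b₁ ≠ R y := fun y hy => hb₁0 (hBi b₁ hb₁ 0 hB0 y (by rw [hy, zero_add]))
  have hB : ∃ b ∈ B, ∃ b' ∈ B, ∀ y, b ≠ b' + R y :=
    ⟨b₁, hb₁, 0, hB0, fun y hy => hb₁R y (by rw [hy, zero_add])⟩
  obtain ⟨x₀, hx₀⟩ := hBn
  have hpos : 0 < ((LinearMap.range R).mkQ '' B)ᶜ.ncard := by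
    rw [Set.ncard_pos (Set.toFinite _)]
    exact ⟨_, (miss_iff B x₀).1 hx₀⟩
  obtain ⟨k, hk⟩ := Nat.exists_eq_add_of_le' hpos
  obtain ⟨D, hDf, hBD, hDi, hPD, hD1⟩ := fill_classes hfin hBf hB0 hB k B hBf subset_rfl hBi hP hk
  obtain ⟨q, hq⟩ := Set.ncard_eq_one.1 hD1
  obtain ⟨m, rfl⟩ := Submodule.mkQ_surjective _ q
  have hm : Miss R D m := by
    rw [miss_iff]
    have : (LinearMap.range R).mkQ m ∈ ((LinearMap.range R).mkQ '' D)ᶜ := by
      rw [hq]; exact Set.mem_singleton _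
    exact this
  have hcov : ∀ x : L, (∃ y, x = m + R y) ∨ ∃ d ∈ D, ∃ y, x = d + R y := by
    intro x
    by_cases hx : Miss R D x
    · left
      rw [miss_iff] at hx
      have : (LinearMap.range R).mkQ x ∈ ((LinearMap.range R).mkQ '' D)ᶜ := hx
      rw [hq, Set.mem_singleton_iff] at this
      exact (mk_eq_iff x m).1 this
    · right
      unfold Miss at hx
      push Not at hx
      exact hx
  obtain ⟨K, hK⟩ := hfin _ (dig_finite hDf hBf)
  obtain ⟨c, hcm, hcp, hfi, hsat, hall⟩ := one_missing hB0 hBD ⟨b₁, hb₁, hb₁R⟩ hcov hK hPD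
  refine ⟨insert c D, hDf.insert c, hBD.trans (Set.subset_insert _ _), Inj_insert hDi hcm hm, ?_,
    spanR R D, ?_, fun x => ⟨hsat x, spanR_map D x⟩, hfi, fun x hx => ?_⟩
  · intro x
    rcases hcov x with ⟨y, hy⟩ | ⟨d, hd, y, hy⟩
    · obtain ⟨y₀, hy₀⟩ := hcm
      refine ⟨c, Set.mem_insert _ _, y - y₀, ?_⟩
      rw [hy, hy₀, map_sub]
      abel
    · exact ⟨d, Set.mem_insert_of_mem _ hd, y, hy⟩
  · rintro d (rfl | hd)
    · exact hcp
    · exact subset_spanR D hd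
  · obtain ⟨n, hn⟩ := hall x hx
    exact ⟨n, (mem_En_dig n x).1 hn⟩

end Pool.Agent.helper62.TS
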