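import Pool.Agent.helper62.TS.Clique

/-!
# The mixing lemma and the translation game (algebraic core, part 3)
-/

set_option autoImplicit false

namespace Pool.Agent.helper62.TS

variable {L : Type*} [AddCommGroup L] (R : Module.End ℤ L) (E : Set L)

/-- `y` is good for the difference `δ`, with the marked digit `c`. -/
def Good (c y δ : L) : Prop := ∃ n, ∃ a ∈ En R E n, ∃ b ∈ En R E n, ∃ p ∈ E, ∃ u ∈ UU R E,
  δ = a - b + (R ^ n) (c - p) + (R ^ (n + 1)) (y + u)

/-- `Good` with a bound for the level of `u`. -/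
def GoodL (c y : L) (m : ℕ) (δ : L) : Prop := ∃ n, ∃ a ∈ En R E n, ∃ b ∈ En R E n, ∃ p ∈ E,
  ∃ s ∈ En R E m, ∃ t ∈ En R E m, δ = a - b + (R ^ n) (c - p) + (R ^ (n + 1)) (y + (s - t))

/-- Differences of maximal cliques. -/
def DD (r : ℕ) : Set L := {δ | ∃ f : Fin r → L, LC R E f ∧ ∃ i j, i ≠ j ∧ δ = f i - f j}

variable {R E}

theorem GoodL_mono (h0 : (0 : L) ∈ E) {c y δ : L} {m m' : ℕ} (h : m ≤ m')
    (hg : GoodL R E c y m δ) : GoodL R E c y m' δ := by
  obtain ⟨n, a, ha, b, hb, p, hp, s, hs, t, ht, rfl⟩ := hg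
  exact ⟨n, a, ha, b, hb, p, hp, s, En_mono h0 h hs, t, En_mono h0 h ht, rfl⟩

theorem GoodL_of_Good {c y δ : L} (hg : Good R E c y δ) :
    ∃ m, GoodL R E c y m δ := by
  obtain ⟨n, a, ha, b, hb, p, hp, u, ⟨m, s, hs, t, ht, rfl⟩, rfl⟩ := hg
  exact ⟨m, n, a, ha, b, hb, p, hp, s, hs, t, ht, rfl⟩

theorem Good_new (h0 : (0 : L) ∈ E) {c y δ : L} {m n : ℕ} (hmn : m ≤ n)
    (hg : GoodL R E c y m δ) {t : L} (ht : t ∈ UU R E) :
    Good R E c (y + (R ^ n) t) δ := by
  obtain ⟨k, a, ha, b, hb, p, hp, s, hs, s', hs', rfl⟩ := hg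
  refine ⟨k, a, ha, b, hb, p, hp, s - s' + (R ^ n) (-t),
    UU_cons (En_mono h0 hmn hs) (En_mono h0 hmn hs') (neg_mem_UU ht), ?_⟩
  rw [map_neg]
  congr 2
  abel

theorem Good_of_Mv {c y δ δ' a b : L} {n : ℕ} (ha : a ∈ En R E n) (hb : b ∈ En R E n)
    (hδ : δ = a - b + (R ^ n) δ') (hg : Good R E c y δ') : Good R E c y δ := by
  obtain ⟨k, a', ha', b', hb', p, hp, u, hu, rfl⟩ := hg
  refine ⟨n + k, _, En_add n k ha ha', _, En_add n k hb hb', p, hp, u, hu, ?_⟩
  rw [hδ, add_assoc n k 1, pow_add_apply n k, pow_add_apply n (k + 1), map_add, map_add, map_sub]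
  abel

theorem mix_step (h0 : (0 : L) ∈ E) (hcov : ∀ x : L, ∃ e ∈ E, ∃ y, x = e + R y)
    (hgen : AddSubgroup.closure (UU R E) = ⊤) {r : ℕ} (hr : IsRank R E r) {c : L} (hc : c ∈ E)
    (y : L) (m : ℕ) {δ : L} (hδ : δ ∈ DD R E r) :
    ∃ n ≥ m, ∃ t ∈ UU R E, Good R E c (y + (R ^ n) t) δ := by
  classical
  obtain ⟨f, hf, i, j, hij, rfl⟩ := hδ
  -- one step in which `f i` uses the digit `c`
  obtain ⟨g', hg'⟩ := exists_Ev hcov 1 (c - f i) f
  have hgi : Mv R E 1 (f i + (c - f i)) 0 :=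
    Mv_one hc (by rw [map_zero, add_zero]; abel)
  set g := Function.update g' i 0 with hg
  have hfg : Ev R E 1 (c - f i) f g := Ev_update hg' i hgi
  have hgi0 : g i = 0 := Function.update_self i 0 g'
  have hgLC := Ev_LC hfg hf
  obtain ⟨p, hp, hpj⟩ := hfg j
  rw [mem_En_one] at hp
  rw [pow_one] at hpj
  -- merge `-y` with a member of the clique
  obtain ⟨k, hk⟩ := rank_max hr hgLC (-y)
  obtain ⟨n₀, hn₀⟩ := merge h0 hk
  set n := max m n₀ with hn
  obtain ⟨z, hz1, hz2⟩ := hn₀ n (le_max_right _ _)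
  obtain ⟨h', hh'⟩ := exists_Ev hcov n z g
  set h := Function.update h' k 0 with hh
  have hgh : Ev R E n z g h := Ev_update hh' k hz2
  have hhk0 : h k = 0 := Function.update_self k 0 h'
  obtain ⟨t, ht, htu⟩ := rel_all h0 hcov hgen hr (Ev_LC hgh hgLC) k j
  refine ⟨n, le_max_left _ _, t, ht, ?_⟩
  have h1 : Mv R E n (-y - (R ^ n) t + z) (0 - t) := by
    have := Mv_sub hz1 t
    rwa [show -y + z - (R ^ n) t = -y - (R ^ n) t + z by abel] at this
  have h2 := pullback h1 (hgh j) (by rwa [← hhk0, show h k - t - h j = h k - h j - t by abel])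
  refine ⟨0, 0, rfl, 0, rfl, p, hp, _, h2, ?_⟩
  have h3 : f i - f j = c - (f j + (c - f i)) := by abel
  rw [h3, hpj, pow_zero, Module.End.one_apply, zero_add, pow_one]
  have h4 : y + (R ^ n) t + (-y - (R ^ n) t - g j) = - g j := by abel
  rw [h4, map_neg]
  abel

theorem mix_finset (h0 : (0 : L) ∈ E) (hcov : ∀ x : L, ∃ e ∈ E, ∃ y, x = e + R y)
    (hgen : AddSubgroup.closure (UU R E) = ⊤) {r : ℕ} (hr : IsRank R E r) {c : L} (hc : c ∈ E)
    (T : Finset L) (hT : ∀ δ ∈ T, δ ∈ DD R E r) : ∃ y, ∀ δ ∈ T, Good R E c y δ := by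
  classical
  induction T using Finset.induction_on with
  | empty => exact ⟨0, by simp⟩
  | insert δ T hδ ih =>
    obtain ⟨y, hy⟩ := ih fun δ' h => hT δ' (Finset.mem_insert_of_mem h)
    have hm : ∃ m, ∀ δ' ∈ T, GoodL R E c y m δ' := by
      choose! m hm using fun δ' h => GoodL_of_Good (hy δ' h)
      exact ⟨T.sup m, fun δ' h => GoodL_mono h0 (Finset.le_sup h) (hm δ' h)⟩
    obtain ⟨m, hm⟩ := hm
    obtain ⟨n, hn, t, ht, hg⟩ := mix_step h0 hcov hgen hr hc y m
      (hT δ (Finset.mem_insert_self _ _))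
    refine ⟨y + (R ^ n) t, fun δ' h => ?_⟩
    rcases Finset.mem_insert.1 h with rfl | h
    · exact hg
    · exact Good_new h0 hn (hm δ' h) ht

/-- The mixing lemma. -/
theorem mix (h0 : (0 : L) ∈ E) (hcov : ∀ x : L, ∃ e ∈ E, ∃ y, x = e + R y)
    (hgen : AddSubgroup.closure (UU R E) = ⊤) {r : ℕ} (hr : IsRank R E r) {c : L} (hc : c ∈ E)
    {K : Set L} (hK : Absorb R E K) : ∃ y, ∀ δ ∈ DD R E r, Good R E c y δ := by
  classical
  have hfin : (DD R E r ∩ (Set.image2 (fun a b => a - b) K K)).Finite :=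
    (Set.Finite.image2 _ hK.1 hK.1).subset Set.inter_subset_right
  obtain ⟨y, hy⟩ := mix_finset h0 hcov hgen hr hc hfin.toFinset
    (fun δ h => ((hfin.mem_toFinset).1 h).1)
  refine ⟨y, fun δ hδ => ?_⟩
  obtain ⟨f, hf, i, j, hij, rfl⟩ := hδ
  obtain ⟨n₁, hn₁⟩ := hK.2 (f i)
  obtain ⟨n₂, hn₂⟩ := hK.2 (f j)
  obtain ⟨g, hg⟩ := exists_Ev hcov (max n₁ n₂) 0 f
  have hgi : g i ∈ K := hn₁ _ (le_max_left _ _) _ (by simpa using hg i)
  have hgj : g j ∈ K := hn₂ _ (le_max_right _ _) _ (by simpa using hg j)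
  obtain ⟨a, ha, hia⟩ := hg i
  obtain ⟨b, hb, hjb⟩ := hg j
  have hgood := hy (g i - g j) (hfin.mem_toFinset.2
    ⟨⟨g, Ev_LC hg hf, i, j, hij, rfl⟩, ⟨g i, hgi, g j, hgj, rfl⟩⟩)
  refine Good_of_Mv ha hb ?_ hgood
  rw [add_zero] at hia hjb
  rw [hia, hjb, map_sub]
  abel

/-! ### The game -/

variable (R E) in
/-- Sums of length `n` with digits in `E`, one of which may be replaced by `c`. -/
def E1 (c : L) (n : ℕ) : Set L := En R E n ∪
  {x | ∃ k l, k + 1 + l = n ∧ ∃ a ∈ En R E k, ∃ b ∈ En R E l,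
    x = a + (R ^ k) c + (R ^ (k + 1)) b}

theorem E1_of_Mv {c : L} {n m : ℕ} {x y : L} (h : Mv R E n x y) (hy : y ∈ E1 R E c m) :
    x ∈ E1 R E c (n + m) := by
  obtain ⟨a, ha, rfl⟩ := h
  rcases hy with hy | ⟨k, l, rfl, b, hb, d, hd, rfl⟩
  · exact Or.inl (En_add n m ha hy)
  · refine Or.inr ⟨n + k, l, by omega, _, En_add n k ha hb, d, hd, ?_⟩
    rw [map_add, map_add, add_assoc n k 1, pow_add_apply n k, pow_add_apply n (k + 1)]
    abel

theorem E1_mono (h0 : (0 : L) ∈ E) {c : L} {n m : ℕ} (h : n ≤ m) :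
    E1 R E c n ⊆ E1 R E c m := by
  rintro x (hx | ⟨k, l, rfl, b, hb, d, hd, rfl⟩)
  · exact Or.inl (En_mono h0 h hx)
  · exact Or.inr ⟨k, m - (k + 1), by omega, b, hb, d, En_mono h0 (by omega) hd, rfl⟩

/-- A set contained in a maximal clique. -/
theorem game_small (hcov : ∀ x : L, ∃ e ∈ E, ∃ y, x = e + R y)
    {r : ℕ} {c y : L}
    (hmix : ∀ δ ∈ DD R E r, Good R E c y δ) (N : ℕ) :
    ∀ (I : Finset (Fin r)), I.card = N → ∀ (f : Fin r → L), LC R E f → ∀ i₀ ∈ I,
      ∃ w n, f i₀ - w ∈ En R E n ∧ ∀ i ∈ I, f i - w ∈ E1 R E (c + R y) n := by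
  classical
  induction N using Nat.strong_induction_on with
  | _ N ih =>
    intro I hI f hf i₀ hi₀
    by_cases hone : ∀ i ∈ I, i = i₀
    · refine ⟨f i₀, 0, by simp [mem_En_zero], fun i hi => ?_⟩
      rw [hone i hi]
      exact Or.inl (by simp [mem_En_zero])
    · push Not at hone
      obtain ⟨i, hi, hii₀⟩ := hone
      obtain ⟨n, α, hα, β, hβ, p, hp, u, ⟨l, η, hη, η', hη', rfl⟩, hδ⟩ :=
        hmix (f i - f i₀) ⟨f, hf, i, i₀, hii₀, rfl⟩
      set s := n + 1 + l with hs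
      set z := α + (R ^ n) (c + R y) + (R ^ (n + 1)) η - f i with hz
      have hiz : f i + z = α + (R ^ n) (c + R y) + (R ^ (n + 1)) η := by rw [hz]; abel
      have hi₀z : f i₀ + z = β + (R ^ n) p + (R ^ (n + 1)) η' := by
        have h1 : f i₀ + z = (f i + z) - (f i - f i₀) := by abel
        rw [h1, hiz, hδ, map_add, map_add, map_sub, map_sub, ← pow_succ_apply]
        abel
      have hi₀E : f i₀ + z ∈ En R E s := by
        rw [hi₀z]
        have h1 := En_add n 1 hβ ((mem_En_one p).2 hp)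
        exact En_add (n + 1) l h1 hη'
      obtain ⟨g', hg'⟩ := exists_Ev hcov s z f
      set g := Function.update g' i₀ 0 with hg
      have hfg : Ev R E s z f g := Ev_update hg' i₀ (Mv_zero_iff.2 hi₀E)
      have hg0 : g i₀ = 0 := Function.update_self i₀ 0 g'
      have hcard : (I.erase i).card < N := by
        rw [← hI]
        exact Finset.card_erase_lt_of_mem hi
      obtain ⟨w', n', hw1, hw2⟩ := ih _ hcard (I.erase i) rfl g (Ev_LC hfg hf) i₀
        (Finset.mem_erase.2 ⟨Ne.symm hii₀, hi₀⟩)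
      have hkey : ∀ j, Mv R E s (f j - (-z + (R ^ s) w')) (g j - w') := by
        intro j
        have := Mv_sub (hfg j) w'
        rwa [show f j + z - (R ^ s) w' = f j - (-z + (R ^ s) w') by abel] at this
      refine ⟨-z + (R ^ s) w', s + n', ?_, ?_⟩
      · exact Mv_zero_iff.1 (Mv_trans (hkey i₀) (Mv_zero_iff.2 hw1))
      · intro j hj
        by_cases hji : j = i
        · subst hji
          right
          rw [hg0] at hw1
          refine ⟨n, l + n', by omega, α, hα, η + (R ^ l) (0 - w'), En_add l n' hη hw1, ?_⟩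
          have h1 : f j - (-z + (R ^ s) w') = (f j + z) - (R ^ s) w' := by abel
          rw [h1, hiz, hs, zero_sub, map_neg, map_add (R ^ (n + 1)), map_neg, ← pow_add_apply]
          abel
        · exact E1_of_Mv (hkey j) (hw2 j (Finset.mem_erase.2 ⟨hji, hj⟩))

/-- A set containing a maximal clique. -/
theorem game (h0 : (0 : L) ∈ E) (hcov : ∀ x : L, ∃ e ∈ E, ∃ y, x = e + R y)
    {r : ℕ} (hr : IsRank R E r) {c y : L}
    (hmix : ∀ δ ∈ DD R E r, Good R E c y δ) (N : ℕ) :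
    ∀ (A : Finset L), A.card = N → ∀ (f : Fin r → L), LC R E f → (∀ i, f i ∈ A) → ∀ p ∈ A,
      ∃ w n, p - w ∈ En R E n ∧ ∀ a ∈ A, a - w ∈ E1 R E (c + R y) n := by
  classical
  induction N using Nat.strong_induction_on with
  | _ N ih =>
    intro A hA f hf hfA p hp
    by_cases hall : ∀ a ∈ A, ∃ i, a = f i
    · obtain ⟨i₀, rfl⟩ := hall p hp
      obtain ⟨w, n, h1, h2⟩ := game_small hcov hmix _ Finset.univ rfl f hf i₀
        (Finset.mem_univ _)
      refine ⟨w, n, h1, fun a ha => ?_⟩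
      obtain ⟨i, rfl⟩ := hall a ha
      exact h2 i (Finset.mem_univ _)
    · push Not at hall
      obtain ⟨a, ha, hne⟩ := hall
      obtain ⟨k, hk⟩ := rank_max hr hf a
      obtain ⟨n, hn⟩ := merge h0 hk
      obtain ⟨z, hz1, hz2⟩ := hn n le_rfl
      obtain ⟨g', hg'⟩ := exists_Ev hcov n z (id : L → L)
      set g := Function.update (Function.update g' a 0) (f k) 0 with hg
      have hgg : Ev R E n z id g := Ev_update (Ev_update hg' a hz1) (f k) hz2
      have hga : g a = 0 := by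
        rw [hg, Function.update_of_ne (hne k), Function.update_self]
      have hgk : g (f k) = 0 := Function.update_self _ _ _
      have hcard : (A.image g).card < N := by
        rw [← hA]
        refine lt_of_le_of_ne Finset.card_image_le fun h => ?_
        have := Finset.injOn_of_card_image_eq h
        exact hne k (this ha (hfA k) (hga.trans hgk.symm))
      have hfg : Ev R E n z f (g ∘ f) := fun i => hgg (f i)
      obtain ⟨w', n', h1, h2⟩ := ih _ hcard (A.image g) rfl (g ∘ f) (Ev_LC hfg hf)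
        (fun i => Finset.mem_image_of_mem g (hfA i)) (g p) (Finset.mem_image_of_mem g hp)
      have hkey : ∀ x, Mv R E n (x - (-z + (R ^ n) w')) (g x - w') := by
        intro x
        have := Mv_sub (hgg x) w'
        rwa [show id x + z - (R ^ n) w' = x - (-z + (R ^ n) w') by simp only [id]; abel] at this
      refine ⟨-z + (R ^ n) w', n + n', ?_, fun x hx => ?_⟩
      · exact Mv_zero_iff.1 (Mv_trans (hkey p) (Mv_zero_iff.2 h1))
      · exact E1_of_Mv (hkey x) (h2 (g x) (Finset.mem_image_of_mem g hx))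

end Pool.Agent.helper62.TS
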