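import Pool.Agent.helper62.TS.Game

/-!
# Filling the last class (algebraic core, part 4)
-/

set_option autoImplicit false

namespace Pool.Agent.helper62.TS

variable {L : Type*} [AddCommGroup L] {R : Module.End ℤ L}

/-- The differences `d - b`. -/
def dig (D B : Set L) : Set L := {x | ∃ d ∈ D, ∃ b ∈ B, x = d - b}

theorem dig_mono {D D' B : Set L} (h : D ⊆ D') : dig D B ⊆ dig D' B := by
  rintro x ⟨d, hd, b, hb, rfl⟩
  exact ⟨d, h hd, b, hb, rfl⟩

theorem dig_finite {D B : Set L} (hD : D.Finite) (hB : B.Finite) : (dig D B).Finite := by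
  refine (Set.Finite.image2 (fun d b => d - b) hD hB).subset ?_
  rintro x ⟨d, hd, b, hb, rfl⟩
  exact ⟨d, hd, b, hb, rfl⟩

theorem zero_mem_dig {D B : Set L} (h0 : (0 : L) ∈ B) (h : B ⊆ D) : (0 : L) ∈ dig D B :=
  ⟨0, h h0, 0, h0, by simp⟩

theorem mem_En_dig {D B : Set L} (n : ℕ) (x : L) :
    x ∈ En R (dig D B) n ↔ ∃ a ∈ En R D n, ∃ b ∈ En R B n, x = a - b := by
  induction n generalizing x with
  | zero =>
    constructor
    · intro h
      rw [mem_En_zero] at h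
      exact ⟨0, rfl, 0, rfl, by simp [h]⟩
    · rintro ⟨a, ha, b, hb, rfl⟩
      rw [mem_En_zero] at ha hb ⊢
      simp [ha, hb]
  | succ n ih =>
    constructor
    · rintro ⟨_, ⟨d, hd, b, hb, rfl⟩, y, hy, rfl⟩
      obtain ⟨a, ha, b', hb', rfl⟩ := (ih y).1 hy
      refine ⟨d + R a, ⟨d, hd, a, ha, rfl⟩, b + R b', ⟨b, hb, b', hb', rfl⟩, ?_⟩
      rw [map_sub]
      abel
    · rintro ⟨_, ⟨d, hd, a, ha, rfl⟩, _, ⟨b, hb, b', hb', rfl⟩, rfl⟩
      refine ⟨d - b, ⟨d, hd, b, hb, rfl⟩, a - b', (ih _).2 ⟨a, ha, b', hb', rfl⟩, ?_⟩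
      rw [map_sub]
      abel

/-- The last missing class can be filled. -/
theorem last_class {D B K : Set L} {m : L} (hB0 : (0 : L) ∈ B) (hBD : B ⊆ D)
    (hcov : ∀ x : L, ∃ e ∈ dig D B, ∃ y, x = e + R y)
    (hgen : AddSubgroup.closure (UU R (dig D B)) = ⊤) (hK : Absorb R (dig D B) K)
    (hP : ∀ x : L, x ≠ 0 → x ∈ EU R (dig D B) ∨
      ∃ n s, Mv R (dig D B) n x s ∧ ∃ b ∈ B, ∃ v, s + b = m + R v) :
    ∃ c, (∃ y, c = m + R y) ∧ ∀ x, x ∈ EU R (dig (insert c D) B) := by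
  classical
  set E := dig D B with hE
  have h0 : (0 : L) ∈ E := zero_mem_dig hB0 hBD
  obtain ⟨r, hr⟩ := exists_rank hcov hK
  obtain ⟨f, hf⟩ := hr.1
  obtain ⟨e0, he0, y0, hy0⟩ := hcov m
  obtain ⟨y, hmix⟩ := mix h0 hcov hgen hr he0 hK
  obtain ⟨w, n, hw, hgame⟩ := game h0 hcov hr hmix _
    (insert 0 (hK.1.toFinset ∪ Finset.univ.image f)) rfl f hf
    (fun i => Finset.mem_insert_of_mem
      (Finset.mem_union_right _ (Finset.mem_image_of_mem f (Finset.mem_univ i)))) 0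
    (Finset.mem_insert_self _ _)
  have hgameK : ∀ κ ∈ K, κ - w ∈ E1 R E (e0 + R y) n := fun κ hκ =>
    hgame κ (Finset.mem_insert_of_mem (Finset.mem_union_left _ (hK.1.mem_toFinset.2 hκ)))
  -- the points `v` reached after an exit
  have hv : ∀ t ∈ K, t ≠ 0 → t ∉ EU R E → ∃ v, ∃ k s, Mv R E k t s ∧ ∃ b ∈ B,
      s + b = (e0 + R y) + R v := by
    intro t _ ht0 htE
    rcases hP t ht0 with h | ⟨k, s, hks, b, hb, v, hv⟩
    · exact absurd h htE
    · refine ⟨v + y0 - y, k, s, hks, b, hb, ?_⟩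
      rw [hv, hy0, map_sub, map_add]
      abel
  choose! v hv using hv
  choose n₀ hn₀ using hK.2
  set N := max n (hK.1.toFinset.sup fun t => n₀ (v t)) with hN
  set c := (e0 + R y) + (R ^ (N + 1)) w with hc
  have hcE : c ∈ dig (insert c D) B := ⟨c, Set.mem_insert _ _, 0, hB0, by simp⟩
  have hEE : E ⊆ dig (insert c D) B := dig_mono (Set.subset_insert _ _)
  -- points `κ - w`
  have hκ : ∀ κ ∈ K, κ - w ∈ EU R (dig (insert c D) B) := by
    intro κ hκK
    rcases hgameK κ hκK with h | ⟨k, l, hkl, a, ha, b, hb, h⟩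
    · exact ⟨n, En_subset hEE n h⟩
    · have hl : l ≤ N := le_trans (by omega) (le_max_left n _)
      have h1 : b + (R ^ N) (0 - w) ∈ En R E (N + n) := En_add N n (En_mono h0 hl hb) hw
      have h2 : a + (R ^ k) c ∈ En R (dig (insert c D) B) (k + 1) :=
        En_add k 1 (En_subset hEE k ha) ((mem_En_one c).2 hcE)
      refine ⟨k + 1 + (N + n), ?_⟩
      have h3 := En_add (k + 1) (N + n) h2 (En_subset hEE _ h1)
      have h4 : κ - w = a + (R ^ k) c + (R ^ (k + 1)) (b + (R ^ N) (0 - w)) := by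
        rw [h, zero_sub, map_neg, map_add (R ^ (k + 1)), map_neg, ← pow_add_apply, hc,
          map_add (R ^ k) (e0 + R y), ← pow_add_apply k (N + 1),
          show k + 1 + N = k + (N + 1) by omega]
        abel
      rw [h4]
      exact h3
  -- points of `K`
  have hKK : ∀ t ∈ K, t ∈ EU R (dig (insert c D) B) := by
    intro t htK
    by_cases ht0 : t = 0
    · exact ⟨0, by rw [mem_En_zero]; exact ht0⟩
    · by_cases htE : t ∈ EU R E
      · obtain ⟨k, hk⟩ := htE
        exact ⟨k, En_subset hEE k hk⟩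
      · obtain ⟨k, s, hks, b, hb, hsb⟩ := hv t htK ht0 htE
        have h1 : Mv R (dig (insert c D) B) 1 s (v t - (R ^ N) w) := by
          refine Mv_one ⟨c, Set.mem_insert _ _, b, hb, rfl⟩ ?_
          rw [map_sub, ← pow_succ_apply', hc]
          have : s = s + b - b := by abel
          rw [this, hsb]
          abel
        obtain ⟨κ, hκv⟩ := exists_Mv hcov N (v t)
        have hκK : κ ∈ K := by
          refine hn₀ (v t) N (le_trans ?_ (le_max_right n _)) κ hκv
          exact Finset.le_sup (f := fun t => n₀ (v t)) (hK.1.mem_toFinset.2 htK)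
        have h2 : Mv R (dig (insert c D) B) N (v t - (R ^ N) w) (κ - w) :=
          Mv_subset hEE (Mv_sub hκv w)
        exact EU_of_Mv (Mv_subset hEE hks) (EU_of_Mv h1 (EU_of_Mv h2 (hκ κ hκK)))
  refine ⟨c, ⟨y + (R ^ N) w - y0, ?_⟩, fun x => ?_⟩
  · rw [hc, map_sub, map_add, ← pow_succ_apply', hy0]
    abel
  · obtain ⟨κ, hκx⟩ := exists_Mv hcov (n₀ x) x
    exact EU_of_Mv (Mv_subset hEE hκx) (hKK κ (hn₀ x _ le_rfl κ hκx))

end Pool.Agent.helper62.TS
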