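import Pool.Agent.helper62.TS.Final

/-!
# Lifting digits from a quotient (T-strong open set condition)
-/

set_option autoImplicit false

namespace Pool.Agent.helper62.TS

variable {L : Type*} [AddCommGroup L] {R : Module.End ℤ L}

/-- The conclusion of the algebraic part. -/
def Star (R : Module.End ℤ L) (B : Set L) : Prop :=
  ∃ D : Set L, D.Finite ∧ B ⊆ D ∧ Inj R D ∧ (∀ x, ∃ d ∈ D, ∃ y, x = d + R y) ∧
    ∃ p : Submodule ℤ L, D ⊆ p ∧ (∀ x, R x ∈ p ↔ x ∈ p) ∧ Finite (L ⧸ p) ∧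
      ∀ K₀ : Set L, K₀.Finite → K₀ ⊆ p → ∃ n, ∃ b ∈ En R B n, ∃ F : Set L, F.Finite ∧
        F ⊆ p ∧ (∀ f ∈ F, ∀ g ∈ F, f - g ∈ UU R D → f = g) ∧
          ∀ t ∈ K₀, ∃ y ∈ F, Mv R D n (t + b) y

theorem Mv_succ_iff {E : Set L} (n : ℕ) (x y : L) :
    Mv R E (n + 1) x y ↔ ∃ e ∈ E, ∃ x', x = e + R x' ∧ Mv R E n x' y := by
  constructor
  · rintro ⟨_, ⟨e, he, a, ha, rfl⟩, rfl⟩
    refine ⟨e, he, a + (R ^ n) y, ?_, a, ha, rfl⟩
    rw [map_add, pow_succ_apply', add_assoc]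
  · rintro ⟨e, he, x', rfl, a, ha, rfl⟩
    refine ⟨e + R a, ⟨e, he, a, ha, rfl⟩, ?_⟩
    rw [map_add, pow_succ_apply', add_assoc]

/-- The submodule `H` is preserved by evolutions with digits in `B`. -/
theorem stay {B : Set L} {H : Submodule ℤ L} (hH1 : ∀ x, R x ∈ H → x ∈ H)
    (hH2 : ∀ b ∈ B, ∀ δ ∈ H, ∃ b' ∈ B, ∃ y, b + δ = b' + R y ∧ b' - b ∈ H) (n : ℕ) :
    ∀ y ∈ H, ∀ b ∈ En R B n, ∃ y' ∈ H, Mv R B n (y + b) y' := by
  induction n with
  | zero =>
    intro y hy b hb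
    rw [mem_En_zero] at hb
    subst hb
    exact ⟨y, hy, by rw [add_zero]; exact Mv_zero y⟩
  | succ n ih =>
    rintro y hy _ ⟨b₀, hb₀, b₁, hb₁, rfl⟩
    obtain ⟨b', hb', y₁, h1, h2⟩ := hH2 b₀ hb₀ y hy
    have hy₁ : y₁ ∈ H := by
      refine hH1 y₁ ?_
      have h3 : R y₁ = y - (b' - b₀) := by
        have : R y₁ = b₀ + y - b' := by rw [h1]; abel
        rw [this]; abel
      rw [h3]
      exact H.sub_mem hy h2
    obtain ⟨y', hy', h4⟩ := ih y₁ hy₁ b₁ hb₁
    refine ⟨y', hy', (Mv_succ_iff n _ _).2 ⟨b', hb', y₁ + b₁, ?_, h4⟩⟩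
    rw [map_add]
    calc y + (b₀ + R b₁) = (b₀ + y) + R b₁ := by abel
      _ = _ := by rw [h1]; abel

/-- Any prescribed sum can be reached from a point of `H`. -/
theorem prescribe {B : Set L} {H : Submodule ℤ L} (hH1 : ∀ x, R x ∈ H → x ∈ H)
    (hH2 : ∀ b ∈ B, ∀ δ ∈ H, ∃ b' ∈ B, ∃ y, b + δ = b' + R y ∧ b' - b ∈ H) (n : ℕ) :
    ∀ t ∈ H, ∀ β ∈ En R B n, ∃ b ∈ En R B n, ∃ w ∈ H, t + b = β + (R ^ n) w := by
  induction n with
  | zero =>
    intro t ht β hβ
    rw [mem_En_zero] at hβ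
    subst hβ
    exact ⟨0, rfl, t, ht, by simp⟩
  | succ n ih =>
    rintro t ht _ ⟨β₀, hβ₀, β₁, hβ₁, rfl⟩
    obtain ⟨b₀, hb₀, y, h1, h2⟩ := hH2 β₀ hβ₀ (-t) (H.neg_mem ht)
    have hy : -y ∈ H := by
      refine hH1 _ ?_
      have h3 : R (-y) = t + (b₀ - β₀) := by
        have : R y = β₀ + -t - b₀ := by rw [h1]; abel
        rw [map_neg, this]; abel
      rw [h3]
      exact H.add_mem ht h2
    obtain ⟨b, hb, w, hw, h4⟩ := ih (-y) hy β₁ hβ₁
    refine ⟨b₀ + R b, ⟨b₀, hb₀, b, hb, rfl⟩, w, hw, ?_⟩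
    have h5 : t + b₀ = β₀ - R y := by
      have : β₀ = b₀ + R y + t := by rw [← h1]; abel
      rw [this]; abel
    have h6 := congrArg R h4
    rw [map_add, map_neg, map_add, ← pow_succ_apply'] at h6
    calc t + (b₀ + R b) = (t + b₀) + R b := by abel
      _ = β₀ + (-R y + R b) := by rw [h5]; abel
      _ = _ := by rw [h6, add_assoc]

/-- A finite subset of `H` can be reduced to a clique. -/
theorem reduce {B D : Set L} {H : Submodule ℤ L} (hBD : B ⊆ D)
    (hH1 : ∀ x, R x ∈ H → x ∈ H)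
    (hH2 : ∀ b ∈ B, ∀ δ ∈ H, ∃ b' ∈ B, ∃ y, b + δ = b' + R y ∧ b' - b ∈ H)
    (hDB : ∀ n, ∀ a ∈ En R D n, ∀ a' ∈ En R D n, a - a' ∈ H →
      ∃ β ∈ En R B n, ∃ β' ∈ En R B n, a - a' = β - β') (N : ℕ) :
    ∀ A : Finset L, A.card ≤ N → (∀ a ∈ A, a ∈ H) → ∃ n, ∃ b ∈ En R B n, ∃ F : Set L,
      F.Finite ∧ F ⊆ H ∧ (∀ f ∈ F, ∀ g ∈ F, f - g ∈ UU R D → f = g) ∧
        ∀ t ∈ A, ∃ y ∈ F, Mv R D n (t + b) y := by
  classical
  induction N with
  | zero =>
    intro A hA _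
    rw [Nat.le_zero, Finset.card_eq_zero] at hA
    subst hA
    exact ⟨0, 0, rfl, ∅, Set.finite_empty, Set.empty_subset _, by simp, by simp⟩
  | succ N ih =>
    intro A hA hAH
    by_cases hcl : ∀ f ∈ A, ∀ g ∈ A, f - g ∈ UU R D → f = g
    · exact ⟨0, 0, rfl, A, A.finite_toSet, fun a ha => hAH a ha, hcl,
        fun t ht => ⟨t, ht, by rw [add_zero]; exact Mv_zero t⟩⟩
    · push Not at hcl
      obtain ⟨f, hf, g, hg, ⟨n, a, ha, a', ha', hfg⟩, hne⟩ := hcl
      obtain ⟨β, hβ, β', hβ', h1⟩ := hDB n a ha a' ha' (by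
        rw [← hfg]; exact H.sub_mem (hAH f hf) (hAH g hg))
      obtain ⟨b, hb, w, hw, h2⟩ := prescribe hH1 hH2 n f (hAH f hf) β hβ
      have hfw : Mv R D n (f + b) w := ⟨β, En_subset hBD n hβ, h2⟩
      have hgw : Mv R D n (g + b) w := by
        refine ⟨β', En_subset hBD n hβ', ?_⟩
        have h3 : g + b = (f + b) - (f - g) := by abel
        rw [h3, h2, hfg, h1]
        abel
      have hev : ∀ t, ∃ y, t ∈ A → y ∈ H ∧ Mv R D n (t + b) y := by
        intro t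
        by_cases ht : t ∈ A
        · obtain ⟨y, hy, h3⟩ := stay hH1 hH2 n t (hAH t ht) b hb
          exact ⟨y, fun _ => ⟨hy, Mv_subset hBD h3⟩⟩
        · exact ⟨0, fun h => absurd h ht⟩
      choose e he using hev
      set e' := Function.update (Function.update e f w) g w with he'
      have hef : e' f = w := by
        rw [he', Function.update_of_ne hne, Function.update_self]
      have heg : e' g = w := Function.update_self _ _ _
      have he'1 : ∀ t ∈ A, e' t ∈ H ∧ Mv R D n (t + b) (e' t) := by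
        intro t ht
        by_cases htg : t = g
        · subst htg
          rw [heg]
          exact ⟨hw, hgw⟩
        · by_cases htf : t = f
          · subst htf
            rw [hef]
            exact ⟨hw, hfw⟩
          · rw [he', Function.update_of_ne htg, Function.update_of_ne htf]
            exact he t ht
      have hcard : (A.image e').card ≤ N := by
        have hlt : (A.image e').card < A.card := by
          refine lt_of_le_of_ne Finset.card_image_le fun h => hne ?_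
          exact Finset.injOn_of_card_image_eq h hf hg (hef.trans heg.symm)
        omega
      obtain ⟨n', b', hb', F, hF1, hF2, hF3, hF4⟩ := ih (A.image e') hcard (by
        intro y hy
        obtain ⟨t, ht, rfl⟩ := Finset.mem_image.1 hy
        exact (he'1 t ht).1)
      refine ⟨n + n', b + (R ^ n) b', En_add n n' hb hb', F, hF1, hF2, hF3, fun t ht => ?_⟩
      obtain ⟨y, hy, h5⟩ := hF4 (e' t) (Finset.mem_image_of_mem e' ht)
      refine ⟨y, hy, ?_⟩
      rw [← add_assoc]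
      exact Mv_trans (Mv_add (he'1 t ht).2 b') h5

/-- The case of a complete system. -/
theorem star_complete (R : Module.End ℤ L) {B : Set L} (hBf : B.Finite) (hBi : Inj R B)
    (hcov : ∀ x, ∃ b ∈ B, ∃ y, x = b + R y) : Star R B := by
  classical
  refine ⟨B, hBf, subset_rfl, hBi, hcov, ⊤, fun _ _ => Submodule.mem_top,
    fun x => ⟨fun _ => Submodule.mem_top, fun _ => Submodule.mem_top⟩, ?_, ?_⟩
  · have : Subsingleton (L ⧸ (⊤ : Submodule ℤ L)) :=
      Submodule.Quotient.subsingleton_iff.2 rfl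
    infer_instance
  · intro K₀ hK₀ _
    obtain ⟨n, b, hb, F, hF1, -, hF3, hF4⟩ := reduce (R := R) (B := B) (D := B) (H := ⊤)
      subset_rfl (fun _ _ => Submodule.mem_top)
      (fun b _ δ _ => by
        obtain ⟨b', hb', y, hy⟩ := hcov (b + δ)
        exact ⟨b', hb', y, hy, Submodule.mem_top⟩)
      (fun n a ha a' ha' _ => ⟨a, ha, a', ha', rfl⟩) _ hK₀.toFinset le_rfl
      (fun _ _ => Submodule.mem_top)
    exact ⟨n, b, hb, F, hF1, fun _ _ => Submodule.mem_top, hF3,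
      fun t ht => hF4 t (hK₀.mem_toFinset.2 ht)⟩

end Pool.Agent.helper62.TS
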