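import Pool.Agent.helper62.TS.Lift

/-!
# Lifting digits from a quotient (part 2)
-/

set_option autoImplicit false

namespace Pool.Agent.helper62.TS

variable {L : Type*} [AddCommGroup L] {R : Module.End ℤ L}

/-- The endomorphism of the quotient. -/
def quo (R : Module.End ℤ L) (H : Submodule ℤ L) (hH : ∀ x, x ∈ H → R x ∈ H) :
    Module.End ℤ (L ⧸ H) := H.mapQ H R fun x hx => hH x hx

theorem quo_mk (H : Submodule ℤ L) (hH : ∀ x, x ∈ H → R x ∈ H) (x : L) :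
    quo R H hH (H.mkQ x) = H.mkQ (R x) := rfl

theorem mk_eq (H : Submodule ℤ L) (x y : L) : H.mkQ x = H.mkQ y ↔ x - y ∈ H := by
  rw [Submodule.mkQ_apply, Submodule.mkQ_apply, Submodule.Quotient.eq]

/-- Lifting of moves. -/
theorem lift_Mv {H : Submodule ℤ L} (hH : ∀ x, x ∈ H → R x ∈ H) {Q₀ : Set L}
    (hQ₀ : ∀ h ∈ H, ∃ q ∈ Q₀, ∃ y ∈ H, h = q + R y) {E : Set (L ⧸ H)} {s : L ⧸ H → L}
    (hs : ∀ q, H.mkQ (s q) = q) (n : ℕ) : ∀ (x : L) (y' : L ⧸ H),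
      Mv (quo R H hH) E n (H.mkQ x) y' →
        ∃ y, H.mkQ y = y' ∧ Mv R {x | ∃ e ∈ E, ∃ q ∈ Q₀, x = s e + q} n x y := by
  induction n with
  | zero =>
    rintro x y' ⟨e, he, h⟩
    rw [mem_En_zero] at he
    subst he
    refine ⟨x, ?_, Mv_zero x⟩
    rw [h, zero_add, pow_zero, Module.End.one_apply]
  | succ n ih =>
    intro x y' h
    obtain ⟨e, he, x', hx', h'⟩ := (Mv_succ_iff n _ _).1 h
    have h1 : x - s e - R (s x') ∈ H := by
      have h2 : H.mkQ (x - s e - R (s x')) = 0 := by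
        rw [map_sub, map_sub, hs, ← quo_mk H hH, hs, hx']
        abel
      rwa [Submodule.mkQ_apply, Submodule.Quotient.mk_eq_zero] at h2
    obtain ⟨q, hq, y₁, hy₁, h2⟩ := hQ₀ _ h1
    have h3 : H.mkQ (s x' + y₁) = x' := by
      rw [map_add, hs, Submodule.mkQ_apply H y₁, (Submodule.Quotient.mk_eq_zero H).2 hy₁, add_zero]
    rw [← h3] at h'
    obtain ⟨y, hy, h4⟩ := ih _ _ h'
    refine ⟨y, hy, (Mv_succ_iff n _ _).2 ⟨s e + q, ⟨e, he, q, hq, rfl⟩, _, ?_, h4⟩⟩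
    have h5 : x = s e + R (s x') + (x - s e - R (s x')) := by abel
    rw [h5, h2, map_add]
    abel

theorem fin_quo {H : Submodule ℤ L} (hH : ∀ x, x ∈ H → R x ∈ H) {Q₀ : Set L} (hQ₀f : Q₀.Finite)
    (hQ₀ : ∀ h ∈ H, ∃ q ∈ Q₀, ∃ y ∈ H, h = q + R y)
    (hfin : ∀ E : Set L, E.Finite → ∃ K, Absorb R E K) (E : Set (L ⧸ H)) (hE : E.Finite) :
    ∃ K, Absorb (quo R H hH) E K := by
  choose s hs using Submodule.mkQ_surjective H
  have hEf : {x | ∃ e ∈ E, ∃ q ∈ Q₀, x = s e + q}.Finite := by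
    refine (Set.Finite.image2 (fun e q => s e + q) hE hQ₀f).subset ?_
    rintro x ⟨e, he, q, hq, rfl⟩
    exact ⟨e, he, q, hq, rfl⟩
  obtain ⟨K, hKf, hK⟩ := hfin _ hEf
  refine ⟨H.mkQ '' K, hKf.image _, fun x => ?_⟩
  obtain ⟨n₀, hn₀⟩ := hK (s x)
  refine ⟨n₀, fun n hn y hy => ?_⟩
  rw [← hs x] at hy
  obtain ⟨y', hy', h1⟩ := lift_Mv hH hQ₀ hs n _ _ hy
  exact ⟨y', hn₀ n hn y' h1, hy'⟩

theorem En_image {H : Submodule ℤ L} (hH : ∀ x, x ∈ H → R x ∈ H) (B : Set L) (n : ℕ) :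
    ∀ b' ∈ En (quo R H hH) (H.mkQ '' B) n, ∃ b ∈ En R B n, H.mkQ b = b' := by
  induction n with
  | zero =>
    intro b' hb'
    rw [mem_En_zero] at hb'
    subst hb'
    exact ⟨0, rfl, map_zero _⟩
  | succ n ih =>
    rintro _ ⟨_, ⟨b, hb, rfl⟩, y', hy', rfl⟩
    obtain ⟨y, hy, rfl⟩ := ih y' hy'
    exact ⟨b + R y, ⟨b, hb, y, hy, rfl⟩, by rw [map_add, quo_mk]⟩

theorem En_mk {H : Submodule ℤ L} (hH : ∀ x, x ∈ H → R x ∈ H) {D : Set L} {D' : Set (L ⧸ H)}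
    (hD : ∀ d ∈ D, H.mkQ d ∈ D') (n : ℕ) :
    ∀ a ∈ En R D n, H.mkQ a ∈ En (quo R H hH) D' n := by
  induction n with
  | zero =>
    intro a ha
    rw [mem_En_zero] at ha
    subst ha
    rw [map_zero]
    rfl
  | succ n ih =>
    rintro _ ⟨d, hd, a, ha, rfl⟩
    exact ⟨H.mkQ d, hD d hd, H.mkQ a, ih a ha, by rw [map_add, quo_mk]⟩

theorem quo_pow_mk {H : Submodule ℤ L} (hH : ∀ x, x ∈ H → R x ∈ H) (n : ℕ) (x : L) :
    ((quo R H hH) ^ n) (H.mkQ x) = H.mkQ ((R ^ n) x) := by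
  induction n with
  | zero => simp
  | succ n ih => rw [pow_succ_apply', ih, quo_mk, pow_succ_apply']

theorem Mv_mk {H : Submodule ℤ L} (hH : ∀ x, x ∈ H → R x ∈ H) {D : Set L} {D' : Set (L ⧸ H)}
    (hD : ∀ d ∈ D, H.mkQ d ∈ D') {n : ℕ} {x y : L} (h : Mv R D n x y) :
    Mv (quo R H hH) D' n (H.mkQ x) (H.mkQ y) := by
  obtain ⟨a, ha, rfl⟩ := h
  exact ⟨H.mkQ a, En_mk hH hD n a ha, by rw [map_add, quo_pow_mk]⟩

/-- Uniqueness of expansions. -/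
theorem Mv_unique {D : Set L} (hR : Function.Injective R) (hD : Inj R D) (n : ℕ) :
    ∀ {x y y' : L}, Mv R D n x y → Mv R D n x y' → y = y' := by
  induction n with
  | zero =>
    rintro x y y' ⟨e, he, h⟩ ⟨e', he', h'⟩
    rw [mem_En_zero] at he he'
    subst he he'
    rw [zero_add, pow_zero, Module.End.one_apply] at h h'
    rw [← h, h']
  | succ n ih =>
    intro x y y' h h'
    obtain ⟨e, he, x₁, hx₁, h1⟩ := (Mv_succ_iff n _ _).1 h
    obtain ⟨e', he', x₁', hx₁', h1'⟩ := (Mv_succ_iff n _ _).1 h'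
    have h2 : e = e' := by
      refine hD e he e' he' (x₁' - x₁) ?_
      rw [map_sub, ← add_sub_assoc, ← hx₁', hx₁]
      abel
    subst h2
    have h3 : x₁ = x₁' := hR (add_left_cancel (hx₁.symm.trans hx₁'))
    subst h3
    exact ih h1 h1'

end Pool.Agent.helper62.TS
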