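import Pool.Agent.helper62.TS.Lift2

/-!
# Lifting digits from a quotient (part 3: the theorem)
-/

set_option autoImplicit false

namespace Pool.Agent.helper62.TS

variable {L : Type*} [AddCommGroup L] {R : Module.End ℤ L}

theorem mem_of_sub_mem {p : Submodule ℤ L} {x y : L} (hxy : x - y ∈ p) (hy : y ∈ p) : x ∈ p := by
  have := p.add_mem hxy hy
  rwa [sub_add_cancel] at this

/-- **Lift theorem.** -/
theorem lift_star (R : Module.End ℤ L) [Finite (L ⧸ LinearMap.range R)]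
    (hfin : ∀ E : Set L, E.Finite → ∃ K, Absorb R E K) {B : Set L} (hBf : B.Finite)
    (hB0 : (0 : L) ∈ B) (hBi : Inj R B) (hBn : ∃ x, Miss R B x) (H : Submodule ℤ L)
    (hH1 : ∀ x, R x ∈ H ↔ x ∈ H)
    (hH2 : ∀ b ∈ B, ∀ δ ∈ H, ∃ b' ∈ B, ∃ y, b + δ = b' + R y ∧ b' - b ∈ H)
    (hH3 : ∀ x : L, (∃ u ∈ UU R B, x - u ∈ H) ∨
      ∃ n s, Mv R (dig B B) n x s ∧ ∃ b ∈ B, Miss R B (s + b))
    (hH4 : ∃ b ∈ B, b ∉ H) : Star R B := by
  classical
  have hH : ∀ x, x ∈ H → R x ∈ H := fun x hx => (hH1 x).2 hx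
  have hH1' : ∀ x, R x ∈ H → x ∈ H := fun x hx => (hH1 x).1 hx
  set Rq := quo R H hH with hRq
  set B' : Set (L ⧸ H) := H.mkQ '' B with hB'
  -- finiteness
  have hfinq : Finite ((L ⧸ H) ⧸ LinearMap.range Rq) := by
    have hle : LinearMap.range R ≤ (LinearMap.range Rq).comap H.mkQ := by
      rintro _ ⟨x, rfl⟩
      exact ⟨H.mkQ x, rfl⟩
    refine Finite.of_surjective ((LinearMap.range R).mapQ (LinearMap.range Rq) H.mkQ hle) ?_
    intro q
    obtain ⟨q', rfl⟩ := Submodule.mkQ_surjective _ q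
    obtain ⟨x, rfl⟩ := Submodule.mkQ_surjective _ q'
    exact ⟨(LinearMap.range R).mkQ x, rfl⟩
  have hQ₀ : ∀ h ∈ H, ∃ q ∈ B ∩ (H : Set L), ∃ y ∈ H, h = q + R y := by
    intro h hh
    obtain ⟨b', hb', y, h1, h2⟩ := hH2 0 hB0 h hh
    rw [sub_zero] at h2
    rw [zero_add] at h1
    refine ⟨b', ⟨hb', h2⟩, y, hH1' y ?_, h1⟩
    have : R y = h - b' := by rw [h1]; abel
    rw [this]
    exact H.sub_mem hh h2
  have hfin' := fin_quo hH (hBf.subset Set.inter_subset_left) hQ₀ hfin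
  -- properties of `B'`
  have hB0' : (0 : L ⧸ H) ∈ B' := ⟨0, hB0, map_zero _⟩
  have hcoset : ∀ b ∈ B, ∀ b' ∈ B, ∀ y, H.mkQ b = H.mkQ b' + Rq y → H.mkQ b = H.mkQ b' := by
    intro b hb b' hb' y h
    obtain ⟨y, rfl⟩ := Submodule.mkQ_surjective H y
    rw [hRq, quo_mk, ← map_add, mk_eq] at h
    obtain ⟨b'', hb'', y', h1, h2⟩ := hH2 b' hb' _ h
    have h3 : b = b'' := by
      refine hBi b hb b'' hb'' (y + y') ?_
      have : b = b' + (b - (b' + R y)) + R y := by abel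
      rw [this, h1, map_add]
      abel
    rw [h3, mk_eq]
    exact h2
  have hBi' : Inj Rq B' := by
    rintro _ ⟨b, hb, rfl⟩ _ ⟨b', hb', rfl⟩ y h
    exact hcoset b hb b' hb' y h
  have hB2' : ∃ b ∈ B', b ≠ 0 := by
    obtain ⟨b, hb, hbH⟩ := hH4
    exact ⟨H.mkQ b, ⟨b, hb, rfl⟩, fun h => hbH ((Submodule.Quotient.mk_eq_zero H).1 h)⟩
  have hMiss : ∀ x, Miss R B x → Miss Rq B' (H.mkQ x) := by
    rintro x hx _ ⟨b, hb, rfl⟩ y h
    obtain ⟨y, rfl⟩ := Submodule.mkQ_surjective H y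
    rw [hRq, quo_mk, ← map_add, mk_eq] at h
    obtain ⟨b', hb', y', h1, -⟩ := hH2 b hb _ h
    refine hx b' hb' (y + y') ?_
    have : x = b + (x - (b + R y)) + R y := by abel
    rw [this, h1, map_add]
    abel
  have hBn' : ∃ x, Miss Rq B' x := by
    obtain ⟨x, hx⟩ := hBn
    exact ⟨_, hMiss x hx⟩
  have hdig' : ∀ e ∈ dig B B, H.mkQ e ∈ dig B' B' := by
    rintro _ ⟨b, hb, b', hb', rfl⟩
    exact ⟨_, ⟨b, hb, rfl⟩, _, ⟨b', hb', rfl⟩, map_sub _ _ _⟩
  have hP' : PD Rq B' B' := by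
    intro q _
    obtain ⟨x, rfl⟩ := Submodule.mkQ_surjective H q
    rcases hH3 x with ⟨u, ⟨n, a, ha, b, hb, rfl⟩, hu⟩ | ⟨n, s, hs, b, hb, hm⟩
    · left
      have hBB : ∀ d ∈ B, H.mkQ d ∈ B' := fun d hd => ⟨d, hd, rfl⟩
      refine ⟨n, (mem_En_dig n _).2 ⟨H.mkQ a, En_mk hH hBB n a ha, H.mkQ b,
        En_mk hH hBB n b hb, ?_⟩⟩
      rw [← map_sub, mk_eq]
      exact hu
    · right
      refine ⟨n, H.mkQ s, Mv_mk hH hdig' hs, H.mkQ b, ⟨b, hb, rfl⟩, ?_⟩
      rw [← map_add]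
      exact hMiss _ hm
  obtain ⟨D', hDf', hBD', hDi', hDc', p', hDp', hpR', hpf', hall'⟩ :=
    core Rq hfin' (hBf.image _) hB0' hBi' hB2' hBn' hP'
  -- the lifted digits
  choose s hs using Submodule.mkQ_surjective H
  set D : Set L := B ∪ {x | ∃ d ∈ D', d ∉ B' ∧ ∃ b ∈ B, b ∈ H ∧ x = s d + b} with hD
  have hBD : B ⊆ D := Set.subset_union_left
  have hmkH : ∀ b ∈ H, H.mkQ b = 0 := fun b hb => (Submodule.Quotient.mk_eq_zero H).2 hb
  have hDmk : ∀ d ∈ D, H.mkQ d ∈ D' := by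
    rintro d (hd | ⟨d', hd', -, b, -, hbH, rfl⟩)
    · exact hBD' ⟨d, hd, rfl⟩
    · rw [map_add, hs, hmkH b hbH, add_zero]
      exact hd'
  have hDf : D.Finite := by
    refine hBf.union ((Set.Finite.image2 (fun d b => s d + b) hDf' hBf).subset ?_)
    rintro x ⟨d, hd, -, b, hb, -, rfl⟩
    exact ⟨d, hd, b, hb, rfl⟩
  -- two digits with the same image
  have hfib : ∀ d ∈ D, ∀ d' ∈ D, H.mkQ d = H.mkQ d' →
      ∃ β ∈ B, ∃ β' ∈ B, d - d' = β - β' := by
    rintro d (hd | ⟨e, he, heB, b, hb, hbH, rfl⟩) d' (hd' | ⟨e', he', heB', b', hb', hbH', rfl⟩) h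
    · exact ⟨d, hd, d', hd', rfl⟩
    · exfalso
      rw [map_add, hs, hmkH b' hbH', add_zero] at h
      exact heB' ⟨d, hd, h⟩
    · exfalso
      rw [map_add, hs, hmkH b hbH, add_zero] at h
      exact heB ⟨d', hd', h.symm⟩
    · rw [map_add, map_add, hs, hs, hmkH b hbH, hmkH b' hbH', add_zero, add_zero] at h
      subst h
      exact ⟨b, hb, b', hb', by abel⟩
  have hDmkinj : ∀ d ∈ D, ∀ d' ∈ D, ∀ y, H.mkQ d = H.mkQ d' + Rq y → H.mkQ d = H.mkQ d' :=
    fun d hd d' hd' y h => hDi' _ (hDmk d hd) _ (hDmk d' hd') y h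
  have hDi : Inj R D := by
    intro d hd d' hd' y h
    have h1 : H.mkQ d = H.mkQ d' := by
      refine hDmkinj d hd d' hd' (H.mkQ y) ?_
      rw [hRq, quo_mk, ← map_add, h]
    obtain ⟨β, hβ, β', hβ', h2⟩ := hfib d hd d' hd' h1
    have h3 : β = β' := by
      refine hBi β hβ β' hβ' y ?_
      have : β = β' + (β - β') := by abel
      rw [this, ← h2, h]
      abel
    rw [h3, sub_self, sub_eq_zero] at h2
    exact h2
  have hDc : ∀ x, ∃ d ∈ D, ∃ y, x = d + R y := by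
    intro x
    obtain ⟨d, hd, y, h⟩ := hDc' (H.mkQ x)
    obtain ⟨y, rfl⟩ := Submodule.mkQ_surjective H y
    by_cases hdB : d ∈ B'
    · obtain ⟨b, hb, rfl⟩ := hdB
      rw [hRq, quo_mk, ← map_add, mk_eq] at h
      obtain ⟨b', hb', y', h1, -⟩ := hH2 b hb _ h
      refine ⟨b', hBD hb', y + y', ?_⟩
      have : x = b + (x - (b + R y)) + R y := by abel
      rw [this, h1, map_add]
      abel
    · have h1 : x - (s d + R y) ∈ H := by
        rw [← mk_eq, map_add, hs, h, hRq, quo_mk]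
      obtain ⟨q, ⟨hqB, hqH⟩, y', hy', h2⟩ := hQ₀ _ h1
      refine ⟨s d + q, Or.inr ⟨d, hd, hdB, q, hqB, hqH, rfl⟩, y + y', ?_⟩
      have : x = (x - (s d + R y)) + (s d + R y) := by abel
      rw [this, h2, map_add]
      abel
  set p : Submodule ℤ L := p'.comap H.mkQ with hp
  have hDp : D ⊆ p := fun d hd => hDp' (hDmk d hd)
  have hHp : ∀ x ∈ H, x ∈ p := by
    intro x hx
    change H.mkQ x ∈ p'
    rw [hmkH x hx]
    exact p'.zero_mem
  have hpR : ∀ x, R x ∈ p ↔ x ∈ p := fun x => hpR' (H.mkQ x)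
  have hpf : Finite (L ⧸ p) := by
    refine Finite.of_injective (p.mapQ p' H.mkQ le_rfl) ?_
    rw [injective_iff_map_eq_zero]
    intro q hq
    obtain ⟨x, rfl⟩ := Submodule.mkQ_surjective p q
    have h1 : p'.mkQ (H.mkQ x) = 0 := hq
    rw [Submodule.mkQ_apply, Submodule.Quotient.mk_eq_zero] at h1
    rw [Submodule.mkQ_apply, Submodule.Quotient.mk_eq_zero]
    exact h1
  have hRqinj : Function.Injective Rq := by
    rw [injective_iff_map_eq_zero]
    intro q hq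
    obtain ⟨x, rfl⟩ := Submodule.mkQ_surjective H q
    rw [hRq, quo_mk, Submodule.mkQ_apply, Submodule.Quotient.mk_eq_zero] at hq
    exact hmkH x (hH1' x hq)
  have hpD : ∀ n, ∀ x ∈ p, ∀ y, Mv R D n x y → y ∈ p := by
    intro n
    induction n with
    | zero =>
      rintro x hx y ⟨e, he, h⟩
      rw [mem_En_zero] at he
      subst he
      rw [zero_add, pow_zero, Module.End.one_apply] at h
      rwa [← h]
    | succ n ih =>
      intro x hx y h
      obtain ⟨e, he, x', hx', h'⟩ := (Mv_succ_iff n _ _).1 h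
      refine ih x' ((hpR x').1 ?_) y h'
      have : R x' = x - e := by rw [hx']; abel
      rw [this]
      exact p.sub_mem hx (hDp he)
  have hEnp : ∀ n, ∀ b ∈ En R B n, b ∈ p := by
    intro n
    induction n with
    | zero => intro b hb; rw [mem_En_zero] at hb; subst hb; exact p.zero_mem
    | succ n ih =>
      rintro _ ⟨b, hb, y, hy, rfl⟩
      exact p.add_mem (hDp (hBD hb)) ((hpR y).2 (ih y hy))
  -- one element can be moved into `H`
  have toH : ∀ t ∈ p, ∃ n, ∃ b ∈ En R B n, ∃ y ∈ H, Mv R D n (t + b) y := by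
    intro t ht
    obtain ⟨n, a, ha, b', hb', h1⟩ := hall' (H.mkQ t) ht
    obtain ⟨b, hb, rfl⟩ := En_image hH B n b' hb'
    obtain ⟨y, hy⟩ := exists_Mv hDc n (t + b)
    refine ⟨n, b, hb, y, ?_, hy⟩
    have h2 : Mv Rq D' n (H.mkQ (t + b)) (H.mkQ y) := Mv_mk hH hDmk hy
    have h3 : Mv Rq D' n (H.mkQ (t + b)) 0 := by
      refine Mv_zero_iff.2 ?_
      rw [map_add, h1, sub_add_cancel]
      exact ha
    have h4 := Mv_unique hRqinj hDi' n h2 h3
    rwa [Submodule.mkQ_apply, Submodule.Quotient.mk_eq_zero] at h4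
  have toH' : ∀ A : Finset L, (∀ t ∈ A, t ∈ p) →
      ∃ n, ∃ b ∈ En R B n, ∀ t ∈ A, ∃ y ∈ H, Mv R D n (t + b) y := by
    intro A
    induction A using Finset.induction_on with
    | empty => exact fun _ => ⟨0, 0, rfl, by simp⟩
    | insert t A _ ih =>
      intro hA
      obtain ⟨n, b, hb, h1⟩ := ih fun a ha => hA a (Finset.mem_insert_of_mem ha)
      obtain ⟨t', ht'⟩ := exists_Mv hDc n (t + b)
      have htp : t' ∈ p := hpD n _ (p.add_mem (hA t (Finset.mem_insert_self _ _)) (hEnp n b hb))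
        t' ht'
      obtain ⟨n', b', hb', y, hy, h2⟩ := toH t' htp
      refine ⟨n + n', b + (R ^ n) b', En_add n n' hb hb', fun a ha => ?_⟩
      rcases Finset.mem_insert.1 ha with rfl | ha
      · refine ⟨y, hy, ?_⟩
        rw [← add_assoc]
        exact Mv_trans (Mv_add ht' b') h2
      · obtain ⟨ya, hya, h3⟩ := h1 a ha
        obtain ⟨y', hy', h4⟩ := stay hH1' hH2 n' ya hya b' hb'
        refine ⟨y', hy', ?_⟩
        rw [← add_assoc]
        exact Mv_trans (Mv_add h3 b') (Mv_subset hBD h4)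
  -- comparison of differences
  have hDB : ∀ n, ∀ a ∈ En R D n, ∀ a' ∈ En R D n, a - a' ∈ H →
      ∃ β ∈ En R B n, ∃ β' ∈ En R B n, a - a' = β - β' := by
    intro n
    induction n with
    | zero =>
      intro a ha a' ha' _
      rw [mem_En_zero] at ha ha'
      subst ha ha'
      exact ⟨0, rfl, 0, rfl, rfl⟩
    | succ n ih =>
      rintro _ ⟨d, hd, a, ha, rfl⟩ _ ⟨d', hd', a', ha', rfl⟩ h
      have h1 : H.mkQ d = H.mkQ d' := by
        refine hDmkinj d hd d' hd' (H.mkQ (a' - a)) ?_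
        rw [hRq, quo_mk, ← map_add, mk_eq, map_sub]
        have : d - (d' + (R a' - R a)) = d + R a - (d' + R a') := by abel
        rw [this]
        exact h
      have h2 : a - a' ∈ H := by
        refine hH1' _ ?_
        rw [map_sub]
        have h3 := (mk_eq H d d').1 h1
        have : R a - R a' = (d + R a - (d' + R a')) - (d - d') := by abel
        rw [this]
        exact H.sub_mem h h3
      obtain ⟨β, hβ, β', hβ', h3⟩ := ih a ha a' ha' h2
      obtain ⟨b, hb, b', hb', h4⟩ := hfib d hd d' hd' h1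
      refine ⟨b + R β, ⟨b, hb, β, hβ, rfl⟩, b' + R β', ⟨b', hb', β', hβ', rfl⟩, ?_⟩
      have h5 := congrArg R h3
      rw [map_sub, map_sub] at h5
      calc d + R a - (d' + R a') = (d - d') + (R a - R a') := by abel
        _ = (b - b') + (R β - R β') := by rw [h4, h5]
        _ = _ := by abel
  refine ⟨D, hDf, hBD, hDi, hDc, p, hDp, hpR, hpf, fun K₀ hK₀ hK₀p => ?_⟩
  obtain ⟨n, b, hb, h1⟩ := toH' hK₀.toFinset fun t ht => hK₀p (hK₀.mem_toFinset.1 ht)
  have hev : ∀ t, ∃ y, t ∈ hK₀.toFinset → y ∈ H ∧ Mv R D n (t + b) y := by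
    intro t
    by_cases ht : t ∈ hK₀.toFinset
    · obtain ⟨y, hy, h2⟩ := h1 t ht
      exact ⟨y, fun _ => ⟨hy, h2⟩⟩
    · exact ⟨0, fun h => absurd h ht⟩
  choose e he using hev
  obtain ⟨n', b', hb', F, hF1, hF2, hF3, hF4⟩ := reduce hBD hH1' hH2 hDB _
    (hK₀.toFinset.image e) le_rfl (by
      intro y hy
      obtain ⟨t, ht, rfl⟩ := Finset.mem_image.1 hy
      exact (he t ht).1)
  refine ⟨n + n', b + (R ^ n) b', En_add n n' hb hb', F, hF1, fun f hf => hHp f (hF2 hf), hF3,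
    fun t ht => ?_⟩
  have ht' := hK₀.mem_toFinset.2 ht
  obtain ⟨y, hy, h5⟩ := hF4 (e t) (Finset.mem_image_of_mem e ht')
  refine ⟨y, hy, ?_⟩
  rw [← add_assoc]
  exact Mv_trans (Mv_add (he t ht').2 b') h5

end Pool.Agent.helper62.TS
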