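import Mathlib

/-!
# A cycle of minimal primes (structure theorem for digit sets, part 1)
-/

set_option autoImplicit false

namespace Pool.Agent.helper62.TS

open Function

section

variable {A : Type*} [CommRing A]

theorem comap_eq_of_le {σ : A →+* A} (hσ : σ.IsIntegral) {p q : Ideal A} (hp : p.IsPrime)
    (hle : p ≤ q) (h : p.comap σ = q.comap σ) : p = q := by
  let _ : Algebra A A := σ.toAlgebra
  by_contra hne
  obtain ⟨x, hxq, hxp⟩ := SetLike.exists_of_lt (lt_of_le_of_ne hle hne)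
  have := Ideal.comap_lt_comap_of_integral_mem_sdiff (R := A) (S := A) (I := p) (J := q) hle
    (x := x) ⟨hxq, hxp⟩ (hσ x)
  exact absurd h (ne_of_lt this)

variable [IsNoetherianRing A]

/-- A periodic sequence of primes. -/
theorem ring_cycle (σ : A →+* A) (hσ : σ.IsIntegral) (μ : A)
    (hav : ∀ p : Ideal A, p.IsPrime → ∃ q : Ideal A, q.IsPrime ∧ q.comap σ = p ∧ μ ∉ q)
    (I : ℕ → Ideal A) (n : ℕ) (hn : 0 < n) (hper : ∀ k, I (k + n) = I k)
    (h1 : ∀ k, ∀ a ∈ I (k + 1), σ a ∈ I k)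
    (h2 : ∀ k, ∀ a ∈ I k, μ * a ∈ (I (k + 1)).map σ) (hne : I 0 ≠ ⊤) :
    ∃ (P : ℕ → Ideal A) (n' : ℕ), 0 < n' ∧ (∀ k, P (k + n') = P k) ∧ (∀ k, (P k).IsPrime) ∧
      (∀ k, I k ≤ P k) ∧ (∀ k, (P k).comap σ = P (k + 1)) ∧
      ∀ k q, q.IsPrime → q.comap σ = P (k + 1) → q ≠ P k → μ ∈ q := by
  classical
  -- minimal primes
  have hA : ∀ k, ∀ p ∈ (I (k + 1)).minimalPrimes, ∀ q : Ideal A, q.IsPrime → q.comap σ = p →
      μ ∉ q → q ∈ (I k).minimalPrimes := by
    intro k p hp q hq hqp hμ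
    have hIq : I k ≤ q := by
      intro a ha
      have h3 : μ * a ∈ q := by
        have h4 : (I (k + 1)).map σ ≤ q := by
          rw [Ideal.map_le_iff_le_comap, hqp]
          exact hp.1.2
        exact h4 (h2 k a ha)
      exact (hq.mem_or_mem h3).resolve_left hμ
    refine ⟨⟨hq, hIq⟩, ?_⟩
    rintro q' ⟨hq', hIq'⟩ hle
    have h5 : q'.comap σ = q.comap σ := by
      refine le_antisymm (Ideal.comap_mono hle) ?_
      rw [hqp]
      refine hp.2 ⟨Ideal.IsPrime.comap σ, fun a ha => ?_⟩ ?_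
      · exact hIq' (h1 k a ha)
      · rw [← hqp]; exact Ideal.comap_mono hle
    exact (comap_eq_of_le hσ hq' hle h5).ge
  have hg : ∀ k, ∀ p, ∃ q : Ideal A, p ∈ (I (k + 1)).minimalPrimes →
      q ∈ (I k).minimalPrimes ∧ q.comap σ = p ∧ μ ∉ q := by
    intro k p
    by_cases hp : p ∈ (I (k + 1)).minimalPrimes
    · obtain ⟨q, hq, hqp, hμ⟩ := hav p hp.1.1
      exact ⟨q, fun _ => ⟨hA k p hp q hq hqp hμ, hqp, hμ⟩⟩
    · exact ⟨⊤, fun h => absurd h hp⟩
  choose g hg using hg
  have hfin : ∀ k, (I k).minimalPrimes.Finite := fun k =>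
    Ideal.finite_minimalPrimes_of_isNoetherianRing A (I k)
  have hginj : ∀ k, Set.InjOn (g k) (I (k + 1)).minimalPrimes := by
    intro k p hp p' hp' h
    rw [← (hg k p hp).2.1, ← (hg k p' hp').2.1, h]
  have hgmaps : ∀ k, Set.MapsTo (g k) (I (k + 1)).minimalPrimes (I k).minimalPrimes :=
    fun k p hp => (hg k p hp).1
  have hanti : Antitone fun k => (I k).minimalPrimes.ncard := by
    refine antitone_nat_of_succ_le fun k => ?_
    exact Set.ncard_le_ncard_of_injOn (g k) (hgmaps k) (hginj k) (hfin k)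
  have hcard : ∀ k, (I k).minimalPrimes.ncard ≤ (I (k + 1)).minimalPrimes.ncard := by
    intro k
    have h6 : (I (k + n)).minimalPrimes.ncard ≤ (I (k + 1)).minimalPrimes.ncard :=
      hanti (by omega)
    rwa [hper] at h6
  have hsurj : ∀ k, ∀ q ∈ (I k).minimalPrimes, ∃ p ∈ (I (k + 1)).minimalPrimes, g k p = q := by
    intro k q hq
    have h7 : g k '' (I (k + 1)).minimalPrimes = (I k).minimalPrimes := by
      refine Set.eq_of_subset_of_ncard_le (Set.image_subset_iff.2 (hgmaps k)) ?_ (hfin k)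
      rw [(hginj k).ncard_image]
      exact hcard k
    rw [← h7] at hq
    exact hq
  have hC : ∀ k, ∀ q ∈ (I k).minimalPrimes, q.comap σ ∈ (I (k + 1)).minimalPrimes ∧
      g k (q.comap σ) = q := by
    intro k q hq
    obtain ⟨p, hp, rfl⟩ := hsurj k q hq
    rw [(hg k p hp).2.1]
    exact ⟨hp, rfl⟩
  -- the sequence
  obtain ⟨p₀, hp₀⟩ := Ideal.nonempty_minimalPrimes hne
  have hD : ∀ j k, ∀ q ∈ (I k).minimalPrimes,
      (Ideal.comap σ)^[j] q ∈ (I (k + j)).minimalPrimes := by
    intro j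
    induction j with
    | zero => intro k q hq; exact hq
    | succ j ih =>
      intro k q hq
      rw [Function.iterate_succ_apply, show k + (j + 1) = (k + 1) + j by omega]
      exact ih (k + 1) _ (hC k q hq).1
  have hE : ∀ j k, ∀ q ∈ (I k).minimalPrimes, ∀ q' ∈ (I k).minimalPrimes,
      (Ideal.comap σ)^[j] q = (Ideal.comap σ)^[j] q' → q = q' := by
    intro j
    induction j with
    | zero => intro k q _ q' _ h; exact h
    | succ j ih =>
      intro k q hq q' hq' h
      rw [Function.iterate_succ_apply, Function.iterate_succ_apply] at h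
      have := ih (k + 1) _ (hC k q hq).1 _ (hC k q' hq').1 h
      rw [← (hC k q hq).2, ← (hC k q' hq').2, this]
  have hper' : ∀ a k, I (k + a * n) = I k := by
    intro a
    induction a with
    | zero => intro k; simp
    | succ a ih => intro k; rw [show k + (a + 1) * n = (k + a * n) + n by ring, hper, ih]
  obtain ⟨a, b, hab, heq⟩ : ∃ a b : ℕ, a < b ∧
      (Ideal.comap σ)^[a * n] p₀ = (Ideal.comap σ)^[b * n] p₀ := by
    have hmaps : Set.MapsTo (fun a : ℕ => (Ideal.comap σ)^[a * n] p₀) Set.univ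
        (I 0).minimalPrimes := by
      intro a _
      have := hD (a * n) 0 p₀ hp₀
      rwa [hper' a 0] at this
    obtain ⟨a, -, b, -, hne', h⟩ := Set.infinite_univ.exists_ne_map_eq_of_mapsTo hmaps (hfin 0)
    rcases lt_or_gt_of_ne hne' with h' | h'
    · exact ⟨a, b, h', h⟩
    · exact ⟨b, a, h', h.symm⟩
  have hfix : (Ideal.comap σ)^[(b - a) * n] p₀ = p₀ := by
    have hm := hD ((b - a) * n) 0 p₀ hp₀
    rw [hper' (b - a) 0] at hm
    refine hE (a * n) 0 _ hm _ hp₀ ?_
    rw [← Function.iterate_add_apply, heq, ← add_mul, show a + (b - a) = b by omega]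
  refine ⟨fun k => (Ideal.comap σ)^[k] p₀, (b - a) * n, Nat.mul_pos (by omega) hn, ?_, ?_, ?_, ?_,
    ?_⟩
  · intro k
    change (Ideal.comap σ)^[k + (b - a) * n] p₀ = _
    rw [Function.iterate_add_apply, hfix]
  · intro k
    have := hD k 0 p₀ hp₀
    exact this.1.1
  · intro k
    have := hD k 0 p₀ hp₀
    rw [zero_add] at this
    exact this.1.2
  · intro k
    exact (Function.iterate_succ_apply' (Ideal.comap σ) k p₀).symm
  · intro k q hq hqP hqne
    by_contra hμ
    have hk := hD k 0 p₀ hp₀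
    rw [zero_add] at hk
    have h8 := hC k _ hk
    have h9 : q.comap σ = ((Ideal.comap σ)^[k] p₀).comap σ := by
      rw [hqP]; exact Function.iterate_succ_apply' (Ideal.comap σ) k p₀
    have h10 := hA k _ h8.1 q hq h9 hμ
    have h11 := hC k q h10
    apply hqne
    rw [← h11.2, h9, h8.2]

end

end Pool.Agent.helper62.TS
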