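import Pool.Agent.helper62.TS.S1

/-!
# The group algebra (structure theorem for digit sets, part 2)
-/

set_option autoImplicit false

namespace Pool.Agent.helper62.TS

open AddMonoidAlgebra

variable {N : Type*} [AddCommGroup N]

/-- The basis element of the group algebra. -/
noncomputable def T (x : N) : AddMonoidAlgebra ℂ N := AddMonoidAlgebra.single x 1

theorem T_add (x y : N) : T (x + y) = T x * T y := by
  rw [T, T, T, AddMonoidAlgebra.single_mul_single, one_mul]

theorem T_zero : T (0 : N) = 1 := rfl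

theorem T_mul_neg (x : N) : T x * T (-x) = 1 := by rw [← T_add, add_neg_cancel, T_zero]

theorem T_neg_mul (x : N) : T (-x) * T x = 1 := by rw [← T_add, neg_add_cancel, T_zero]

theorem T_nsmul (j : ℕ) (x : N) : T (j • x) = T x ^ j := by
  induction j with
  | zero => rw [zero_nsmul, T_zero, pow_zero]
  | succ j ih => rw [succ_nsmul, T_add, ih, pow_succ]

theorem T_notMem {P : Ideal (AddMonoidAlgebra ℂ N)} (hP : P ≠ ⊤) (x : N) : T x ∉ P := by
  intro h
  apply hP
  rw [Ideal.eq_top_iff_one, ← T_mul_neg x]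
  exact P.mul_mem_right _ h

theorem single_eq (x : N) (c : ℂ) : AddMonoidAlgebra.single x c = c • T x := by
  rw [T, AddMonoidAlgebra.smul_single, smul_eq_mul, mul_one]

/-- Induction on the group algebra. -/
theorem alg_induction {p : AddMonoidAlgebra ℂ N → Prop} (hT : ∀ x, p (T x))
    (hadd : ∀ a b, p a → p b → p (a + b)) (hsmul : ∀ (c : ℂ) a, p a → p (c • a))
    (a : AddMonoidAlgebra ℂ N) : p a := by
  refine AddMonoidAlgebra.induction_on (motive := p) a ?_ hadd (fun c a ha => hsmul c a ha)
  intro x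
  exact hT x

variable (R : Module.End ℤ N)

/-- The ring endomorphism induced by `R`. -/
noncomputable def sig : AddMonoidAlgebra ℂ N →ₐ[ℂ] AddMonoidAlgebra ℂ N :=
  AddMonoidAlgebra.mapDomainAlgHom ℂ ℂ R.toAddMonoidHom

theorem sig_T (x : N) : sig R (T x) = T (R x) := by
  simp [sig, T]

theorem sig_injective (hR : Function.Injective R) : Function.Injective (sig R) := by
  intro a b h
  exact AddMonoidAlgebra.mapDomain_injective hR h

/-- Twisting by a character. -/
noncomputable def tw (χ : AddChar N ℂ) : AddMonoidAlgebra ℂ N →ₐ[ℂ] AddMonoidAlgebra ℂ N :=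
  AddMonoidAlgebra.lift ℂ _ N
    { toFun := fun x => χ x.toAdd • T x.toAdd
      map_one' := by
        change χ (0 : N) • T (0 : N) = 1
        rw [AddChar.map_zero_eq_one, one_smul, T_zero]
      map_mul' := fun x y => by
        change χ (x.toAdd + y.toAdd) • T (x.toAdd + y.toAdd) = _
        rw [AddChar.map_add_eq_mul, T_add, smul_mul_smul_comm] }

theorem tw_T (χ : AddChar N ℂ) (x : N) : tw χ (T x) = χ x • T x := by
  rw [tw, T, AddMonoidAlgebra.lift_single, one_smul]
  rfl

theorem alg_ext {f g : AddMonoidAlgebra ℂ N →ₐ[ℂ] AddMonoidAlgebra ℂ N}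
    (h : ∀ x, f (T x) = g (T x)) : f = g := by
  apply AlgHom.ext
  intro a
  induction a using alg_induction with
  | hT x => exact h x
  | hadd a b ha hb => rw [map_add, map_add, ha, hb]
  | hsmul c a ha => rw [map_smul, map_smul, ha]

theorem tw_one : tw (1 : AddChar N ℂ) = AlgHom.id ℂ _ := by
  apply alg_ext
  intro x
  rw [tw_T]
  simp

theorem tw_mul (χ ψ : AddChar N ℂ) : tw (χ * ψ) = (tw χ).comp (tw ψ) := by
  apply alg_ext
  intro x
  rw [tw_T, AlgHom.comp_apply, tw_T, map_smul, tw_T, smul_smul, AddChar.mul_apply, mul_comm]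

/-- The character `ψ ∘ R`. -/
noncomputable def chR (ψ : AddChar N ℂ) : AddChar N ℂ := ψ.compAddMonoidHom R.toAddMonoidHom

theorem chR_apply (ψ : AddChar N ℂ) (x : N) : chR R ψ x = ψ (R x) := rfl

theorem tw_sig (ψ : AddChar N ℂ) : (tw ψ).comp (sig R) = (sig R).comp (tw (chR R ψ)) := by
  apply alg_ext
  intro x
  rw [AlgHom.comp_apply, AlgHom.comp_apply, sig_T, tw_T, tw_T, map_smul, sig_T, chR_apply]

theorem tw_sig_one {ψ : AddChar N ℂ} (h : ∀ x, ψ (R x) = 1) :
    (tw ψ).comp (sig R) = sig R := by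
  have h1 : chR R ψ = 1 := DFunLike.ext _ _ fun x => by
    rw [chR_apply, h, AddChar.one_apply]
  rw [tw_sig, h1, tw_one, AlgHom.comp_id]

instance [Module.Finite ℤ N] : IsNoetherianRing (AddMonoidAlgebra ℂ N) := by
  have h : AddGroup.FG N := Module.Finite.iff_addGroup_fg.1 inferInstance
  have h' : AddMonoid.FG N := AddGroup.fg_iff_addMonoid_fg.1 h
  have : Algebra.FiniteType ℂ (AddMonoidAlgebra ℂ N) := inferInstance
  exact Algebra.FiniteType.isNoetherianRing ℂ _

end Pool.Agent.helper62.TS
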