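import Pool.Agent.helper62.TS.S2

/-!
# Fourier inversion and primes (structure theorem for digit sets, part 3)
-/

set_option autoImplicit false

namespace Pool.Agent.helper62.TS

open AddMonoidAlgebra Polynomial

theorem exists_over {A : Type*} [CommRing A] {σ : A →+* A} (hσ : σ.IsIntegral)
    (hinj : Function.Injective σ) (p : Ideal A) (hp : p.IsPrime) :
    ∃ q : Ideal A, q.IsPrime ∧ q.comap σ = p := by
  let _ : Algebra A A := σ.toAlgebra
  have : Algebra.IsIntegral A A := ⟨hσ⟩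
  have hle : (⊥ : Ideal A).comap (algebraMap A A) ≤ p := by
    intro a ha
    rw [Ideal.mem_comap, Ideal.mem_bot] at ha
    have h0 : a = 0 := hinj (by rw [map_zero]; exact ha)
    rw [h0]
    exact p.zero_mem
  obtain ⟨q, -, hq, hqp⟩ := Ideal.exists_ideal_over_prime_of_isIntegral p (⊥ : Ideal A) hle
  exact ⟨q, hq, hqp⟩

variable {N : Type*} [AddCommGroup N]

theorem sig_integral (R : Module.End ℤ N) [Finite (N ⧸ LinearMap.range R)] :
    (sig R).toRingHom.IsIntegral := by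
  intro a
  induction a using alg_induction with
  | hT x =>
    set j := Nat.card (N ⧸ LinearMap.range R) with hj
    have hj0 : j ≠ 0 := Nat.card_pos.ne'
    have h1 : j • x ∈ LinearMap.range R := by
      rw [← Submodule.Quotient.mk_eq_zero, Submodule.Quotient.mk_smul]
      exact card_nsmul_eq_zero'
    obtain ⟨y, hy⟩ := h1
    refine ⟨X ^ j - C (T y), monic_X_pow_sub_C _ hj0, ?_⟩
    rw [eval₂_sub, eval₂_X_pow, eval₂_C, ← T_nsmul, ← hy]
    change T (R y) - sig R (T y) = 0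
    rw [sig_T, sub_self]
  | hadd a b ha hb => exact RingHom.IsIntegralElem.add _ ha hb
  | hsmul c a ha =>
    have h2 : c • a = (sig R).toRingHom (algebraMap ℂ _ c) * a := by
      rw [Algebra.smul_def]
      congr 1
      exact ((sig R).commutes c).symm
    rw [h2]
    exact RingHom.IsIntegralElem.mul _ (RingHom.isIntegralElem_map _) ha

/-- Pull back of a character of a quotient. -/
noncomputable def pull (J : Submodule ℤ N) (ψ : AddChar (N ⧸ J) ℂ) : AddChar N ℂ :=
  ψ.compAddMonoidHom J.mkQ.toAddMonoidHom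

theorem pull_apply (J : Submodule ℤ N) (ψ : AddChar (N ⧸ J) ℂ) (x : N) :
    pull J ψ x = ψ (J.mkQ x) := rfl

theorem pull_eq_one (J : Submodule ℤ N) (ψ : AddChar (N ⧸ J) ℂ) {x : N} (hx : x ∈ J) :
    pull J ψ x = 1 := by
  rw [pull_apply, Submodule.mkQ_apply, (Submodule.Quotient.mk_eq_zero J).2 hx,
    AddChar.map_zero_eq_one]

open Classical in
/-- Fourier inversion. -/
theorem sum_tw (J : Submodule ℤ N) [Finite (N ⧸ J)] {ι : Type*} (s : Finset ι) (x : ι → N)
    (y : N) : ∑ ψ : AddChar (N ⧸ J) ℂ, pull J ψ y • tw (pull J ψ) (∑ i ∈ s, T (x i)) =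
      (Nat.card (N ⧸ J) : ℂ) • ∑ i ∈ s with x i + y ∈ J, T (x i) := by
  have := Fintype.ofFinite (N ⧸ J)
  simp_rw [map_sum, tw_T, Finset.smul_sum]
  rw [Finset.sum_comm, Finset.sum_filter]
  refine Finset.sum_congr rfl fun i _ => ?_
  have h1 : ∀ ψ : AddChar (N ⧸ J) ℂ, pull J ψ y • pull J ψ (x i) • T (x i) =
      ψ (J.mkQ (x i + y)) • T (x i) := by
    intro ψ
    rw [smul_smul, pull_apply, pull_apply, ← AddChar.map_add_eq_mul, ← map_add, add_comm y]
  simp_rw [h1]
  rw [← Finset.sum_smul, AddChar.sum_apply_eq_ite]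
  by_cases h : x i + y ∈ J
  · rw [if_pos h, if_pos, Nat.card_eq_fintype_card]
    rw [Submodule.mkQ_apply]
    exact (Submodule.Quotient.mk_eq_zero J).2 h
  · rw [if_neg h, if_neg, zero_smul]
    rw [Submodule.mkQ_apply]
    exact fun h' => h ((Submodule.Quotient.mk_eq_zero J).1 h')

/-- The element `μ`. -/
noncomputable def mu (M : Finset N) : AddMonoidAlgebra ℂ N := ∑ m ∈ M, T (-m)

theorem sum_tw_mu (R : Module.End ℤ N) [Finite (N ⧸ LinearMap.range R)] (M : Finset N)
    (hM : ∀ m ∈ M, ∀ m' ∈ M, ∀ y, m = m' + R y → m = m') {m₀ : N} (hm₀ : m₀ ∈ M) :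
    ∑ ψ : AddChar (N ⧸ LinearMap.range R) ℂ, pull _ ψ m₀ • tw (pull _ ψ) (mu M) =
      (Nat.card (N ⧸ LinearMap.range R) : ℂ) • T (-m₀) := by
  classical
  rw [mu, sum_tw]
  congr 1
  rw [Finset.sum_eq_single_of_mem m₀]
  · rw [Finset.mem_filter]
    exact ⟨hm₀, by rw [neg_add_cancel]; exact Submodule.zero_mem _⟩
  · intro m hm hne
    rw [Finset.mem_filter] at hm
    obtain ⟨hm, y, hy⟩ := hm
    exact absurd (hM m₀ hm₀ m hm y (by rw [hy]; abel)).symm hne

/-- There is an allowed prime over each prime. -/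
theorem exists_avoid (R : Module.End ℤ N) (hR : Function.Injective R)
    [Finite (N ⧸ LinearMap.range R)] (M : Finset N)
    (hM : ∀ m ∈ M, ∀ m' ∈ M, ∀ y, m = m' + R y → m = m') (hM0 : (0 : N) ∈ M)
    (p : Ideal (AddMonoidAlgebra ℂ N)) (hp : p.IsPrime) :
    ∃ q : Ideal (AddMonoidAlgebra ℂ N), q.IsPrime ∧ q.comap (sig R).toRingHom = p ∧ mu M ∉ q := by
  obtain ⟨q, hq, hqp⟩ := exists_over (sig_integral R) (sig_injective R hR) p hp
  by_contra hno
  push Not at hno
  have h1 : ∀ ψ : AddChar (N ⧸ LinearMap.range R) ℂ, tw (pull _ ψ) (mu M) ∈ q := by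
    intro ψ
    refine hno (q.comap (tw (pull _ ψ)).toRingHom) (Ideal.IsPrime.comap _) ?_
    rw [← hqp, Ideal.comap_comap]
    congr 1
    have := tw_sig_one R (ψ := pull _ ψ) fun x => pull_eq_one _ ψ ⟨x, rfl⟩
    exact congrArg AlgHom.toRingHom this
  have h2 := sum_tw_mu R M hM hM0
  rw [neg_zero, T_zero] at h2
  have h3 : (Nat.card (N ⧸ LinearMap.range R) : ℂ) • (1 : AddMonoidAlgebra ℂ N) ∈ q := by
    rw [← h2]
    refine Ideal.sum_mem _ fun ψ _ => ?_
    exact Submodule.smul_of_tower_mem q _ (h1 ψ)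
  have h4 : (Nat.card (N ⧸ LinearMap.range R) : ℂ) ≠ 0 := by
    exact_mod_cast Nat.card_pos.ne'
  apply hq.ne_top
  rw [Ideal.eq_top_iff_one]
  have h5 := Submodule.smul_of_tower_mem q (Nat.card (N ⧸ LinearMap.range R) : ℂ)⁻¹ h3
  rwa [smul_smul, inv_mul_cancel₀ h4, one_smul] at h5

end Pool.Agent.helper62.TS
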