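import Pool.Agent.helper62.TS.S3

/-!
# Stabilisers of primes (structure theorem for digit sets, part 4)
-/

set_option autoImplicit false

namespace Pool.Agent.helper62.TS

open AddMonoidAlgebra Polynomial

variable {N : Type*} [AddCommGroup N]

/-- The elements whose basis element is constant modulo `P`. -/
def Dl (P : Ideal (AddMonoidAlgebra ℂ N)) : Submodule ℤ N :=
  AddSubgroup.toIntSubmodule
  { carrier := {x | ∃ c : ℂ, T x - c • (1 : AddMonoidAlgebra ℂ N) ∈ P}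
    zero_mem' := ⟨1, by rw [T_zero, one_smul, sub_self]; exact P.zero_mem⟩
    add_mem' := by
      rintro x y ⟨c, hc⟩ ⟨d, hd⟩
      refine ⟨c * d, ?_⟩
      have h : T (x + y) - (c * d) • (1 : AddMonoidAlgebra ℂ N) =
          T y * (T x - c • 1) + c • (T y - d • 1) := by
        rw [T_add, mul_sub, smul_sub, mul_smul_comm, mul_one, mul_comm (T y), smul_smul]
        abel
      rw [h]
      exact P.add_mem (P.mul_mem_left _ hc) (Submodule.smul_of_tower_mem P c hd)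
    neg_mem' := by
      rintro x ⟨c, hc⟩
      by_cases h0 : c = 0
      · subst h0
        refine ⟨0, ?_⟩
        rw [zero_smul, sub_zero] at hc ⊢
        have : T (-x) = T (-x) * T (-x) * T x := by rw [mul_assoc, T_neg_mul, mul_one]
        rw [this]
        exact P.mul_mem_left _ hc
      · refine ⟨c⁻¹, ?_⟩
        have h : T (-x) - c⁻¹ • (1 : AddMonoidAlgebra ℂ N) =
            (-c⁻¹) • (T (-x) * (T x - c • 1)) := by
          rw [mul_sub, T_neg_mul, mul_smul_comm, mul_one, smul_sub, smul_smul, neg_mul,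
            inv_mul_cancel₀ h0, neg_smul, neg_smul, one_smul]
          abel
        rw [h]
        exact Submodule.smul_of_tower_mem P _ (P.mul_mem_left _ hc) }

theorem mem_Dl {P : Ideal (AddMonoidAlgebra ℂ N)} {x : N} :
    x ∈ Dl P ↔ ∃ c : ℂ, T x - c • (1 : AddMonoidAlgebra ℂ N) ∈ P := Iff.rfl

theorem mem_Dl_of_one {P : Ideal (AddMonoidAlgebra ℂ N)} {x : N}
    (h : T x - 1 ∈ P) : x ∈ Dl P := ⟨1, by rwa [one_smul]⟩

theorem Dl_comap (R : Module.End ℤ N) (P : Ideal (AddMonoidAlgebra ℂ N)) (x : N) :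
    R x ∈ Dl P ↔ x ∈ Dl (P.comap (sig R).toRingHom) := by
  rw [mem_Dl, mem_Dl]
  refine exists_congr fun c => ?_
  rw [Ideal.mem_comap]
  change _ ↔ sig R (T x - c • 1) ∈ P
  rw [map_sub, map_smul, map_one, sig_T]

theorem Dl_pure {P : Ideal (AddMonoidAlgebra ℂ N)} (hP : P.IsPrime) {j : ℕ} (hj : j ≠ 0) {x : N}
    (h : j • x ∈ Dl P) : x ∈ Dl P := by
  obtain ⟨c, hc⟩ := h
  set q := Ideal.Quotient.mkₐ ℂ P with hq
  set t := q (T x) with ht
  have h1 : t ^ j = algebraMap ℂ _ c := by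
    have h2 : q (T (j • x) - c • 1) = 0 := Ideal.Quotient.eq_zero_iff_mem.2 hc
    rw [T_nsmul, map_sub, map_pow, map_smul, map_one, sub_eq_zero] at h2
    rw [h2, Algebra.algebraMap_eq_smul_one]
  have h3 : IsIntegral ℂ t := by
    refine ⟨X ^ j - C c, monic_X_pow_sub_C _ hj, ?_⟩
    rw [eval₂_sub, eval₂_X_pow, eval₂_C, h1, sub_self]
  have h4 : (minpoly ℂ t).degree = 1 :=
    IsAlgClosed.degree_eq_one_of_irreducible ℂ (minpoly.irreducible h3)
  obtain ⟨d, hd⟩ := minpoly.mem_range_of_degree_eq_one ℂ t h4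
  refine ⟨d, ?_⟩
  have h5 : q (T x - d • 1) = 0 := by
    rw [map_sub, map_smul, map_one, ← Algebra.algebraMap_eq_smul_one, hd, ht, sub_self]
  exact Ideal.Quotient.eq_zero_iff_mem.1 h5

/-- `ψ` stabilises `P`. -/
def St (P : Ideal (AddMonoidAlgebra ℂ N)) (ψ : AddChar N ℂ) : Prop :=
  P.comap (tw ψ).toRingHom = P

theorem St_mem {P : Ideal (AddMonoidAlgebra ℂ N)} {ψ : AddChar N ℂ} (h : St P ψ)
    {a : AddMonoidAlgebra ℂ N} (ha : a ∈ P) : tw ψ a ∈ P := by
  rw [← h] at ha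
  exact ha

theorem St_one (P : Ideal (AddMonoidAlgebra ℂ N)) : St P 1 := by
  unfold St
  rw [tw_one]
  exact Ideal.comap_id P

theorem comap_tw_mul (P : Ideal (AddMonoidAlgebra ℂ N)) (χ ψ : AddChar N ℂ) :
    P.comap (tw (χ * ψ)).toRingHom = (P.comap (tw χ).toRingHom).comap (tw ψ).toRingHom := by
  rw [tw_mul, Ideal.comap_comap]
  rfl

theorem St_mul {P : Ideal (AddMonoidAlgebra ℂ N)} {χ ψ : AddChar N ℂ} (h : St P χ) (h' : St P ψ) :
    St P (χ * ψ) := by
  unfold St at *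
  rw [comap_tw_mul, h, h']

theorem St_inv {P : Ideal (AddMonoidAlgebra ℂ N)} {ψ : AddChar N ℂ} (h : St P ψ) :
    St P ψ⁻¹ := by
  unfold St at *
  have h1 := comap_tw_mul P ψ ψ⁻¹
  rw [h, mul_inv_cancel] at h1
  rw [← h1]
  exact St_one P

theorem St_apply {P : Ideal (AddMonoidAlgebra ℂ N)} (hP : P ≠ ⊤) {ψ : AddChar N ℂ}
    (h : St P ψ) {x : N} (hx : x ∈ Dl P) : ψ x = 1 := by
  obtain ⟨c, hc⟩ := hx
  have h1 := St_mem h hc
  rw [map_sub, map_smul, map_one, tw_T] at h1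
  have h2 := P.sub_mem (Submodule.smul_of_tower_mem P (ψ x) hc) h1
  have h3 : ψ x • (T x - c • (1 : AddMonoidAlgebra ℂ N)) - (ψ x • T x - c • 1) =
      (c * (1 - ψ x)) • (1 : AddMonoidAlgebra ℂ N) := by
    rw [smul_sub, smul_smul, mul_sub, mul_one, sub_smul, mul_comm c]
    abel
  rw [h3] at h2
  have h4 : ∀ d : ℂ, d • (1 : AddMonoidAlgebra ℂ N) ∈ P → d = 0 := by
    intro d hd
    by_contra hd0
    apply hP
    rw [Ideal.eq_top_iff_one]
    have := Submodule.smul_of_tower_mem P d⁻¹ hd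
    rwa [smul_smul, inv_mul_cancel₀ hd0, one_smul] at this
  rcases mul_eq_zero.1 (h4 _ h2) with h5 | h5
  · rw [h5, zero_smul, sub_zero] at hc
    exact absurd hc (T_notMem hP x)
  · exact (sub_eq_zero.1 h5).symm

/-- A digit system. -/
structure IsDS (R : Module.End ℤ N) (M : Finset N) : Prop where
  inj : Function.Injective R
  zero : (0 : N) ∈ M
  uniq : ∀ m ∈ M, ∀ m' ∈ M, ∀ y, m = m' + R y → m = m'
  cov : ∀ x, ∃ m ∈ M, ∃ y, x = m + R y

theorem IsDS.finite {R : Module.End ℤ N} {M : Finset N} (h : IsDS R M) :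
    Finite (N ⧸ LinearMap.range R) := by
  have hs : Function.Surjective fun m : M => (LinearMap.range R).mkQ (m : N) := by
    intro q
    obtain ⟨x, rfl⟩ := Submodule.mkQ_surjective _ q
    obtain ⟨m, hm, y, rfl⟩ := h.cov x
    refine ⟨⟨m, hm⟩, ?_⟩
    change (LinearMap.range R).mkQ m = _
    rw [map_add, left_eq_add, Submodule.mkQ_apply]
    exact (Submodule.Quotient.mk_eq_zero _).2 ⟨y, rfl⟩
  exact Finite.of_surjective _ hs

section

variable {R : Module.End ℤ N} {M : Finset N} (hM : IsDS R M)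

/-- Only `P` avoids `μ` among the primes with the same trace. -/
def Uni (R : Module.End ℤ N) (M : Finset N) (P : Ideal (AddMonoidAlgebra ℂ N)) : Prop :=
  ∀ q : Ideal (AddMonoidAlgebra ℂ N), q.IsPrime →
    q.comap (sig R).toRingHom = P.comap (sig R).toRingHom → q ≠ P → mu M ∈ q

include hM

theorem sub_mem_of_St {P : Ideal (AddMonoidAlgebra ℂ N)} (hP : P.IsPrime) (hu : Uni R M P)
    {m₀ m₁ : N} (hm₀ : m₀ ∈ M) (hm₁ : m₁ ∈ M)
    (h : ∀ ψ : AddChar (N ⧸ LinearMap.range R) ℂ, St P (pull _ ψ) →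
      pull _ ψ m₀ = pull _ ψ m₁) : T (m₁ - m₀) - 1 ∈ P := by
  have := hM.finite
  have h1 : ∀ ψ : AddChar (N ⧸ LinearMap.range R) ℂ,
      (pull _ ψ m₀ - pull _ ψ m₁) • tw (pull _ ψ) (mu M) ∈ P := by
    intro ψ
    by_cases hψ : St P (pull _ ψ)
    · rw [h ψ hψ, sub_self, zero_smul]
      exact P.zero_mem
    · refine Submodule.smul_of_tower_mem P _ ?_
      have h2 := hu (P.comap (tw (pull _ ψ)).toRingHom) (Ideal.IsPrime.comap _) ?_ hψ
      · exact h2
      · rw [Ideal.comap_comap]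
        congr 1
        exact congrArg AlgHom.toRingHom
          (tw_sig_one R (ψ := pull _ ψ) fun x => pull_eq_one _ ψ ⟨x, rfl⟩)
  have h3 : (Nat.card (N ⧸ LinearMap.range R) : ℂ) • (T (-m₀) - T (-m₁)) ∈ P := by
    rw [smul_sub, ← sum_tw_mu R M hM.uniq hm₀, ← sum_tw_mu R M hM.uniq hm₁,
      ← Finset.sum_sub_distrib]
    refine Ideal.sum_mem _ fun ψ _ => ?_
    rw [← sub_smul]
    exact h1 ψ
  have h4 : (Nat.card (N ⧸ LinearMap.range R) : ℂ) ≠ 0 := by
    exact_mod_cast Nat.card_pos.ne'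
  have h5 := Submodule.smul_of_tower_mem P (Nat.card (N ⧸ LinearMap.range R) : ℂ)⁻¹ h3
  rw [smul_smul, inv_mul_cancel₀ h4, one_smul] at h5
  have h6 := P.mul_mem_left (T m₁) h5
  rwa [mul_sub, ← T_add, T_mul_neg, ← sub_eq_add_neg] at h6

/-- The digit property. -/
theorem digit_mem {P : Ideal (AddMonoidAlgebra ℂ N)} (hP : P.IsPrime) (hu : Uni R M P)
    {m₀ m₁ δ y : N} (hm₀ : m₀ ∈ M) (hm₁ : m₁ ∈ M) (hδ : δ ∈ Dl P) (h : m₁ = m₀ + δ + R y) :
    T (m₁ - m₀) - 1 ∈ P := by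
  refine sub_mem_of_St hM hP hu hm₀ hm₁ fun ψ hψ => ?_
  rw [h, AddChar.map_add_eq_mul, AddChar.map_add_eq_mul, St_apply hP.ne_top hψ hδ,
    pull_eq_one _ ψ ⟨y, rfl⟩, mul_one, mul_one]

end

end Pool.Agent.helper62.TS
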