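import Pool.Agent.helper62.TS.S4
import Pool.Agent.helper62.TS.Basic

/-!
# The stabiliser is small (structure theorem for digit sets, part 5)
-/

set_option autoImplicit false

namespace Pool.Agent.helper62.TS

open AddMonoidAlgebra

/-- Separation by characters. -/
theorem exists_sep {Q : Type*} [AddCommGroup Q] [Finite Q] (Ξ : Set (AddChar Q ℂ))
    (h1 : 1 ∈ Ξ) (hmul : ∀ ψ ∈ Ξ, ∀ χ ∈ Ξ, ψ * χ ∈ Ξ) (hinv : ∀ ψ ∈ Ξ, ψ⁻¹ ∈ Ξ)
    {ψ₀ : AddChar Q ℂ} (h : ψ₀ ∉ Ξ) : ∃ x, (∀ ψ ∈ Ξ, ψ x = 1) ∧ ψ₀ x ≠ 1 := by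
  let S : AddSubgroup (AddChar Q ℂ) :=
    { carrier := Ξ
      zero_mem' := h1
      add_mem' := fun {a b} ha hb => hmul a ha b hb
      neg_mem' := fun {a} ha => hinv a ha }
  have h2 : (QuotientAddGroup.mk' S) ψ₀ ≠ 0 := by
    intro h3
    apply h
    exact (QuotientAddGroup.eq_zero_iff ψ₀).1 h3
  obtain ⟨θ, hθ⟩ := AddChar.exists_apply_ne_zero.2 h2
  obtain ⟨x, hx⟩ := AddChar.doubleDualEmb_bijective.2
    (θ.compAddMonoidHom (QuotientAddGroup.mk' S))
  refine ⟨x, fun ψ hψ => ?_, ?_⟩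
  · have h4 : AddChar.doubleDualEmb x ψ = θ ((QuotientAddGroup.mk' S) ψ) := by rw [hx]; rfl
    have h5 : (QuotientAddGroup.mk' S) ψ = 0 := (QuotientAddGroup.eq_zero_iff ψ).2 hψ
    rw [h5, AddChar.map_zero_eq_one] at h4
    exact h4
  · have h4 : AddChar.doubleDualEmb x ψ₀ = θ ((QuotientAddGroup.mk' S) ψ₀) := by rw [hx]; rfl
    rw [← h4] at hθ
    exact hθ

variable {N : Type*} [AddCommGroup N]

theorem pull_mul (J : Submodule ℤ N) (ψ χ : AddChar (N ⧸ J) ℂ) :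
    pull J (ψ * χ) = pull J ψ * pull J χ := by
  refine DFunLike.ext _ _ fun x => ?_
  rw [pull_apply, AddChar.mul_apply, AddChar.mul_apply, pull_apply, pull_apply]

theorem pull_one (J : Submodule ℤ N) : pull J 1 = 1 := by
  refine DFunLike.ext _ _ fun x => ?_
  rw [pull_apply, AddChar.one_apply, AddChar.one_apply]

theorem pull_inv (J : Submodule ℤ N) (ψ : AddChar (N ⧸ J) ℂ) :
    pull J ψ⁻¹ = (pull J ψ)⁻¹ := by
  refine DFunLike.ext _ _ fun x => ?_
  rw [pull_apply, AddChar.inv_apply, AddChar.inv_apply, pull_apply, (J.mkQ).map_neg]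

theorem exists_pull (J : Submodule ℤ N) (ψ₀ : AddChar N ℂ) (h : ∀ x ∈ J, ψ₀ x = 1) :
    ∃ ψ : AddChar (N ⧸ J) ℂ, pull J ψ = ψ₀ := by
  have hs : ∀ q : N ⧸ J, ∃ x, J.mkQ x = q := Submodule.mkQ_surjective J
  choose s hs using hs
  have key : ∀ q x, J.mkQ x = q → ψ₀ (s q) = ψ₀ x := by
    intro q x hx
    have h1 : s q - x ∈ J := by
      rw [← Submodule.Quotient.eq, ← Submodule.mkQ_apply, ← Submodule.mkQ_apply, hs, hx]
    have h2 : s q = x + (s q - x) := by abel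
    rw [h2, AddChar.map_add_eq_mul, h _ h1, mul_one]
  refine ⟨⟨fun q => ψ₀ (s q), ?_, fun p q => ?_⟩, ?_⟩
  · rw [key 0 0 (map_zero _), AddChar.map_zero_eq_one]
  · rw [key (p + q) (s p + s q) (by rw [map_add, hs, hs]), AddChar.map_add_eq_mul]
  · refine DFunLike.ext _ _ fun x => ?_
    exact key (J.mkQ x) x rfl

section

variable {R : Module.End ℤ N} {M : Finset N} (hM : IsDS R M)

include hM

theorem St_step {P : Ideal (AddMonoidAlgebra ℂ N)} (hP : P.IsPrime) (hu : Uni R M P)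
    {Δ : Submodule ℤ N} (hΔ : Dl P ≤ Δ) (ψ₀ : AddChar N ℂ) (h1 : ∀ x ∈ Δ, ψ₀ x = 1)
    (h2 : ∀ x, ψ₀ (R x) = 1) : St P ψ₀ := by
  have := hM.finite
  obtain ⟨ψ', rfl⟩ := exists_pull (LinearMap.range R) ψ₀ (by rintro _ ⟨x, rfl⟩; exact h2 x)
  by_contra hno
  have e1 : (1 : AddChar (N ⧸ LinearMap.range R) ℂ) ∈
      {ψ : AddChar (N ⧸ LinearMap.range R) ℂ | St P (pull _ ψ)} := by
    rw [Set.mem_setOf_eq, pull_one]
    exact St_one P
  have e2 : ∀ ψ ∈ {ψ : AddChar (N ⧸ LinearMap.range R) ℂ | St P (pull _ ψ)},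
      ∀ χ ∈ {ψ : AddChar (N ⧸ LinearMap.range R) ℂ | St P (pull _ ψ)},
      ψ * χ ∈ {ψ : AddChar (N ⧸ LinearMap.range R) ℂ | St P (pull _ ψ)} := by
    intro ψ hψ χ hχ
    rw [Set.mem_setOf_eq] at hψ hχ ⊢
    rw [pull_mul]
    exact St_mul hψ hχ
  have e3 : ∀ ψ ∈ {ψ : AddChar (N ⧸ LinearMap.range R) ℂ | St P (pull _ ψ)},
      ψ⁻¹ ∈ {ψ : AddChar (N ⧸ LinearMap.range R) ℂ | St P (pull _ ψ)} := by
    intro ψ hψ
    rw [Set.mem_setOf_eq] at hψ ⊢
    rw [pull_inv]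
    exact St_inv hψ
  obtain ⟨q, hq, hq0⟩ := exists_sep {ψ : AddChar (N ⧸ LinearMap.range R) ℂ | St P (pull _ ψ)}
    e1 e2 e3 (ψ₀ := ψ') hno
  obtain ⟨x, rfl⟩ := Submodule.mkQ_surjective _ q
  obtain ⟨m, hm, y, hy⟩ := hM.cov x
  have h3 : ∀ ψ : AddChar (N ⧸ LinearMap.range R) ℂ, pull _ ψ x = pull _ ψ m := by
    intro ψ
    rw [hy, AddChar.map_add_eq_mul, pull_eq_one _ ψ ⟨y, rfl⟩, mul_one]
  have h4 : T (m - 0) - 1 ∈ P := by
    refine sub_mem_of_St hM hP hu hM.zero hm fun ψ hψ => ?_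
    have h6 := hq ψ hψ
    rw [← pull_apply] at h6
    rw [← h3 ψ, AddChar.map_zero_eq_one, h6]
  rw [sub_zero] at h4
  apply hq0
  have h5 : pull _ ψ' x = 1 := by
    rw [h3 ψ']
    exact h1 m (hΔ (mem_Dl_of_one h4))
  rw [pull_apply] at h5
  exact h5

theorem St_all {P : ℕ → Ideal (AddMonoidAlgebra ℂ N)} (hP : ∀ k, (P k).IsPrime)
    (hc : ∀ k, (P k).comap (sig R).toRingHom = P (k + 1)) (hu : ∀ k, Uni R M (P k))
    {Δ : ℕ → Submodule ℤ N} (hΔ : ∀ k, Dl (P k) = Δ k) (j : ℕ) :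
    ∀ k (ψ : AddChar N ℂ), (∀ x ∈ Δ k, ψ x = 1) → (∀ x, ψ ((R ^ j) x) = 1) → St (P k) ψ := by
  have := hM.finite
  induction j with
  | zero =>
    intro k ψ _ h
    have h1 : ψ = 1 := DFunLike.ext _ _ fun x => by
      have := h x
      rw [pow_zero, Module.End.one_apply] at this
      rw [this, AddChar.one_apply]
    rw [h1]
    exact St_one _
  | succ j ih =>
    intro k ψ hψΔ hψR
    have hRΔ : ∀ x ∈ Δ (k + 1), R x ∈ Δ k := by
      intro x hx
      rw [← hΔ, ← hc, ← Dl_comap, hΔ] at hx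
      exact hx
    have h1 : St (P (k + 1)) (chR R ψ) := by
      refine ih (k + 1) _ (fun x hx => hψΔ _ (hRΔ x hx)) fun x => ?_
      rw [chR_apply, ← pow_succ_apply']
      exact hψR x
    -- the trace of the twisted primes
    have h2 : ∀ ψ' : AddChar (N ⧸ LinearMap.range R) ℂ,
        ((P k).comap (tw (ψ * pull _ ψ')).toRingHom).comap (sig R).toRingHom = P (k + 1) := by
      intro ψ'
      have h3 : (tw (ψ * pull _ ψ')).comp (sig R) = (sig R).comp (tw (chR R ψ)) := by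
        rw [tw_sig]
        congr 2
        refine DFunLike.ext _ _ fun x => ?_
        rw [chR_apply, chR_apply, AddChar.mul_apply, pull_eq_one _ ψ' ⟨x, rfl⟩, mul_one]
      rw [Ideal.comap_comap]
      have h4 : ((tw (ψ * pull _ ψ')).toRingHom).comp (sig R).toRingHom =
          ((sig R).toRingHom).comp (tw (chR R ψ)).toRingHom := congrArg AlgHom.toRingHom h3
      rw [h4, ← Ideal.comap_comap, hc]
      exact h1
    obtain ⟨ψ', hψ'⟩ : ∃ ψ' : AddChar (N ⧸ LinearMap.range R) ℂ, St (P k) (ψ * pull _ ψ') := by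
      by_contra hno
      push Not at hno
      have h5 : ∀ ψ' : AddChar (N ⧸ LinearMap.range R) ℂ,
          tw (ψ * pull _ ψ') (mu M) ∈ P k := by
        intro ψ'
        have hpr := hP k
        exact hu k _ (Ideal.IsPrime.comap _) ((h2 ψ').trans (hc k).symm) (hno ψ')
      have h6 := sum_tw_mu R M hM.uniq hM.zero
      rw [neg_zero, T_zero] at h6
      have h7 : (Nat.card (N ⧸ LinearMap.range R) : ℂ) • (1 : AddMonoidAlgebra ℂ N) ∈ P k := by
        have h8 : (Nat.card (N ⧸ LinearMap.range R) : ℂ) • (1 : AddMonoidAlgebra ℂ N) =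
            ∑ ψ' : AddChar (N ⧸ LinearMap.range R) ℂ, tw (ψ * pull _ ψ') (mu M) := by
          have h9 := congrArg (tw ψ) h6
          rw [map_smul, map_one, map_sum] at h9
          rw [← h9]
          refine Finset.sum_congr rfl fun ψ' _ => ?_
          rw [AddChar.map_zero_eq_one, one_smul, tw_mul, AlgHom.comp_apply]
        rw [h8]
        exact Ideal.sum_mem _ fun ψ' _ => h5 ψ'
      have h4 : (Nat.card (N ⧸ LinearMap.range R) : ℂ) ≠ 0 := by
        exact_mod_cast Nat.card_pos.ne'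
      apply (hP k).ne_top
      rw [Ideal.eq_top_iff_one]
      have h5 := Submodule.smul_of_tower_mem (P k) (Nat.card (N ⧸ LinearMap.range R) : ℂ)⁻¹ h7
      rwa [smul_smul, inv_mul_cancel₀ h4, one_smul] at h5
    have h3 : St (P k) (pull _ ψ') := by
      refine St_step hM (hP k) (hu k) (hΔ k).le _ (fun x hx => ?_)
        fun x => pull_eq_one _ ψ' ⟨x, rfl⟩
      have h4 := St_apply (hP k).ne_top hψ' (x := x) (by rw [hΔ]; exact hx)
      rwa [AddChar.mul_apply, hψΔ x hx, one_mul] at h4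
    have h4 := St_mul hψ' (St_inv h3)
    rwa [mul_assoc, mul_inv_cancel, mul_one] at h4

theorem finite_pow (j : ℕ) : Finite (N ⧸ LinearMap.range (R ^ j)) := by
  have hs : Function.Surjective fun m : En R (M : Set N) j =>
      (LinearMap.range (R ^ j)).mkQ (m : N) := by
    intro q
    obtain ⟨x, rfl⟩ := Submodule.mkQ_surjective _ q
    obtain ⟨y, e, he, rfl⟩ := exists_Mv (E := (M : Set N))
      (fun x => by obtain ⟨m, hm, y, h⟩ := hM.cov x; exact ⟨m, hm, y, h⟩) j x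
    refine ⟨⟨e, he⟩, ?_⟩
    change (LinearMap.range (R ^ j)).mkQ e = _
    rw [map_add, left_eq_add, Submodule.mkQ_apply]
    exact (Submodule.Quotient.mk_eq_zero _).2 ⟨y, rfl⟩
  have := (En_finite (R := R) M.finite_toSet j).to_subtype
  exact Finite.of_surjective _ hs

/-- The submodules `Dl (P k)` cannot be all equal to `Δ k`. -/
theorem Dl_strict {P : ℕ → Ideal (AddMonoidAlgebra ℂ N)} (hP : ∀ k, (P k).IsPrime)
    (hc : ∀ k, (P k).comap (sig R).toRingHom = P (k + 1)) (hu : ∀ k, Uni R M (P k))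
    {Δ : ℕ → Submodule ℤ N} (hΔ : ∀ k, Dl (P k) = Δ k) {ι : Type*} [Fintype ι] (f : ι → N)
    (i₀ : ι) (hf : ∑ i, T (f i) ∈ P 0) (j : ℕ)
    (hj : ∀ i, i ≠ i₀ → f i - f i₀ ∉ Δ 0 ⊔ LinearMap.range (R ^ j)) : False := by
  classical
  have := finite_pow hM j
  set J := Δ 0 ⊔ LinearMap.range (R ^ j) with hJ
  have hfin : Finite (N ⧸ J) := by
    have hle : LinearMap.range (R ^ j) ≤ J := le_sup_right
    exact Finite.of_surjective _ (Submodule.factor_surjective hle)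
  have h1 := sum_tw J Finset.univ f (-f i₀)
  rw [Finset.sum_eq_single_of_mem (s := Finset.univ.filter fun i => f i + -f i₀ ∈ J) i₀] at h1
  · have h2 : (Nat.card (N ⧸ J) : ℂ) • T (f i₀) ∈ P 0 := by
      rw [← h1]
      refine Ideal.sum_mem _ fun ψ _ => Submodule.smul_of_tower_mem _ _ ?_
      refine St_mem (St_all hM hP hc hu hΔ j 0 _ (fun x hx => ?_) fun x => ?_) hf
      · exact pull_eq_one _ ψ (Submodule.mem_sup_left hx)
      · exact pull_eq_one _ ψ (Submodule.mem_sup_right ⟨x, rfl⟩)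
    have h4 : (Nat.card (N ⧸ J) : ℂ) ≠ 0 := by exact_mod_cast Nat.card_pos.ne'
    have h5 := Submodule.smul_of_tower_mem (P 0) (Nat.card (N ⧸ J) : ℂ)⁻¹ h2
    rw [smul_smul, inv_mul_cancel₀ h4, one_smul] at h5
    exact T_notMem (hP 0).ne_top _ h5
  · rw [Finset.mem_filter]
    exact ⟨Finset.mem_univ _, by rw [add_neg_cancel]; exact J.zero_mem⟩
  · intro i hi hne
    rw [Finset.mem_filter, ← sub_eq_add_neg] at hi
    exact absurd hi.2 (hj i hne)

end

end Pool.Agent.helper62.TS
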