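import Pool.Agent.helper62.TS.Clique
import Pool.Agent.helper62.TS.S5

/-!
# Relative cliques (structure theorem for digit sets, part 6)
-/

set_option autoImplicit false

namespace Pool.Agent.helper62.TS

variable {N : Type*} [AddCommGroup N] {R : Module.End ℤ N} {M : Finset N}

/-- The digit of `x`. -/
noncomputable def IsDS.dg (h : IsDS R M) (x : N) : N := (h.cov x).choose

/-- The quotient of `x`. -/
noncomputable def IsDS.nx (h : IsDS R M) (x : N) : N := (h.cov x).choose_spec.2.choose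

theorem IsDS.dg_mem (h : IsDS R M) (x : N) : h.dg x ∈ M := (h.cov x).choose_spec.1

theorem IsDS.eq (h : IsDS R M) (x : N) : x = h.dg x + R (h.nx x) :=
  (h.cov x).choose_spec.2.choose_spec

theorem IsDS.unique (h : IsDS R M) {x m y : N} (hm : m ∈ M) (hx : x = m + R y) :
    h.dg x = m ∧ h.nx x = y := by
  have h1 : h.dg x = m := by
    refine h.uniq _ (h.dg_mem x) _ hm (y - h.nx x) ?_
    rw [map_sub, ← add_sub_assoc, ← hx]
    have := h.eq x
    rw [eq_sub_iff_add_eq]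
    exact this.symm
  refine ⟨h1, ?_⟩
  apply h.inj
  have h2 := h.eq x
  rw [h1] at h2
  exact add_left_cancel (h2.symm.trans hx)

theorem IsDS.nx_add (h : IsDS R M) (x w : N) : h.nx (x + R w) = h.nx x + w := by
  refine (h.unique (h.dg_mem x) ?_).2
  rw [map_add, ← add_assoc, ← h.eq x]

theorem IsDS.nx_zero (h : IsDS R M) : h.nx 0 = 0 :=
  (h.unique h.zero (by rw [map_zero, add_zero])).2

/-- `n` steps. -/
noncomputable def IsDS.ev (h : IsDS R M) (n : ℕ) (x : N) : N := h.nx^[n] x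

theorem IsDS.ev_zero (h : IsDS R M) (x : N) : h.ev 0 x = x := rfl

theorem IsDS.ev_succ (h : IsDS R M) (n : ℕ) (x : N) : h.ev (n + 1) x = h.ev n (h.nx x) := rfl

theorem IsDS.ev_succ' (h : IsDS R M) (n : ℕ) (x : N) : h.ev (n + 1) x = h.nx (h.ev n x) :=
  Function.iterate_succ_apply' _ _ _

theorem IsDS.ev_ev (h : IsDS R M) (n m : ℕ) (x : N) : h.ev m (h.ev n x) = h.ev (n + m) x := by
  rw [IsDS.ev, IsDS.ev, IsDS.ev, ← Function.iterate_add_apply, add_comm]

theorem IsDS.ev_add (h : IsDS R M) (n : ℕ) (x w : N) :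
    h.ev n (x + (R ^ n) w) = h.ev n x + w := by
  induction n generalizing x with
  | zero => simp [IsDS.ev_zero]
  | succ n ih => rw [h.ev_succ, h.ev_succ, pow_succ_apply', h.nx_add, ih]

theorem IsDS.ev_zero' (h : IsDS R M) (n : ℕ) : h.ev n 0 = 0 := by
  induction n with
  | zero => rfl
  | succ n ih => rw [h.ev_succ, h.nx_zero, ih]

theorem IsDS.mv (h : IsDS R M) (n : ℕ) (x : N) : Mv R (M : Set N) n x (h.ev n x) := by
  induction n generalizing x with
  | zero => exact Mv_zero x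
  | succ n ih =>
    rw [add_comm n 1]
    have h1 : Mv R (M : Set N) 1 x (h.nx x) := Mv_one (h.dg_mem x) (h.eq x)
    rw [add_comm 1 n, h.ev_succ, add_comm n 1]
    exact Mv_trans h1 (ih _)

/-- A sequence of submodules compatible with the digits. -/
structure GoodSeq (R : Module.End ℤ N) (M : Finset N) (Δ : ℕ → Submodule ℤ N) : Prop where
  comap : ∀ k x, R x ∈ Δ k ↔ x ∈ Δ (k + 1)
  digit : ∀ k, ∀ m₀ ∈ M, ∀ m₁ ∈ M, ∀ δ ∈ Δ k, ∀ y, m₁ = m₀ + δ + R y → m₁ - m₀ ∈ Δ k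
  per : ∃ n, 0 < n ∧ ∀ k, Δ (k + n) = Δ k
  pure : ∀ k (j : ℕ) x, j ≠ 0 → j • x ∈ Δ k → x ∈ Δ k

variable {Δ : ℕ → Submodule ℤ N}

theorem GoodSeq.nx_mem (hΔ : GoodSeq R M Δ) (h : IsDS R M) {k : ℕ} {x y : N} (hxy : x - y ∈ Δ k) :
    h.nx x - h.nx y ∈ Δ (k + 1) := by
  rw [← hΔ.comap, map_sub]
  have h1 : h.dg x - h.dg y ∈ Δ k := by
    refine hΔ.digit k _ (h.dg_mem y) _ (h.dg_mem x) _ hxy (h.nx y - h.nx x) ?_
    rw [map_sub]
    have e1 := h.eq x
    have e2 := h.eq y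
    calc h.dg x = x - R (h.nx x) := by rw [eq_sub_iff_add_eq]; exact e1.symm
      _ = y + (x - y) - R (h.nx x) := by abel_nf
      _ = (h.dg y + R (h.nx y)) + (x - y) - R (h.nx x) := by rw [← e2]
      _ = _ := by abel
  have h2 : R (h.nx x) - R (h.nx y) = (x - y) - (h.dg x - h.dg y) := by
    have e1 : R (h.nx x) = x - h.dg x := by
      rw [eq_sub_iff_add_eq, add_comm]; exact (h.eq x).symm
    have e2 : R (h.nx y) = y - h.dg y := by
      rw [eq_sub_iff_add_eq, add_comm]; exact (h.eq y).symm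
    rw [e1, e2]
    abel
  rw [h2]
  exact (Δ k).sub_mem hxy h1

theorem GoodSeq.ev_mem (hΔ : GoodSeq R M Δ) (h : IsDS R M) {k : ℕ} (n : ℕ) {x y : N}
    (hxy : x - y ∈ Δ k) : h.ev n x - h.ev n y ∈ Δ (k + n) := by
  induction n with
  | zero => exact hxy
  | succ n ih =>
    rw [h.ev_succ', h.ev_succ', ← add_assoc]
    exact hΔ.nx_mem h ih

theorem GoodSeq.pow_mem (hΔ : GoodSeq R M Δ) (j k : ℕ) {x : N} : (R ^ j) x ∈ Δ k ↔ x ∈ Δ (k + j) := by
  induction j generalizing k with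
  | zero => simp
  | succ j ih =>
    rw [pow_succ_apply', hΔ.comap, ih, show k + 1 + j = k + (j + 1) by omega]

/-- `x` and `y` can be merged modulo `Δ`. -/
def Mrg (h : IsDS R M) (Δ : ℕ → Submodule ℤ N) (k : ℕ) (x y : N) : Prop :=
  ∃ z n, h.ev n (x + z) - h.ev n (y + z) ∈ Δ (k + n)

/-- Cliques of level `k`. -/
def KC (h : IsDS R M) (Δ : ℕ → Submodule ℤ N) (k : ℕ) {ι : Type*} (f : ι → N) : Prop :=
  ∀ i j, i ≠ j → ¬ Mrg h Δ k (f i) (f j)

section

variable (h : IsDS R M)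

theorem Mrg_of_mem {k : ℕ} {x y : N} (hxy : x - y ∈ Δ k) : Mrg h Δ k x y :=
  ⟨0, 0, by simpa [IsDS.ev_zero] using hxy⟩

theorem Mrg_symm {k : ℕ} {x y : N} (hxy : Mrg h Δ k x y) : Mrg h Δ k y x := by
  obtain ⟨z, n, hz⟩ := hxy
  refine ⟨z, n, ?_⟩
  have := (Δ (k + n)).neg_mem hz
  rwa [neg_sub] at this

theorem Mrg_add {k : ℕ} {x y : N} (t : N) (hxy : Mrg h Δ k (x + t) (y + t)) :
    Mrg h Δ k x y := by
  obtain ⟨z, n, hz⟩ := hxy
  exact ⟨t + z, n, by rwa [← add_assoc, ← add_assoc]⟩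

theorem Mrg_ev {k : ℕ} {x y : N} (z : N) (n : ℕ)
    (hxy : Mrg h Δ (k + n) (h.ev n (x + z)) (h.ev n (y + z))) : Mrg h Δ k x y := by
  obtain ⟨z', n', hz⟩ := hxy
  refine ⟨z + (R ^ n) z', n + n', ?_⟩
  rw [← h.ev_add, ← h.ev_add, h.ev_ev, h.ev_ev] at hz
  rwa [← add_assoc, ← add_assoc, ← add_assoc]

theorem Mrg_R (hΔ : GoodSeq R M Δ) {k : ℕ} {x y : N} (hxy : Mrg h Δ k (R x) (R y)) :
    Mrg h Δ (k + 1) x y := by
  obtain ⟨z, n, hz⟩ := hxy
  cases n with
  | zero =>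
    refine Mrg_of_mem h ?_
    rw [h.ev_zero, h.ev_zero, add_sub_add_right_eq_sub, ← map_sub] at hz
    exact (hΔ.comap _ _).1 hz
  | succ n =>
    refine ⟨h.nx z, n, ?_⟩
    rw [h.ev_succ, h.ev_succ, add_comm (R x), add_comm (R y), h.nx_add, h.nx_add] at hz
    rwa [add_comm x, add_comm y, show k + 1 + n = k + (n + 1) by omega]

theorem KC_ev {k : ℕ} {ι : Type*} {f : ι → N} (hf : KC h Δ k f) (z : N) (n : ℕ) :
    KC h Δ (k + n) fun i => h.ev n (f i + z) :=
  fun i j hij hm => hf i j hij (Mrg_ev h z n hm)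

theorem KC_add {k : ℕ} {ι : Type*} {f : ι → N} (hf : KC h Δ k f) (t : N) :
    KC h Δ k fun i => f i + t :=
  fun i j hij hm => hf i j hij (Mrg_add h t hm)

theorem KC_R (hΔ : GoodSeq R M Δ) {k : ℕ} {ι : Type*} {f : ι → N} (hf : KC h Δ (k + 1) f) :
    KC h Δ k fun i => R (f i) :=
  fun i j hij hm => hf i j hij (Mrg_R h hΔ hm)

theorem KC_card_le {K : Set N} (hK : Absorb R (M : Set N) K) {k r : ℕ} {f : Fin r → N}
    (hf : KC h Δ k f) : r ≤ K.ncard := by
  choose n₀ hn₀ using hK.2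
  set n := Finset.univ.sup fun i => n₀ (f i) with hn
  have h1 : ∀ i, h.ev n (f i) ∈ K := fun i =>
    hn₀ (f i) n (Finset.le_sup (f := fun i => n₀ (f i)) (Finset.mem_univ i)) _ (h.mv n _)
  have h2 : Function.Injective fun i => h.ev n (f i) := by
    intro i j hij
    by_contra hne
    refine hf i j hne ⟨0, n, ?_⟩
    rw [add_zero, add_zero]
    have : h.ev n (f i) - h.ev n (f j) = 0 := sub_eq_zero.2 hij
    rw [this]
    exact Submodule.zero_mem _
  have h3 : (Set.range fun i => h.ev n (f i)).ncard ≤ K.ncard :=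
    Set.ncard_le_ncard (by rintro _ ⟨i, rfl⟩; exact h1 i) hK.1
  have h4 : (Set.range fun i => h.ev n (f i)).ncard = r := by
    rw [← Set.image_univ, Set.ncard_image_of_injective _ h2, Set.ncard_univ, Nat.card_fin]
  omega

/-- The rank. -/
def IsRk (Δ : ℕ → Submodule ℤ N) (r : ℕ) : Prop :=
  (∀ k, ∃ f : Fin r → N, KC h Δ k f) ∧ ∀ k r', (∃ f : Fin r' → N, KC h Δ k f) → r' ≤ r

theorem exists_Rk (hΔ : GoodSeq R M Δ) {K : Set N} (hK : Absorb R (M : Set N) K) :
    ∃ r, IsRk h Δ r := by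
  classical
  have hb : ∀ r, (∃ k, ∃ f : Fin r → N, KC h Δ k f) → r ≤ K.ncard := by
    rintro r ⟨k, f, hf⟩
    exact KC_card_le h hK hf
  have h0 : ∃ k, ∃ f : Fin 0 → N, KC h Δ k f := ⟨0, Fin.elim0, fun i => i.elim0⟩
  set r := Nat.findGreatest (fun r => ∃ k, ∃ f : Fin r → N, KC h Δ k f) K.ncard with hr
  have h1 : ∃ k, ∃ f : Fin r → N, KC h Δ k f :=
    Nat.findGreatest_spec (P := fun r => ∃ k, ∃ f : Fin r → N, KC h Δ k f) (Nat.zero_le _) h0
  refine ⟨r, ?_, ?_⟩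
  · obtain ⟨k₀, f, hf⟩ := h1
    obtain ⟨n, hn, hper⟩ := hΔ.per
    have hper' : ∀ a k, Δ (k + a * n) = Δ k := by
      intro a
      induction a with
      | zero => intro k; simp
      | succ a ih => intro k; rw [show k + (a + 1) * n = (k + a * n) + n by ring, hper, ih]
    intro k
    have h2 : k₀ ≤ k + k₀ * n := by nlinarith
    obtain ⟨d, hd⟩ := Nat.exists_eq_add_of_le h2
    refine ⟨fun i => h.ev d (f i + 0), fun i j hij hm => ?_⟩
    refine KC_ev h hf 0 d i j hij ?_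
    obtain ⟨z, m, hz⟩ := hm
    refine ⟨z, m, ?_⟩
    rw [← hd, show k + k₀ * n + m = (k + m) + k₀ * n by ring, hper']
    exact hz
  · intro k r' hr'
    exact Nat.le_findGreatest (hb r' ⟨k, hr'⟩) ⟨k, hr'⟩

theorem Rk_max {r : ℕ} (hr : IsRk h Δ r) {k : ℕ} {f : Fin r → N} (hf : KC h Δ k f) (x : N) :
    ∃ i, Mrg h Δ k x (f i) := by
  by_contra hno
  push Not at hno
  have h3 : KC h Δ k (Fin.cons x f : Fin (r + 1) → N) := by
    intro i j
    induction i using Fin.cases with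
    | zero =>
      induction j using Fin.cases with
      | zero => intro h; exact absurd rfl h
      | succ j => intro _; simpa using hno j
    | succ i =>
      induction j using Fin.cases with
      | zero => intro _ hm; exact hno i (Mrg_symm h (by simpa using hm))
      | succ j =>
        intro hij
        simpa using hf i j (fun e => hij (by rw [e]))
  have := hr.2 k _ ⟨_, h3⟩
  omega

/-- Full merging of a finite set. -/
theorem full_merge (hΔ : GoodSeq R M Δ) {r : ℕ} (hr : IsRk h Δ r) {k : ℕ} {f : Fin r → N}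
    (hf : KC h Δ k f) (A : Finset N) :
    ∃ z n, ∀ a ∈ A, ∃ i, h.ev n (a + z) - h.ev n (f i + z) ∈ Δ (k + n) := by
  classical
  induction A using Finset.induction_on with
  | empty => exact ⟨0, 0, by simp⟩
  | insert a A _ ih =>
    obtain ⟨z, n, hz⟩ := ih
    obtain ⟨i, z', n', hi⟩ := Rk_max h hr (KC_ev h hf z n) (h.ev n (a + z))
    refine ⟨z + (R ^ n) z', n + n', fun b hb => ?_⟩
    have key : ∀ x, h.ev (n + n') (x + (z + (R ^ n) z')) = h.ev n' (h.ev n (x + z) + z') := by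
      intro x
      rw [← h.ev_add, h.ev_ev, add_assoc]
    rcases Finset.mem_insert.1 hb with rfl | hb
    · refine ⟨i, ?_⟩
      rw [key, key, ← add_assoc]
      exact hi
    · obtain ⟨j, hj⟩ := hz b hb
      refine ⟨j, ?_⟩
      rw [key, key, ← add_assoc]
      refine hΔ.ev_mem h n' ?_
      rwa [add_sub_add_right_eq_sub]

end

end Pool.Agent.helper62.TS
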