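import Pool.Agent.helper62.TS.S6

/-!
# The ideals of cliques (structure theorem for digit sets, part 7)
-/

set_option autoImplicit false

namespace Pool.Agent.helper62.TS

open AddMonoidAlgebra

variable {N : Type*} [AddCommGroup N] {R : Module.End ℤ N} {M : Finset N}
  {Δ : ℕ → Submodule ℤ N}

/-- The generators. -/
def gens (h : IsDS R M) (Δ : ℕ → Submodule ℤ N) (r k : ℕ) : Set (AddMonoidAlgebra ℂ N) :=
  {a | (∃ f : Fin r → N, KC h Δ k f ∧ a = ∑ i, T (f i)) ∨ ∃ x ∈ Δ k, a = T x - 1}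

/-- The ideal of level `k`. -/
noncomputable def II (h : IsDS R M) (Δ : ℕ → Submodule ℤ N) (r k : ℕ) : Ideal (AddMonoidAlgebra ℂ N) :=
  Ideal.span (gens h Δ r k)

section

variable (h : IsDS R M)

theorem sig_mem (hΔ : GoodSeq R M Δ) (r k : ℕ) {a : AddMonoidAlgebra ℂ N}
    (ha : a ∈ II h Δ r (k + 1)) : (sig R).toRingHom a ∈ II h Δ r k := by
  have h1 : II h Δ r (k + 1) ≤ (II h Δ r k).comap (sig R).toRingHom := by
    rw [II, Ideal.span_le]
    rintro a (⟨f, hf, rfl⟩ | ⟨x, hx, rfl⟩)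
    · refine Ideal.subset_span (Or.inl ⟨fun i => R (f i), KC_R h hΔ hf, ?_⟩)
      change sig R (∑ i, T (f i)) = _
      rw [map_sum]
      exact Finset.sum_congr rfl fun i _ => sig_T R (f i)
    · refine Ideal.subset_span (Or.inr ⟨R x, (hΔ.comap k x).2 hx, ?_⟩)
      change sig R (T x - 1) = _
      rw [map_sub, map_one, sig_T]
  exact h1 ha

/-- Reindexing the digits. -/
theorem mu_mul_T (x : N) : mu M * T x = ∑ z ∈ M, T (-z) * sig R (T (h.nx (x + z))) := by
  classical
  have h1 : mu M * T x = ∑ m ∈ M, T (x - m) := by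
    rw [mu, Finset.sum_mul]
    refine Finset.sum_congr rfl fun m _ => ?_
    rw [← T_add, neg_add_eq_sub]
  have hinj : Set.InjOn (fun z => h.dg (x + z)) (M : Set N) := by
    intro z hz z' hz' hzz
    have e1 := h.eq (x + z)
    have e2 := h.eq (x + z')
    have hzz' : h.dg (x + z) = h.dg (x + z') := hzz
    refine h.uniq z hz z' hz' (h.nx (x + z) - h.nx (x + z')) ?_
    rw [map_sub]
    have e3 : z = h.dg (x + z) + R (h.nx (x + z)) - x := by rw [← e1]; abel
    have e4 : z' = h.dg (x + z') + R (h.nx (x + z')) - x := by rw [← e2]; abel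
    calc z = h.dg (x + z) + R (h.nx (x + z)) - x := e3
      _ = (h.dg (x + z') + R (h.nx (x + z')) - x) +
          (R (h.nx (x + z)) - R (h.nx (x + z'))) := by rw [hzz']; abel
      _ = _ := by rw [← e4]
  have hmaps : Set.MapsTo (fun z => h.dg (x + z)) (M : Set N) (M : Set N) :=
    fun z _ => h.dg_mem (x + z)
  have hsurj : Set.SurjOn (fun z => h.dg (x + z)) (M : Set N) (M : Set N) :=
    Finset.surjOn_of_injOn_of_card_le _ hmaps hinj le_rfl
  rw [h1]
  symm
  refine Finset.sum_nbij (fun z => h.dg (x + z)) hmaps hinj hsurj fun z hz => ?_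
  rw [sig_T, ← T_add]
  congr 1
  have e1 := h.eq (x + z)
  rw [neg_add_eq_sub, sub_eq_sub_iff_add_eq_add]
  rw [add_comm, ← e1]

theorem mu_mem (hΔ : GoodSeq R M Δ) (r k : ℕ) {a : AddMonoidAlgebra ℂ N}
    (ha : a ∈ II h Δ r k) : mu M * a ∈ (II h Δ r (k + 1)).map (sig R).toRingHom := by
  set J := (II h Δ r (k + 1)).map (sig R).toRingHom with hJ
  have hmap : ∀ b ∈ II h Δ r (k + 1), sig R b ∈ J := fun b hb =>
    Ideal.mem_map_of_mem (sig R).toRingHom hb
  have h1 : II h Δ r k ≤ Submodule.comap (LinearMap.mulLeft (AddMonoidAlgebra ℂ N) (mu M)) J := by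
    rw [II]
    refine Submodule.span_le.2 ?_
    rintro a (⟨f, hf, rfl⟩ | ⟨x, hx, rfl⟩)
    · change mu M * ∑ i, T (f i) ∈ J
      rw [Finset.mul_sum]
      simp_rw [mu_mul_T h]
      rw [Finset.sum_comm]
      refine Ideal.sum_mem _ fun z hz => ?_
      rw [← Finset.mul_sum, ← map_sum]
      refine J.mul_mem_left _ (hmap _ (Ideal.subset_span (Or.inl ⟨_, ?_, rfl⟩)))
      exact KC_ev h hf z 1
    · change mu M * (T x - 1) ∈ J
      rw [← T_zero, mul_sub, mu_mul_T h, mu_mul_T h, ← Finset.sum_sub_distrib]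
      refine Ideal.sum_mem _ fun z hz => ?_
      rw [← mul_sub, ← map_sub]
      refine J.mul_mem_left _ (hmap _ ?_)
      have h2 : h.nx (x + z) - h.nx (0 + z) ∈ Δ (k + 1) := by
        refine hΔ.nx_mem h ?_
        rw [add_sub_add_right_eq_sub, sub_zero]
        exact hx
      have h3 : T (h.nx (x + z)) - T (h.nx (0 + z)) =
          T (h.nx (0 + z)) * (T (h.nx (x + z) - h.nx (0 + z)) - 1) := by
        rw [mul_sub, ← T_add, mul_one]
        congr 2
        abel
      rw [h3]
      exact Ideal.mul_mem_left _ _ (Ideal.subset_span (Or.inr ⟨_, h2, rfl⟩))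
  exact h1 ha

end

/-! ### The ideals are proper -/

/-- The pairing with a function. -/
noncomputable def pr (φ : N → ℂ) (y : N) : AddMonoidAlgebra ℂ N →ₗ[ℂ] ℂ :=
  (Finsupp.linearCombination ℂ fun x => φ (y + x)) ∘ₗ
    (AddMonoidAlgebra.coeffLinearEquiv ℂ).toLinearMap

theorem pr_T (φ : N → ℂ) (y x : N) : pr φ y (T x) = φ (y + x) := by
  rw [pr, LinearMap.comp_apply]
  have : (AddMonoidAlgebra.coeffLinearEquiv ℂ).toLinearMap (T x) = Finsupp.single x (1 : ℂ) := rfl
  rw [this, Finsupp.linearCombination_single, one_smul]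

theorem pr_mul_T (φ : N → ℂ) (y s : N) (a : AddMonoidAlgebra ℂ N) :
    pr φ y (T s * a) = pr φ (y + s) a := by
  induction a using alg_induction with
  | hT x => rw [← T_add, pr_T, pr_T, add_assoc]
  | hadd a b ha hb => rw [mul_add, map_add, map_add, ha, hb]
  | hsmul c a ha => rw [mul_smul_comm, map_smul, map_smul, ha]

section

variable (h : IsDS R M)

/-- Test functions. -/
def Tst (h : IsDS R M) (Δ : ℕ → Submodule ℤ N) (r : ℕ) (A : Finset N) (φ : N → ℂ) : Prop :=
  (∀ g : Fin r → N, KC h Δ 0 g → (∀ i, g i ∈ A) → ∑ i, φ (g i) = 1) ∧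
    ∀ s ∈ A, ∀ x ∈ Δ 0, s + x ∈ A → φ (s + x) = φ s

theorem Tst_mono {r : ℕ} {A A' : Finset N} (hA : A ⊆ A') {φ : N → ℂ} (hφ : Tst h Δ r A' φ) :
    Tst h Δ r A φ :=
  ⟨fun g hg hgA => hφ.1 g hg fun i => hA (hgA i), fun s hs x hx hsx => hφ.2 s (hA hs) x hx (hA hsx)⟩

theorem II_pairing (r : ℕ) {a : AddMonoidAlgebra ℂ N} (ha : a ∈ II h Δ r 0) :
    ∀ y₁ y₂ : N, ∃ A : Finset N, ∀ φ, Tst h Δ r A φ → pr φ y₁ a = pr φ y₂ a := by
  classical
  rw [II] at ha
  induction ha using Submodule.span_induction with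
  | mem a ha =>
    intro y₁ y₂
    rcases ha with ⟨f, hf, rfl⟩ | ⟨x, hx, rfl⟩
    · refine ⟨(Finset.univ.image fun i => y₁ + f i) ∪ (Finset.univ.image fun i => y₂ + f i),
        fun φ hφ => ?_⟩
      simp_rw [map_sum, pr_T]
      have key : ∀ y, KC h Δ 0 fun i => y + f i := by
        intro y
        have := KC_add h hf y
        simpa [add_comm] using this
      rw [hφ.1 _ (key y₁) fun i => Finset.mem_union_left _
          (Finset.mem_image_of_mem (fun i => y₁ + f i) (Finset.mem_univ i)),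
        hφ.1 _ (key y₂) fun i => Finset.mem_union_right _
          (Finset.mem_image_of_mem (fun i => y₂ + f i) (Finset.mem_univ i))]
    · refine ⟨{y₁, y₁ + x, y₂, y₂ + x}, fun φ hφ => ?_⟩
      rw [← T_zero, map_sub, map_sub, pr_T, pr_T, pr_T, pr_T, add_zero, add_zero,
        hφ.2 y₁ (by simp) x hx (by simp), hφ.2 y₂ (by simp) x hx (by simp), sub_self, sub_self]
  | zero => exact fun y₁ y₂ => ⟨∅, fun φ _ => by rw [map_zero, map_zero]⟩
  | add a b _ _ iha ihb =>
    intro y₁ y₂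
    obtain ⟨A, hA⟩ := iha y₁ y₂
    obtain ⟨B, hB⟩ := ihb y₁ y₂
    refine ⟨A ∪ B, fun φ hφ => ?_⟩
    rw [map_add, map_add, hA φ (Tst_mono h Finset.subset_union_left hφ),
      hB φ (Tst_mono h Finset.subset_union_right hφ)]
  | smul b a _ iha =>
    rw [smul_eq_mul]
    induction b using alg_induction with
    | hT s =>
      intro y₁ y₂
      obtain ⟨A, hA⟩ := iha (y₁ + s) (y₂ + s)
      refine ⟨A, fun φ hφ => ?_⟩
      rw [pr_mul_T, pr_mul_T]
      exact hA φ hφ
    | hadd b c ihb ihc =>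
      intro y₁ y₂
      obtain ⟨A, hA⟩ := ihb y₁ y₂
      obtain ⟨B, hB⟩ := ihc y₁ y₂
      refine ⟨A ∪ B, fun φ hφ => ?_⟩
      rw [add_mul, map_add, map_add, hA φ (Tst_mono h Finset.subset_union_left hφ),
        hB φ (Tst_mono h Finset.subset_union_right hφ)]
    | hsmul c b ihb =>
      intro y₁ y₂
      obtain ⟨A, hA⟩ := ihb y₁ y₂
      refine ⟨A, fun φ hφ => ?_⟩
      rw [smul_mul_assoc, map_smul, map_smul, hA φ hφ]

theorem II_ne_top (hΔ : GoodSeq R M Δ) {r : ℕ} (hr : IsRk h Δ r) (hr2 : 2 ≤ r) :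
    II h Δ r 0 ≠ ⊤ := by
  classical
  intro htop
  have h1 : (1 : AddMonoidAlgebra ℂ N) ∈ II h Δ r 0 := by rw [htop]; exact Submodule.mem_top
  obtain ⟨f, hf⟩ := hr.1 0
  set i₀ : Fin r := ⟨0, by omega⟩ with hi₀
  set i₁ : Fin r := ⟨1, by omega⟩ with hi₁
  have hne : i₀ ≠ i₁ := by
    rw [hi₀, hi₁]
    intro hh
    have := congrArg Fin.val hh
    simp at this
  obtain ⟨A, hA⟩ := II_pairing h r h1 (f i₀) (f i₁)
  obtain ⟨z, n, hz⟩ := full_merge h hΔ hr hf A
  set φ : N → ℂ := fun a => if h.ev n (a + z) - h.ev n (f i₀ + z) ∈ Δ (0 + n) then 1 else 0 with hφ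
  have hT : Tst h Δ r A φ := by
    constructor
    · intro g hg hgA
      choose c hc using fun i => hz (g i) (hgA i)
      have hinj : Function.Injective c := by
        intro i j hij
        by_contra hne'
        refine hg i j hne' ⟨z, n, ?_⟩
        have := (Δ (0 + n)).sub_mem (hc i) (hc j)
        rw [hij] at this
        rwa [sub_sub_sub_cancel_right] at this
      have hbij := Finite.injective_iff_bijective.1 hinj
      obtain ⟨j, hj⟩ := hbij.2 i₀
      rw [Finset.sum_eq_single_of_mem j (Finset.mem_univ j)]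
      · rw [hφ]
        refine if_pos ?_
        have := hc j
        rwa [hj] at this
      · intro i _ hij
        rw [hφ]
        refine if_neg fun hmem => hij ?_
        apply hinj
        rw [hj]
        by_contra hne'
        refine hf (c i) i₀ hne' ⟨z, n, ?_⟩
        have := (Δ (0 + n)).sub_mem hmem (hc i)
        rwa [sub_sub_sub_cancel_left] at this
    · intro s _ x hx _
      have h2 : h.ev n (s + x + z) - h.ev n (s + z) ∈ Δ (0 + n) := by
        refine hΔ.ev_mem h n ?_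
        rw [show s + x + z - (s + z) = x by abel]
        exact hx
      rw [hφ]
      have h3 : (h.ev n (s + x + z) - h.ev n (f i₀ + z) ∈ Δ (0 + n)) ↔
          (h.ev n (s + z) - h.ev n (f i₀ + z) ∈ Δ (0 + n)) := by
        constructor
        · intro hh
          have := (Δ (0 + n)).sub_mem hh h2
          rwa [sub_sub_sub_cancel_left] at this
        · intro hh
          have := (Δ (0 + n)).add_mem h2 hh
          rwa [sub_add_sub_cancel] at this
      exact if_congr h3 rfl rfl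
  have h4 := hA φ hT
  rw [← T_zero, pr_T, pr_T, add_zero, add_zero] at h4
  have h5 : φ (f i₀) = 1 := by
    rw [hφ]
    refine if_pos ?_
    rw [sub_self]
    exact Submodule.zero_mem _
  have h6 : φ (f i₁) = 0 := by
    rw [hφ]
    exact if_neg fun hmem => hf i₁ i₀ hne.symm ⟨z, n, hmem⟩
  rw [h5, h6] at h4
  exact one_ne_zero h4

end

end Pool.Agent.helper62.TS
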