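import Pool.Agent.helper62.TS.S7

/-!
# Enlarging a good sequence (structure theorem for digit sets, part 8)
-/

set_option autoImplicit false

namespace Pool.Agent.helper62.TS

open AddMonoidAlgebra

variable {N : Type*} [AddCommGroup N] {R : Module.End ℤ N} {M : Finset N}
  {Δ : ℕ → Submodule ℤ N}

section

variable (h : IsDS R M)

theorem II_per (r n : ℕ) (hper : ∀ k, Δ (k + n) = Δ k) (k : ℕ) :
    II h Δ r (k + n) = II h Δ r k := by
  have h1 : ∀ x y, Mrg h Δ (k + n) x y ↔ Mrg h Δ k x y := by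
    intro x y
    refine exists_congr fun z => exists_congr fun m => ?_
    rw [show k + n + m = (k + m) + n by omega, hper]
  have h2 : gens h Δ r (k + n) = gens h Δ r k := by
    ext a
    constructor
    · rintro (⟨f, hf, rfl⟩ | ⟨x, hx, rfl⟩)
      · exact Or.inl ⟨f, fun i j hij hm => hf i j hij ((h1 _ _).2 hm), rfl⟩
      · exact Or.inr ⟨x, by rwa [hper] at hx, rfl⟩
    · rintro (⟨f, hf, rfl⟩ | ⟨x, hx, rfl⟩)
      · exact Or.inl ⟨f, fun i j hij hm => hf i j hij ((h1 _ _).1 hm), rfl⟩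
      · exact Or.inr ⟨x, by rwa [hper], rfl⟩
  rw [II, II, h2]

include h in
/-- Separation. -/
theorem separated (hΔ : GoodSeq R M Δ) {K : Set N} (hK : Absorb R (M : Set N) K) {x : N}
    (hx : x ∉ Δ 0) : ∃ j, x ∉ Δ 0 ⊔ LinearMap.range (R ^ j) := by
  classical
  by_contra hno
  push Not at hno
  -- all multiples of `x` have the same property
  have h1 : ∀ (a j : ℕ), a • x ∈ Δ 0 ⊔ LinearMap.range (R ^ j) := fun a j =>
    Submodule.smul_of_tower_mem _ a (hno j)
  have h2 : ∀ (y : N) (j : ℕ), y ∈ Δ 0 ⊔ LinearMap.range (R ^ j) →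
      y - (R ^ j) (h.ev j y) ∈ Δ 0 := by
    intro y j hy
    obtain ⟨δ, hδ, _, ⟨w, rfl⟩, rfl⟩ := Submodule.mem_sup.1 hy
    have h3 : h.ev j (δ + (R ^ j) w) = h.ev j δ + w := h.ev_add j δ w
    have h4 : h.ev j δ ∈ Δ (0 + j) := by
      have := hΔ.ev_mem h (k := 0) j (x := δ) (y := 0) (by rwa [sub_zero])
      rwa [h.ev_zero', sub_zero] at this
    have h5 : (R ^ j) (h.ev j δ) ∈ Δ 0 := (hΔ.pow_mem j 0).2 h4
    rw [h3, map_add, show δ + (R ^ j) w - ((R ^ j) (h.ev j δ) + (R ^ j) w) =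
      δ - (R ^ j) (h.ev j δ) by abel]
    exact (Δ 0).sub_mem hδ h5
  choose n₀ hn₀ using hK.2
  set j := (Finset.range (K.ncard + 1)).sup fun a => n₀ (a • x) with hj
  have h3 : ∀ a ∈ Finset.range (K.ncard + 1), h.ev j (a • x) ∈ hK.1.toFinset := by
    intro a ha
    rw [hK.1.mem_toFinset]
    exact hn₀ (a • x) j (Finset.le_sup (f := fun a => n₀ (a • x)) ha) _ (h.mv j _)
  have hcard : hK.1.toFinset.card < (Finset.range (K.ncard + 1)).card := by
    rw [Finset.card_range, ← Set.ncard_eq_toFinset_card K hK.1]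
    omega
  obtain ⟨a, ha, b, hb, hne, heq⟩ := Finset.exists_ne_map_eq_of_card_lt_of_maps_to hcard h3
  have key : ∀ a b : ℕ, a < b → h.ev j (a • x) = h.ev j (b • x) → False := by
    intro a b hab heq
    have h4 := (Δ 0).sub_mem (h2 _ j (h1 b j)) (h2 _ j (h1 a j))
    rw [heq, sub_sub_sub_cancel_right] at h4
    refine hx (hΔ.pure 0 (b - a) x (by omega) ?_)
    rwa [sub_nsmul x hab.le, ← sub_eq_add_neg]
  rcases lt_or_gt_of_ne hne with hab | hab
  · exact key a b hab heq
  · exact key b a hab heq.symm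

theorem range_pow_anti (R : Module.End ℤ N) {i j : ℕ} (hij : i ≤ j) :
    LinearMap.range (R ^ j) ≤ LinearMap.range (R ^ i) := by
  rintro _ ⟨x, rfl⟩
  obtain ⟨d, rfl⟩ := Nat.exists_eq_add_of_le hij
  exact ⟨(R ^ d) x, by rw [pow_add_apply]⟩

theorem enlarge [Module.Finite ℤ N] (hΔ : GoodSeq R M Δ) {K : Set N}
    (hK : Absorb R (M : Set N) K)
    (hgen : ∀ p : Submodule ℤ N, (∀ k, ∀ m ∈ M, (R ^ k) m ∈ p) → p = ⊤)
    {x y : N} (hxy : ¬ Mrg h Δ 0 x y) :
    ∃ Δ' : ℕ → Submodule ℤ N, GoodSeq R M Δ' ∧ (∀ k, Δ k ≤ Δ' k) ∧ Δ' 0 ≠ ⊤ ∧ ∃ k, Δ' k ≠ Δ k := by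
  classical
  obtain ⟨r, hr⟩ := exists_Rk h hΔ hK
  have hr2 : 2 ≤ r := by
    refine hr.2 0 2 ⟨![x, y], ?_⟩
    intro i j hij
    fin_cases i <;> fin_cases j
    · exact absurd rfl hij
    · exact hxy
    · exact fun hm => hxy (Mrg_symm h hm)
    · exact absurd rfl hij
  have hfin := h.finite
  obtain ⟨n, hn, hper⟩ := hΔ.per
  obtain ⟨P, n', hn', hPper, hPp, hIP, hPc, hPu⟩ := ring_cycle (sig R).toRingHom (sig_integral R)
    (mu M) (exists_avoid R h.inj M h.uniq h.zero) (II h Δ r) n hn (II_per h r n hper)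
    (fun k a ha => sig_mem h hΔ r k ha) (fun k a ha => mu_mem h hΔ r k ha)
    (II_ne_top h hΔ hr hr2)
  have hUni : ∀ k, Uni R M (P k) := by
    intro k q hq hqc hqne
    refine hPu k q hq ?_ hqne
    rw [hqc, hPc]
  obtain ⟨f, hf⟩ := hr.1 0
  have hf0 : ∑ i, T (f i) ∈ P 0 := hIP 0 (Ideal.subset_span (Or.inl ⟨f, hf, rfl⟩))
  have hΔP : ∀ k, ∀ δ ∈ Δ k, T δ - 1 ∈ P k := fun k δ hδ =>
    hIP k (Ideal.subset_span (Or.inr ⟨δ, hδ, rfl⟩))
  have hgood : GoodSeq R M fun k => Dl (P k) := by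
    refine ⟨fun k x => ?_, fun k m₀ hm₀ m₁ hm₁ δ hδ y hy => ?_, ⟨n', hn', fun k => ?_⟩,
      fun k j x hj hx => ?_⟩
    · rw [Dl_comap, hPc]
    · exact mem_Dl_of_one (digit_mem h (hPp k) (hUni k) hm₀ hm₁ hδ hy)
    · change Dl (P (k + n')) = Dl (P k)
      rw [hPper]
    · exact Dl_pure (hPp k) hj hx
  refine ⟨fun k => Dl (P k), hgood, fun k δ hδ => mem_Dl_of_one (hΔP k δ hδ), ?_, ?_⟩
  · -- not everything
    intro htop
    have h1 : ∀ k, Dl (P k) = ⊤ := by
      intro k
      rw [eq_top_iff]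
      intro x _
      have := (hgood.pow_mem k 0 (x := x)).1 (by
        change (R ^ k) x ∈ Dl (P 0)
        have htop' : Dl (P 0) = ⊤ := htop
        rw [htop']
        exact Submodule.mem_top)
      rwa [zero_add] at this
    have h2 : ∀ k, ∀ m ∈ M, T m - 1 ∈ P k := by
      intro k m hm
      have := digit_mem h (hPp k) (hUni k) h.zero hm (δ := m) (y := 0) (by
        rw [h1]; exact Submodule.mem_top) (by rw [map_zero, add_zero, zero_add])
      rwa [sub_zero] at this
    -- the augmentation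
    let p : Submodule ℤ N := AddSubgroup.toIntSubmodule
      { carrier := {x | T x - 1 ∈ P 0}
        zero_mem' := by
          change T (0 : N) - 1 ∈ P 0
          rw [T_zero, sub_self]; exact (P 0).zero_mem
        add_mem' := by
          intro x y hx hy
          have hx' : T x - 1 ∈ P 0 := hx
          have hy' : T y - 1 ∈ P 0 := hy
          change T (x + y) - 1 ∈ P 0
          have h3 : T (x + y) - 1 = T y * (T x - 1) + (T y - 1) := by
            rw [T_add, mul_sub, mul_one, mul_comm]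
            abel
          rw [h3]
          exact (P 0).add_mem ((P 0).mul_mem_left _ hx') hy'
        neg_mem' := by
          intro x hx
          have hx' : T x - 1 ∈ P 0 := hx
          change T (-x) - 1 ∈ P 0
          have h3 : T (-x) - 1 = -(T (-x) * (T x - 1)) := by
            rw [mul_sub, T_neg_mul, mul_one]
            abel
          rw [h3]
          exact (P 0).neg_mem ((P 0).mul_mem_left _ hx') }
    have hcomap : ∀ k, ∀ a, a ∈ P k → ((sig R).toRingHom ^ k) a ∈ P 0 := by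
      intro k
      induction k with
      | zero => intro a ha; simpa using ha
      | succ k ih =>
        intro a ha
        rw [← hPc k, Ideal.mem_comap] at ha
        rw [pow_succ]
        exact ih _ ha
    have hsigpow : ∀ k x, ((sig R).toRingHom ^ k) (T x) = T ((R ^ k) x) := by
      intro k
      induction k with
      | zero => intro x; simp
      | succ k ih =>
        intro x
        rw [pow_succ, pow_succ_apply]
        change ((sig R).toRingHom ^ k) (sig R (T x)) = _
        rw [sig_T, ih]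
    have hp : p = ⊤ := by
      refine hgen p fun k m hm => ?_
      change T ((R ^ k) m) - 1 ∈ P 0
      have := hcomap k _ (h2 k m hm)
      rwa [map_sub, map_one, hsigpow] at this
    have h4 : ∀ x, T x - 1 ∈ P 0 := by
      intro x
      have : x ∈ p := by rw [hp]; exact Submodule.mem_top
      exact this
    have h5 : ∑ i : Fin r, T (f i) - (r : ℂ) • (1 : AddMonoidAlgebra ℂ N) ∈ P 0 := by
      have h6 : ∑ i : Fin r, T (f i) - (r : ℂ) • (1 : AddMonoidAlgebra ℂ N) =
          ∑ i : Fin r, (T (f i) - 1) := by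
        rw [Finset.sum_sub_distrib, Finset.sum_const, Finset.card_univ, Fintype.card_fin]
        congr 1
        rw [← Nat.cast_smul_eq_nsmul ℂ]
      rw [h6]
      exact Ideal.sum_mem _ fun i _ => h4 (f i)
    have h6 := (P 0).sub_mem hf0 h5
    rw [sub_sub_cancel] at h6
    have h7 : (r : ℂ) ≠ 0 := by
      exact_mod_cast (by omega : r ≠ 0)
    have h8 := Submodule.smul_of_tower_mem (P 0) (r : ℂ)⁻¹ h6
    rw [smul_smul, inv_mul_cancel₀ h7, one_smul] at h8
    exact (hPp 0).ne_top ((Ideal.eq_top_iff_one _).2 h8)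
  · by_contra hno
    push Not at hno
    have hno' : ∀ k, Dl (P k) = Δ k := hno
    set i₀ : Fin r := ⟨0, by omega⟩ with hi₀
    have hsep : ∀ i, i ≠ i₀ → ∃ j, f i - f i₀ ∉ Δ 0 ⊔ LinearMap.range (R ^ j) := by
      intro i hi
      exact separated h hΔ hK fun hmem => hf i i₀ hi (Mrg_of_mem h hmem)
    choose! jj hjj using hsep
    set j := Finset.univ.sup jj with hj
    refine Dl_strict h hPp hPc hUni hno' f i₀ hf0 j fun i hi hmem => hjj i hi ?_
    exact (sup_le_sup_left (range_pow_anti R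
      (Finset.le_sup (f := jj) (Finset.mem_univ i))) _) hmem

end

end Pool.Agent.helper62.TS
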