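import Pool.Agent.helper62.TS.S8

/-!
# The structure theorem for digit sets (part 9)
-/

set_option autoImplicit false

namespace Pool.Agent.helper62.TS

variable {N : Type*} [AddCommGroup N] {R : Module.End ℤ N} {M : Finset N}

theorem per_mul {Δ : ℕ → Submodule ℤ N} {n : ℕ} (hper : ∀ k, Δ (k + n) = Δ k) (a k : ℕ) :
    Δ (k + a * n) = Δ k := by
  induction a generalizing k with
  | zero => simp
  | succ a ih => rw [show k + (a + 1) * n = (k + a * n) + n by ring, hper, ih]

/-- **Structure theorem.**  Let `M` be a complete system of representatives modulo `R` which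
generates the torsion free group `N ≠ 0`.  There is a proper submodule `H`, compatible with `R` and
with the digits, such that every element of `N` is congruent modulo `H` to a difference of two
elements of some `M + R M + ⋯ + R ^ (n - 1) M`. -/
theorem structure_thm [Module.Finite ℤ N] [Nontrivial N] (h : IsDS R M)
    (htf : ∀ (j : ℕ) (x : N), j ≠ 0 → j • x = 0 → x = 0) {K : Set N}
    (hK : Absorb R (M : Set N) K)
    (hgen : ∀ p : Submodule ℤ N, (∀ k, ∀ m ∈ M, (R ^ k) m ∈ p) → p = ⊤) :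
    ∃ H : Submodule ℤ N, H ≠ ⊤ ∧ (∀ x, R x ∈ H ↔ x ∈ H) ∧
      (∀ m₀ ∈ M, ∀ m₁ ∈ M, ∀ δ ∈ H, ∀ y, m₁ = m₀ + δ + R y → m₁ - m₀ ∈ H) ∧
      ∀ x, ∃ u ∈ UU R (M : Set N), ∃ δ ∈ H, x = u + δ := by
  classical
  set Q : Set (Submodule ℤ N) := {D | D ≠ ⊤ ∧ ∃ Δ : ℕ → Submodule ℤ N, GoodSeq R M Δ ∧ Δ 0 = D}
    with hQ
  have hne : Q.Nonempty := by
    refine ⟨⊥, bot_ne_top, fun _ => ⊥, ⟨fun k x => ?_, fun k m₀ hm₀ m₁ hm₁ δ hδ y hy => ?_,
      ⟨1, one_pos, fun k => rfl⟩, fun k j x hj hx => ?_⟩, rfl⟩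
    · rw [Submodule.mem_bot, Submodule.mem_bot]
      exact ⟨fun hx => h.inj (by rw [hx, map_zero]), fun hx => by rw [hx, map_zero]⟩
    · rw [Submodule.mem_bot] at hδ ⊢
      rw [hδ, add_zero] at hy
      rw [h.uniq m₁ hm₁ m₀ hm₀ y hy, sub_self]
    · rw [Submodule.mem_bot] at hx ⊢
      exact htf j x hj hx
  obtain ⟨D, ⟨hDtop, Δ, hΔ, rfl⟩, hmax⟩ :=
    (wellFounded_gt (α := Submodule ℤ N)).has_min Q hne
  -- everything can be merged
  have hM0 : ∀ x y, Mrg h Δ 0 x y := by
    intro x y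
    by_contra hxy
    obtain ⟨Δ', hΔ', hle, htop, k, hk⟩ := enlarge h hΔ hK hgen hxy
    have h0 : Δ' 0 = Δ 0 := by
      by_contra hne'
      exact hmax (Δ' 0) ⟨htop, Δ', hΔ', rfl⟩ (lt_of_le_of_ne (hle 0) (Ne.symm hne'))
    apply hk
    ext x
    have h1 := hΔ'.pow_mem k 0 (x := x)
    have h2 := hΔ.pow_mem k 0 (x := x)
    rw [zero_add] at h1 h2
    rw [← h1, ← h2, h0]
  have hMk : ∀ k x y, Mrg h Δ k x y := by
    intro k
    induction k with
    | zero => exact hM0
    | succ k ih => exact fun x y => Mrg_R h hΔ (ih (R x) (R y))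
  obtain ⟨n, hn, hper⟩ := hΔ.per
  have hper' := per_mul hper
  set H : Submodule ℤ N := ⨅ k, Δ k with hH
  have hHmem : ∀ x, x ∈ H ↔ ∀ k, x ∈ Δ k := fun x => by rw [hH, Submodule.mem_iInf]
  have hRH : ∀ x, R x ∈ H ↔ x ∈ H := by
    intro x
    rw [hHmem, hHmem]
    constructor
    · intro hx k
      have h1 := (hΔ.comap (k + n - 1) x).1 (hx _)
      rwa [show k + n - 1 + 1 = k + n by omega, hper] at h1
    · intro hx k
      exact (hΔ.comap k x).2 (hx _)
  refine ⟨H, ?_, hRH, ?_, ?_⟩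
  · intro htop
    apply hDtop
    rw [eq_top_iff]
    intro x _
    exact (hHmem x).1 (by rw [htop]; exact Submodule.mem_top) 0
  · intro m₀ hm₀ m₁ hm₁ δ hδ y hy
    rw [hHmem] at hδ ⊢
    exact fun k => hΔ.digit k m₀ hm₀ m₁ hm₁ δ (hδ k) y hy
  · intro x
    have key : ∀ j, ∃ z m, ∀ k < j, h.ev m (x + z) - h.ev m (0 + z) ∈ Δ (k + m) := by
      intro j
      induction j with
      | zero => exact ⟨0, 0, fun k hk => absurd hk (Nat.not_lt_zero k)⟩
      | succ j ih =>
        obtain ⟨z, m, hz⟩ := ih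
        obtain ⟨z', n', hz'⟩ := hMk (j + m) (h.ev m (x + z)) (h.ev m (0 + z))
        refine ⟨z + (R ^ m) z', m + n', fun k hk => ?_⟩
        have key : ∀ x, h.ev (m + n') (x + (z + (R ^ m) z')) = h.ev n' (h.ev m (x + z) + z') := by
          intro x
          rw [← h.ev_add, h.ev_ev, add_assoc]
        rw [key, key, ← add_assoc]
        rcases Nat.lt_succ_iff_lt_or_eq.1 hk with hk | rfl
        · refine hΔ.ev_mem h n' ?_
          rw [add_sub_add_right_eq_sub]
          exact hz k hk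
        · exact hz'
    obtain ⟨z, m, hz⟩ := key n
    set d := h.ev m (x + z) - h.ev m (0 + z) with hd
    have hd1 : ∀ k, d ∈ Δ (k + m) := by
      intro k
      have h1 := hz (k % n) (Nat.mod_lt k hn)
      have h2 : k + m = (k % n + m) + (k / n) * n := by
        have := Nat.div_add_mod k n
        rw [mul_comm n] at this
        omega
      rw [h2, hper']
      exact h1
    have hdH : d ∈ H := by
      rw [hHmem]
      intro k
      have h1 := hd1 (k + m * n - m)
      have h2 : k + m * n - m + m = k + m * n := by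
        have : m ≤ m * n := Nat.le_mul_of_pos_right m hn
        omega
      rwa [h2, hper'] at h1
    obtain ⟨e, he, h1⟩ := h.mv m (x + z)
    obtain ⟨e', he', h2⟩ := h.mv m (0 + z)
    have hpow : ∀ (j : ℕ) (y : N), y ∈ H → (R ^ j) y ∈ H := by
      intro j
      induction j with
      | zero => intro y hy; simpa using hy
      | succ j ih => intro y hy; rw [pow_succ_apply']; exact (hRH _).2 (ih y hy)
    refine ⟨e - e', ⟨m, e, he, e', he', rfl⟩, (R ^ m) d, hpow m d hdH, ?_⟩
    have h3 : x = (x + z) - (0 + z) := by abel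
    rw [hd, map_sub]
    calc x = (x + z) - (0 + z) := h3
      _ = (e + (R ^ m) (h.ev m (x + z))) - (e' + (R ^ m) (h.ev m (0 + z))) := by
          rw [← h1, ← h2]
      _ = _ := by abel

end Pool.Agent.helper62.TS
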