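import Pool.Agent.helper62.TS.Sub
import Pool.Agent.helper62.TS.S9

/-!
# The algebraic part of the T-strong open set condition
-/

set_option autoImplicit false

namespace Pool.Agent.helper62.TS

variable {L : Type*} [AddCommGroup L] {R : Module.End ℤ L}

theorem pow_mem_of {p : Submodule ℤ L} (hp : ∀ x, x ∈ p → R x ∈ p) (k : ℕ) {x : L} (hx : x ∈ p) :
    (R ^ k) x ∈ p := by
  induction k with
  | zero => simpa using hx
  | succ k ih => rw [pow_succ_apply']; exact hp _ ih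

theorem spanR_le {D : Set L} {p : Submodule ℤ L} (hp : ∀ x, x ∈ p → R x ∈ p) (hD : D ⊆ p) :
    spanR R D ≤ p := by
  rw [spanR, Submodule.span_le]
  rintro _ ⟨k, d, hd, rfl⟩
  exact pow_mem_of hp k (hD hd)

/-- The submodule generated by `B` is saturated in `N`. -/
theorem relsat (hfin : ∀ E : Set L, E.Finite → ∃ K, Absorb R E K)
    {B : Set L} (hBf : B.Finite) (hB0 : (0 : L) ∈ B) {N : Submodule ℤ L}
    (hNR : ∀ x, R x ∈ N ↔ x ∈ N)
    (hNd : ∀ b ∈ B, ∀ δ ∈ N, ∃ b' ∈ B, ∃ y, b + δ = b' + R y ∧ b' - b ∈ N) (hBN : B ⊆ N)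
    (x : L) (hx : x ∈ N) (hRx : R x ∈ spanR R B) : x ∈ spanR R B := by
  have hNst : ∀ x, x ∈ N → R x ∈ N := fun x hx => (hNR x).2 hx
  obtain ⟨K, hK⟩ := hfin B hBf
  set p₁ : Submodule ℤ N := (spanR R B).comap N.subtype with hp₁
  have hRp : ∀ x, x ∈ p₁ → R.restrict hNst x ∈ p₁ := fun x hx => spanR_map B (x : L) hx
  have hcov : ∀ x : N, ∃ e ∈ (((↑) : N → L) ⁻¹' B), ∃ y, x = e + R.restrict hNst y := by
    intro x
    obtain ⟨b', hb', y, h1, h2⟩ := hNd 0 hB0 x x.2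
    rw [zero_add] at h1
    have hy : y ∈ N := by
      rw [← hNR]
      have : R y = x - b' := by rw [h1]; abel
      rw [this]
      exact N.sub_mem x.2 (hBN hb')
    exact ⟨⟨b', hBN hb'⟩, hb', ⟨y, hy⟩, Subtype.ext h1⟩
  have hE : (((↑) : N → L) ⁻¹' B) ⊆ p₁ := fun b hb => subset_spanR B hb
  have hfi : Finite (N ⧸ p₁) := finite_index hE hRp hcov (Absorb_restrict hNst hK)
  have hsat := saturated (p := p₁) hRp (fun x => by
    obtain ⟨e, he, y, hy⟩ := hcov x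
    exact ⟨e, hE he, y, hy⟩)
  exact hsat ⟨x, hx⟩ hRx

/-- The structure theorem applied to the submodule generated by `B`. -/
theorem exists_H [Module.Finite ℤ L] (htf : ∀ (j : ℕ) (x : L), j ≠ 0 → j • x = 0 → x = 0)
    (hR : Function.Injective R) (hfin : ∀ E : Set L, E.Finite → ∃ K, Absorb R E K)
    {B : Set L} (hBf : B.Finite) (hB0 : (0 : L) ∈ B) (hBi : Inj R B) (hB2 : ∃ b ∈ B, b ≠ 0)
    {N : Submodule ℤ L} (hNR : ∀ x, R x ∈ N ↔ x ∈ N)
    (hNd : ∀ b ∈ B, ∀ δ ∈ N, ∃ b' ∈ B, ∃ y, b + δ = b' + R y ∧ b' - b ∈ N) (hBN : B ⊆ N) :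
    ∃ H : Submodule ℤ L, H ≤ spanR R B ∧ (∀ x, R x ∈ H ↔ x ∈ H) ∧
      (∀ b ∈ B, ∀ δ ∈ H, ∃ b' ∈ B, ∃ y, b + δ = b' + R y ∧ b' - b ∈ H) ∧
      (∀ x ∈ spanR R B, ∃ u ∈ UU R B, x - u ∈ H) ∧ ∃ b ∈ B, b ∉ H := by
  classical
  have hnoeth : IsNoetherian ℤ L := isNoetherian_of_isNoetherianRing_of_finite ℤ L
  set N' := spanR R B with hN'
  have hN'N : N' ≤ N := spanR_le (fun x hx => (hNR x).2 hx) hBN
  have hsat := relsat hfin hBf hB0 hNR hNd hBN
  have hst : ∀ x, x ∈ N' → R x ∈ N' := spanR_map B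
  set R₂ := R.restrict hst with hR₂
  have hpre : (((↑) : N' → L) ⁻¹' B).Finite :=
    hBf.preimage (Set.injOn_of_injective Subtype.val_injective)
  set M : Finset N' := hpre.toFinset with hM
  have hMmem : ∀ m : N', m ∈ M ↔ (m : L) ∈ B := fun m => by rw [hM, hpre.mem_toFinset]; rfl
  have hMset : (M : Set N') = (((↑) : N' → L) ⁻¹' B) := hpre.coe_toFinset
  have hds : IsDS R₂ M := by
    refine ⟨fun x y h => Subtype.ext (hR (congrArg Subtype.val h)), ?_, ?_, ?_⟩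
    · rw [hMmem]
      exact hB0
    · intro m hm m' hm' y h
      rw [hMmem] at hm hm'
      exact Subtype.ext (hBi m hm m' hm' y (congrArg Subtype.val h))
    · intro x
      obtain ⟨b', hb', y, h1, h2⟩ := hNd 0 hB0 x (hN'N x.2)
      rw [zero_add] at h1
      have hRy : R y = x - b' := by rw [h1]; abel
      have hyN : y ∈ N := by
        rw [← hNR, hRy]
        exact N.sub_mem (hN'N x.2) (hBN hb')
      have hy : y ∈ N' := by
        refine hsat y hyN ?_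
        rw [hRy]
        exact N'.sub_mem x.2 (subset_spanR B hb')
      exact ⟨⟨b', subset_spanR B hb'⟩, (hMmem _).2 hb', ⟨y, hy⟩, Subtype.ext h1⟩
  obtain ⟨K, hK⟩ := hfin B hBf
  have hK₂ : Absorb R₂ (M : Set N') (((↑) : N' → L) ⁻¹' K) := by
    rw [hMset]
    exact Absorb_restrict hst hK
  have hgen : ∀ p : Submodule ℤ N', (∀ k, ∀ m ∈ M, (R₂ ^ k) m ∈ p) → p = ⊤ := by
    intro p hp
    rw [eq_top_iff]
    rintro ⟨x, hx⟩ -
    refine Submodule.span_induction (p := fun x hx => (⟨x, hx⟩ : N') ∈ p) ?_ ?_ ?_ ?_ hx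
    · rintro x ⟨k, d, hd, rfl⟩
      have h1 := hp k ⟨d, subset_spanR B hd⟩ ((hMmem _).2 hd)
      convert h1 using 1
      exact Subtype.ext (restrict_pow_coe hst k ⟨d, subset_spanR B hd⟩).symm
    · exact p.zero_mem
    · intro x y hx hy h1 h2
      exact p.add_mem h1 h2
    · intro a x hx h1
      exact p.smul_mem a h1
  have hnt : Nontrivial N' := by
    obtain ⟨b, hb, hb0⟩ := hB2
    exact ⟨⟨b, subset_spanR B hb⟩, 0, fun h => hb0 (congrArg Subtype.val h)⟩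
  have htf' : ∀ (j : ℕ) (x : N'), j ≠ 0 → j • x = 0 → x = 0 := fun j x hj hx =>
    Subtype.ext (htf j x hj (by
      have := congrArg Subtype.val hx
      simpa using this))
  obtain ⟨H₂, htop, hH₂R, hH₂d, hH₂U⟩ := structure_thm hds htf' hK₂ hgen
  refine ⟨H₂.map N'.subtype, ?_, ?_, ?_, ?_, ?_⟩
  · rintro _ ⟨y, -, rfl⟩
    exact y.2
  · intro x
    constructor
    · rintro ⟨y, hy, hxy⟩
      have hRx : R x ∈ N' := by rw [← hxy]; exact y.2
      have hxN : x ∈ N := (hNR x).1 (hN'N hRx)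
      have hx : x ∈ N' := hsat x hxN hRx
      refine ⟨⟨x, hx⟩, (hH₂R _).1 ?_, rfl⟩
      have : R₂ ⟨x, hx⟩ = y := Subtype.ext hxy.symm
      rw [this]
      exact hy
    · rintro ⟨y, hy, rfl⟩
      exact ⟨R₂ y, (hH₂R y).2 hy, rfl⟩
  · rintro b hb _ ⟨δ, hδ, rfl⟩
    have hbN : b ∈ N' := subset_spanR B hb
    obtain ⟨m₁, hm₁, y, h1⟩ := hds.cov (⟨b, hbN⟩ + δ)
    refine ⟨m₁, (hMmem _).1 hm₁, y, congrArg Subtype.val h1, ?_⟩
    have h2 : m₁ = ⟨b, hbN⟩ + δ + R₂ (-y) := by rw [h1, map_neg]; abel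
    have h3 := hH₂d ⟨b, hbN⟩ ((hMmem _).2 hb) m₁ hm₁ δ hδ (-y) h2
    exact ⟨_, h3, rfl⟩
  · intro x hx
    obtain ⟨u, ⟨n, e, he, e', he', rfl⟩, δ, hδ, h1⟩ := hH₂U ⟨x, hx⟩
    rw [hMset] at he he'
    refine ⟨(e : L) - e', ⟨n, e, mem_En_restrict hst B n e he, e',
      mem_En_restrict hst B n e' he', rfl⟩, δ, hδ, ?_⟩
    have h2 : x = (e - e' : L) + δ := congrArg Subtype.val h1
    rw [h2]
    change (δ : L) = _
    abel
  · by_contra hno
    push Not at hno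
    apply htop
    refine hgen H₂ fun k m hm => ?_
    have h1 : m ∈ H₂ := by
      obtain ⟨y, hy, hym⟩ := hno m ((hMmem m).1 hm)
      have : m = y := Subtype.ext hym.symm
      rw [this]
      exact hy
    exact pow_mem_of (fun x hx => (hH₂R x).2 hx) k h1

end Pool.Agent.helper62.TS
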