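import Pool.Agent.helper62.TS.Lift3

/-!
# Restriction to submodules, and the submodule of points without exits
-/

set_option autoImplicit false

namespace Pool.Agent.helper62.TS

variable {L : Type*} [AddCommGroup L] {R : Module.End ℤ L}

section Sub

variable {p : Submodule ℤ L} (hp : ∀ x, x ∈ p → R x ∈ p)

theorem Absorb_restrict {E K : Set L} (hK : Absorb R E K) :
    Absorb (R.restrict hp) (((↑) : p → L) ⁻¹' E) (((↑) : p → L) ⁻¹' K) := by
  refine ⟨hK.1.preimage (Set.injOn_of_injective Subtype.val_injective), fun x => ?_⟩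
  obtain ⟨n₀, hn₀⟩ := hK.2 (x : L)
  exact ⟨n₀, fun n hn y hy => hn₀ n hn y (Mv_of_restrict hp hy)⟩

theorem fin_restrict (hfin : ∀ E : Set L, E.Finite → ∃ K, Absorb R E K) (E : Set p)
    (hE : E.Finite) : ∃ K, Absorb (R.restrict hp) E K := by
  obtain ⟨K, hK⟩ := hfin (((↑) : p → L) '' E) (hE.image _)
  have := Absorb_restrict hp hK
  rw [Set.preimage_image_eq _ Subtype.val_injective] at this
  exact ⟨_, this⟩

theorem En_coe {E : Set p} (n : ℕ) : ∀ x ∈ En (R.restrict hp) E n,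
    (x : L) ∈ En R (((↑) : p → L) '' E) n := by
  induction n with
  | zero =>
    intro x hx
    rw [mem_En_zero] at hx
    rw [hx]
    rfl
  | succ n ih =>
    rintro _ ⟨e, he, y, hy, rfl⟩
    exact ⟨e, ⟨e, he, rfl⟩, y, ih y hy, rfl⟩

theorem Mv_coe {E : Set p} {n : ℕ} {x y : p} (h : Mv (R.restrict hp) E n x y) :
    Mv R (((↑) : p → L) '' E) n (x : L) y := by
  obtain ⟨e, he, rfl⟩ := h
  exact ⟨e, En_coe hp n e he, by rw [← restrict_pow_coe hp]; rfl⟩

theorem En_coe' {E : Set p} (n : ℕ) : ∀ x ∈ En R (((↑) : p → L) '' E) n,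
    ∃ x' ∈ En (R.restrict hp) E n, (x' : L) = x := by
  induction n with
  | zero =>
    intro x hx
    rw [mem_En_zero] at hx
    exact ⟨0, rfl, by rw [hx]; rfl⟩
  | succ n ih =>
    rintro _ ⟨_, ⟨e, he, rfl⟩, y, hy, rfl⟩
    obtain ⟨y', hy', rfl⟩ := ih y hy
    exact ⟨e + R.restrict hp y', ⟨e, he, y', hy', rfl⟩, rfl⟩

/-- Transfer from a submodule of finite index. -/
theorem star_of_sub (hpR : ∀ x, R x ∈ p → x ∈ p) [Finite (L ⧸ p)]
    (hsurj : ∀ x : L, ∃ l ∈ p, ∃ y, x = l + R y) {B : Set L} (hBp : B ⊆ p)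
    (h : Star (R.restrict hp) (((↑) : p → L) ⁻¹' B)) : Star R B := by
  classical
  obtain ⟨D, hDf, hBD, hDi, hDc, q, hDq, hqR, hqf, hq⟩ := h
  have hBB : (((↑) : p → L) '' (((↑) : p → L) ⁻¹' B)) = B := by
    ext x
    constructor
    · rintro ⟨y, hy, rfl⟩
      exact hy
    · intro hx
      exact ⟨⟨x, hBp hx⟩, hx, rfl⟩
  refine ⟨((↑) : p → L) '' D, hDf.image _, ?_, ?_, ?_, q.map p.subtype, ?_, ?_, ?_, ?_⟩
  · intro b hb
    exact ⟨⟨b, hBp hb⟩, hBD hb, rfl⟩
  · rintro _ ⟨d, hd, rfl⟩ _ ⟨d', hd', rfl⟩ y h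
    have hy : y ∈ p := by
      refine hpR y ?_
      have : R y = (d : L) - d' := by rw [h]; abel
      rw [this]
      exact p.sub_mem d.2 d'.2
    rw [hDi d hd d' hd' ⟨y, hy⟩ (Subtype.ext h)]
  · intro x
    obtain ⟨l, hl, y, hy⟩ := hsurj x
    obtain ⟨d, hd, y', hy'⟩ := hDc ⟨l, hl⟩
    refine ⟨d, ⟨d, hd, rfl⟩, y' + y, ?_⟩
    have h1 : l = (d : L) + R (y' : L) := congrArg Subtype.val hy'
    rw [hy, h1, map_add, add_assoc]
  · rintro _ ⟨d, hd, rfl⟩
    exact ⟨d, hDq hd, rfl⟩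
  · intro x
    constructor
    · rintro ⟨y, hy, hxy⟩
      have hx : x ∈ p := hpR x (by rw [← hxy]; exact y.2)
      refine ⟨⟨x, hx⟩, (hqR _).1 ?_, rfl⟩
      have : R.restrict hp ⟨x, hx⟩ = y := Subtype.ext hxy.symm
      rw [this]
      exact hy
    · rintro ⟨y, hy, rfl⟩
      exact ⟨R.restrict hp y, (hqR y).2 hy, rfl⟩
  · choose s hs using Submodule.mkQ_surjective p
    choose s' hs' using Submodule.mkQ_surjective q
    refine Finite.of_surjective (fun ab : (L ⧸ p) × (p ⧸ q) =>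
      (q.map p.subtype).mkQ (s ab.1 + (s' ab.2 : L))) ?_
    intro z
    obtain ⟨x, rfl⟩ := Submodule.mkQ_surjective _ z
    have h1 : x - s (p.mkQ x) ∈ p := by rw [← mk_eq, hs]
    refine ⟨(p.mkQ x, q.mkQ ⟨x - s (p.mkQ x), h1⟩), ?_⟩
    rw [mk_eq]
    have h2 : s' (q.mkQ ⟨x - s (p.mkQ x), h1⟩) - ⟨x - s (p.mkQ x), h1⟩ ∈ q := by
      rw [← mk_eq, hs']
    refine ⟨_, h2, ?_⟩
    rw [Submodule.subtype_apply, Submodule.coe_sub]
    have h3 : ∀ a b c : L, a - (b - c) = c + a - b := fun a b c => by abel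
    exact h3 _ _ _
  · intro K₀ hK₀ hK₀q
    have hK₀p : K₀ ⊆ p := by
      intro x hx
      obtain ⟨y, -, rfl⟩ := hK₀q hx
      exact y.2
    obtain ⟨n, b, hb, F, hF1, hF2, hF3, hF4⟩ := hq (((↑) : p → L) ⁻¹' K₀)
      (hK₀.preimage (Set.injOn_of_injective Subtype.val_injective)) (by
        intro x hx
        obtain ⟨y, hy, hxy⟩ := hK₀q hx
        have : x = y := Subtype.ext hxy.symm
        rw [this]
        exact hy)
    refine ⟨n, b, ?_, ((↑) : p → L) '' F, hF1.image _, ?_, ?_, ?_⟩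
    · have := En_coe hp n b hb
      rwa [hBB] at this
    · rintro _ ⟨f, hf, rfl⟩
      exact ⟨f, hF2 hf, rfl⟩
    · rintro _ ⟨f, hf, rfl⟩ _ ⟨g, hg, rfl⟩ ⟨m, e, he, e', he', h1⟩
      obtain ⟨e₁, he₁, rfl⟩ := En_coe' hp m e he
      obtain ⟨e₂, he₂, rfl⟩ := En_coe' hp m e' he'
      rw [hF3 f hf g hg ⟨m, e₁, he₁, e₂, he₂, Subtype.ext h1⟩]
    · intro t ht
      obtain ⟨y, hy, h1⟩ := hF4 ⟨t, hK₀p ht⟩ ht
      exact ⟨y, ⟨y, hy, rfl⟩, Mv_coe hp h1⟩

end Sub

/-! ### Points without exits -/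

/-- No exit can be reached from `x`. -/
def NE (R : Module.End ℤ L) (B : Set L) (x : L) : Prop :=
  ∀ n s, Mv R (dig B B) n x s → ∀ b ∈ B, ¬ Miss R B (s + b)

theorem NE_step {B : Set L} {x : L} (hx : NE R B x) {b : L} (hb : b ∈ B) :
    ∃ b' ∈ B, ∃ y, x + b = b' + R y ∧ NE R B y := by
  have h1 := hx 0 x (Mv_zero x) b hb
  unfold Miss at h1
  push Not at h1
  obtain ⟨b', hb', y, hy⟩ := h1
  refine ⟨b', hb', y, hy, fun n s hs b₁ hb₁ => ?_⟩
  refine hx (1 + n) s (Mv_trans (Mv_one ⟨b', hb', b, hb, rfl⟩ ?_) hs) b₁ hb₁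
  have : x = x + b - b := by abel
  rw [this, hy]
  abel

theorem NE_of_closed {B : Set L} (hR : Function.Injective R) (hBi : Inj R B) {S : Set L}
    (hS : ∀ x ∈ S, ∀ b ∈ B, ∃ b' ∈ B, ∃ y ∈ S, x + b = b' + R y) {x : L} (hx : x ∈ S) :
    NE R B x := by
  have key : ∀ n, ∀ x ∈ S, ∀ s, Mv R (dig B B) n x s → s ∈ S := by
    intro n
    induction n with
    | zero =>
      rintro x hx s ⟨e, he, h⟩
      rw [mem_En_zero] at he
      subst he
      rw [zero_add, pow_zero, Module.End.one_apply] at h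
      rwa [← h]
    | succ n ih =>
      intro x hx s h
      obtain ⟨_, ⟨b', hb', b, hb, rfl⟩, x', hx', h'⟩ := (Mv_succ_iff n _ _).1 h
      obtain ⟨b₂, hb₂, y, hy, h1⟩ := hS x hx b hb
      have h2 : x + b = b' + R x' := by rw [hx']; abel
      have h3 : b' = b₂ := by
        refine hBi b' hb' b₂ hb₂ (y - x') ?_
        rw [map_sub, ← add_sub_assoc, ← h1, h2]
        abel
      subst h3
      have h4 : x' = y := hR (add_left_cancel (h2.symm.trans h1))
      rw [h4] at h'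
      exact ih y hy s h'
  intro n s hs b hb hm
  obtain ⟨b', hb', y, -, h1⟩ := hS s (key n x hx s hs) b hb
  exact hm b' hb' y h1

/-- The submodule of points without exits. -/
def NEsub (R : Module.End ℤ L) (hR : Function.Injective R) {B : Set L} (hBf : B.Finite)
    (hBi : Inj R B) : Submodule ℤ L :=
  AddSubgroup.toIntSubmodule
  { carrier := {x | NE R B x}
    zero_mem' := by
      refine NE_of_closed (S := {0}) hR hBi ?_ rfl
      rintro x hx b hb
      rw [Set.mem_singleton_iff] at hx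
      subst hx
      exact ⟨b, hb, 0, rfl, by rw [map_zero, zero_add, add_zero]⟩
    add_mem' := by
      intro x y hx hy
      refine NE_of_closed (S := {z | ∃ x y, NE R B x ∧ NE R B y ∧ z = x + y}) hR hBi ?_
        ⟨x, y, hx, hy, rfl⟩
      rintro _ ⟨x, y, hx, hy, rfl⟩ b hb
      obtain ⟨b', hb', y', h1, hy'⟩ := NE_step hy hb
      obtain ⟨b₂, hb₂, x', h2, hx'⟩ := NE_step hx hb'
      refine ⟨b₂, hb₂, x' + y', ⟨x', y', hx', hy', rfl⟩, ?_⟩
      rw [add_assoc, h1, ← add_assoc, h2, map_add, add_assoc]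
    neg_mem' := by
      intro x hx
      refine NE_of_closed (S := {z | ∃ x, NE R B x ∧ z = -x}) hR hBi ?_ ⟨x, hx, rfl⟩
      rintro _ ⟨x, hx, rfl⟩ b hb
      have h1 : ∀ b, ∃ b' y, b ∈ B → b' ∈ B ∧ x + b = b' + R y ∧ NE R B y := by
        intro b
        by_cases hb : b ∈ B
        · obtain ⟨b', hb', y, h2, h3⟩ := NE_step hx hb
          exact ⟨b', y, fun _ => ⟨hb', h2, h3⟩⟩
        · exact ⟨0, 0, fun h => absurd h hb⟩
      choose φ ψ hφ using h1
      have hinj : Set.InjOn φ B := by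
        intro b hb b' hb' h
        have e1 := (hφ b hb).2.1
        have e2 := (hφ b' hb').2.1
        refine hBi b hb b' hb' (ψ b - ψ b') ?_
        rw [map_sub]
        have h2 : b = φ b + R (ψ b) - x := by rw [← e1]; abel
        have h3 : b' = φ b' + R (ψ b') - x := by rw [← e2]; abel
        calc b = φ b + R (ψ b) - x := h2
          _ = (φ b' + R (ψ b') - x) + (R (ψ b) - R (ψ b')) := by rw [h]; abel
          _ = _ := by rw [← h3]
      have hsurj : φ '' B = B :=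
        Set.eq_of_subset_of_ncard_le (by rintro _ ⟨b, hb, rfl⟩; exact (hφ b hb).1)
          (by rw [hinj.ncard_image]) hBf
      obtain ⟨b₁, hb₁, hb₁b⟩ : b ∈ φ '' B := by rw [hsurj]; exact hb
      obtain ⟨-, h3, h4⟩ := hφ b₁ hb₁
      rw [hb₁b] at h3
      refine ⟨b₁, hb₁, -ψ b₁, ⟨ψ b₁, h4, rfl⟩, ?_⟩
      have : b = x + b₁ - R (ψ b₁) := by rw [h3]; abel
      rw [this, map_neg]
      abel }

section

variable (hR : Function.Injective R) {B : Set L} (hBf : B.Finite) (hBi : Inj R B)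

theorem mem_NEsub (x : L) : x ∈ NEsub R hR hBf hBi ↔ NE R B x := Iff.rfl

theorem NEsub_R (hB0 : (0 : L) ∈ B) (x : L) :
    R x ∈ NEsub R hR hBf hBi ↔ x ∈ NEsub R hR hBf hBi := by
  rw [mem_NEsub, mem_NEsub]
  constructor
  · intro h
    obtain ⟨b', hb', y, h1, h2⟩ := NE_step h hB0
    have h3 : b' = 0 := by
      refine hBi b' hb' 0 hB0 (x - y) ?_
      rw [add_zero] at h1
      rw [zero_add, map_sub, h1]
      abel
    subst h3
    rw [add_zero, zero_add] at h1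
    rwa [hR h1]
  · intro h
    refine NE_of_closed (S := {z | NE R B z} ∪ {z | ∃ x, NE R B x ∧ z = R x}) hR hBi ?_
      (Or.inr ⟨x, h, rfl⟩)
    rintro z (hz | ⟨x, hx, rfl⟩) b hb
    · obtain ⟨b', hb', y, h1, h2⟩ := NE_step hz hb
      exact ⟨b', hb', y, Or.inl h2, h1⟩
    · exact ⟨b, hb, x, Or.inl hx, add_comm _ _⟩

theorem NEsub_digit (b : L) (hb : b ∈ B) (δ : L) (hδ : δ ∈ NEsub R hR hBf hBi)
    (hB0 : (0 : L) ∈ B) :
    ∃ b' ∈ B, ∃ y, b + δ = b' + R y ∧ b' - b ∈ NEsub R hR hBf hBi := by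
  obtain ⟨b', hb', y, h1, h2⟩ := NE_step ((mem_NEsub hR hBf hBi δ).1 hδ) hb
  refine ⟨b', hb', y, by rw [add_comm, h1], ?_⟩
  have h3 : b' - b = δ - R y := by
    have : b' = δ + b - R y := by rw [h1]; abel
    rw [this]
    abel
  rw [h3]
  exact Submodule.sub_mem _ hδ ((NEsub_R hR hBf hBi hB0 y).2 h2)

end

end Pool.Agent.helper62.TS
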